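import Mathlib

set_option autoImplicit false

namespace Pool.Agent.Lib.MP_8a6e71_co

/-- Configurations of a Boolean network with `n` components. -/
abbrev Conf (n : ℕ) : Type := Fin n → Bool

section Defs

variable {n : ℕ}

/-- The arcs `x → y` of the asynchronous graph: `y` arises from `x` by flipping one coordinate `i`
with `x i ≠ f x i`. -/
def AsyncStep (f : Conf n → Conf n) (x y : Conf n) : Prop :=
  ∃ i, x i ≠ f x i ∧ y = Function.update x i (!(x i))

/-- Trap sets: no arc of the asynchronous graph leaves `X`. -/
def IsTrapSet (f : Conf n → Conf n) (X : Set (Conf n)) : Prop :=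
  ∀ x ∈ X, ∀ y, AsyncStep f x y → y ∈ X

/-- Attractors: inclusion-minimal nonempty trap sets. -/
def IsAttractor (f : Conf n → Conf n) (X : Set (Conf n)) : Prop :=
  X.Nonempty ∧ IsTrapSet f X ∧ ∀ Y ⊆ X, Y.Nonempty → IsTrapSet f Y → Y = X

/-- Subspaces: sets obtained by fixing the coordinates in `I` as prescribed by `c`. -/
def IsSubspace (S : Set (Conf n)) : Prop :=
  ∃ (I : Set (Fin n)) (c : Fin n → Bool), S = {x | ∀ i ∈ I, x i = c i}

/-- `[X]`, the smallest subspace containing `X` (the intersection of all subspaces containing
`X`). -/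
def hull (X : Set (Conf n)) : Set (Conf n) := ⋂₀ {S | IsSubspace S ∧ X ⊆ S}

/-- The asynchronous graph of `f` is separating: `[A] ∩ [B] = ∅` for distinct attractors. -/
def Separating (f : Conf n → Conf n) : Prop :=
  ∀ A B : Set (Conf n), IsAttractor f A → IsAttractor f B → A ≠ B → hull A ∩ hull B = ∅

/-- Signed digraphs on `Fin n`: `pos j i` (`neg j i`) means that there is a positive (negative) arc
from `j` to `i`; loops and arcs of both signs are allowed. -/
structure SignedDigraph (n : ℕ) where
  /-- positive arcs -/
  pos : Fin n → Fin n → Prop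
  /-- negative arcs -/
  neg : Fin n → Fin n → Prop

/-- The signed interaction graph `G(f)`: there is a positive (negative) arc `j → i` iff some
`x, y` differ only in coordinate `j`, with `x j < y j` and `f y i - f x i > 0` (`< 0`). -/
def interactionGraph (f : Conf n → Conf n) : SignedDigraph n where
  pos j i := ∃ x y : Conf n, (∀ k, k ≠ j → x k = y k) ∧ x j < y j ∧ f x i < f y i
  neg j i := ∃ x y : Conf n, (∀ k, k ≠ j → x k = y k) ∧ x j < y j ∧ f y i < f x i

/-- A signed digraph is non-separating if it is `G(f)` for some `f` whose asynchronous graph is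
not separating. -/
def NonSeparating (G : SignedDigraph n) : Prop :=
  ∃ f : Conf n → Conf n, interactionGraph f = G ∧ ¬ Separating f

/-- A cycle of length `len + 1` of `G`: distinct vertices `vert 0, ..., vert len`, with an arc of
sign `sgn k` from `vert k` to `vert (k + 1)` for every `k` (indices modulo `len + 1`). -/
structure SignedCycle (G : SignedDigraph n) where
  /-- the length minus one -/
  len : ℕ
  /-- the vertices -/
  vert : Fin (len + 1) → Fin n
  /-- the signs of the arcs -/
  sgn : Fin (len + 1) → ℤˣ
  inj : Function.Injective vert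
  arc : ∀ k, (sgn k = 1 ∧ G.pos (vert k) (vert (k + 1))) ∨
    (sgn k = -1 ∧ G.neg (vert k) (vert (k + 1)))

/-- The sign of a cycle: the product of the signs of its arcs. -/
def SignedCycle.sign {G : SignedDigraph n} (C : SignedCycle G) : ℤˣ := ∏ k, C.sgn k

end Defs

end Pool.Agent.Lib.MP_8a6e71_co
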