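import Pool.Agent.Lib.MP_8a6e71_co.Defs

set_option autoImplicit false

namespace Pool.Agent.Lib.MP_8a6e71_co



section Example

/-- not-all-equal -/
def nae (a b c : Bool) : Bool := !(a == b && b == c)

/-- The example network on five components. -/
def exF (x : Conf 5) : Conf 5 :=
  ![xor (x 2) (x 4), nae (x 0) (x 3) (x 4), xor (x 1) (x 4), nae (x 0) (x 1) (x 2),
    xor (x 1) (x 3)]

/-- The configuration with code `m` (binary). -/
def conf (m : ℕ) : Conf 5 := fun i => m.testBit i.val

/-- A closed walk of the asynchronous graph through all states of the large attractor. -/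
def walkCodes : List ℕ :=
  [7, 23, 22, 18, 19, 27, 25, 29, 28, 30, 26, 10, 14, 15, 7, 23, 19, 27, 11, 15, 7]

/-- the closed walk -/
def w (k : ℕ) : Conf 5 := conf (walkCodes.getD k 0)

/-- the large attractor -/
def bigA : Set (Conf 5) := {x | ∃ k, k < 20 ∧ x = w k}

theorem walk_step : ∀ k < 20, AsyncStep exF (w k) (w (k + 1)) := by
  unfold AsyncStep
  decide

theorem bigA_trap : IsTrapSet exF bigA := by
  have h : ∀ k < 20, ∀ i : Fin 5, (w k) i ≠ exF (w k) i →
      ∃ l, l < 20 ∧ Function.update (w k) i (!(w k i)) = w l := by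
    decide
  rintro x ⟨k, hk, rfl⟩ y ⟨i, hi, rfl⟩
  exact h k hk i hi

theorem w_last : w 20 = w 0 := by decide

theorem bigA_attractor : IsAttractor exF bigA := by
  refine ⟨⟨w 0, 0, by norm_num, rfl⟩, bigA_trap, ?_⟩
  intro Y hY hne htrap
  obtain ⟨y, hy⟩ := hne
  obtain ⟨k, hk, hyk⟩ := hY hy
  have step : ∀ m, m < 20 → w m ∈ Y → w (m + 1) ∈ Y := fun m hm hmY =>
    htrap _ hmY _ (walk_step m hm)
  have up : ∀ d, k + d ≤ 20 → w (k + d) ∈ Y := by
    intro d
    induction d with
    | zero =>
      intro _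
      rw [Nat.add_zero, ← hyk]
      exact hy
    | succ d ih =>
      intro hd
      exact step (k + d) (by omega) (ih (by omega))
  have h20 : w 20 ∈ Y := by
    have := up (20 - k) (by omega)
    rwa [show k + (20 - k) = 20 by omega] at this
  have h0 : w 0 ∈ Y := w_last ▸ h20
  have all : ∀ m, m ≤ 20 → w m ∈ Y := by
    intro m
    induction m with
    | zero => exact fun _ => h0
    | succ m ih => exact fun hm => step m (by omega) (ih (by omega))
  apply Set.Subset.antisymm hY
  rintro x ⟨m, hm, rfl⟩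
  exact all m (by omega)

/-- the zero configuration -/
def zeroC : Conf 5 := fun _ => false

theorem zero_attractor : IsAttractor exF {zeroC} := by
  have hfix : exF zeroC = zeroC := by decide
  refine ⟨⟨zeroC, rfl⟩, ?_, ?_⟩
  · rintro x hx y ⟨i, hi, rfl⟩
    rw [Set.mem_singleton_iff] at hx
    subst hx
    rw [hfix] at hi
    exact absurd rfl hi
  · intro Y hY hne _
    exact (Set.Nonempty.subset_singleton_iff hne).mp hY

theorem zero_mem_hull : zeroC ∈ hull bigA := by
  rintro S ⟨⟨I, c, rfl⟩, hS⟩ i hi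
  have h : ∀ i : Fin 5, ∃ k, k < 20 ∧ (w k) i = false := by decide
  obtain ⟨k, hk, hki⟩ := h i
  have h1 := hS ⟨k, hk, rfl⟩ i hi
  rw [← h1, hki]
  rfl

theorem not_separating : ¬ Separating exF := by
  intro h
  have h1 := h {zeroC} bigA zero_attractor bigA_attractor ?_
  · have h2 : zeroC ∈ hull ({zeroC} : Set (Conf 5)) ∩ hull bigA := by
      refine ⟨?_, zero_mem_hull⟩
      rintro S ⟨_, hS⟩
      exact hS rfl
    rw [h1] at h2
    exact h2
  · intro h2
    have h3 : zeroC ∈ bigA := h2 ▸ (rfl : zeroC ∈ ({zeroC} : Set (Conf 5)))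
    obtain ⟨k, hk, hk2⟩ := h3
    revert hk2
    revert k
    decide

/-- the arcs of the underlying digraph -/
def arcB (j i : Fin 5) : Bool :=
  match j.val, i.val with
  | 0, 1 => true
  | 0, 3 => true
  | 1, 2 => true
  | 1, 3 => true
  | 1, 4 => true
  | 2, 0 => true
  | 2, 3 => true
  | 3, 1 => true
  | 3, 4 => true
  | 4, 0 => true
  | 4, 1 => true
  | 4, 2 => true
  | _, _ => false

theorem arcB_of_dep (j i : Fin 5) (x y : Conf 5) (hxy : ∀ k, k ≠ j → x k = y k)
    (hne : exF x i ≠ exF y i) : arcB j i = true := by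
  have key : ∀ j i : Fin 5, arcB j i = true ∨ ∀ x : Conf 5, ∀ b : Bool,
      exF x i = exF (Function.update x j b) i := by
    decide
  rcases key j i with h | h
  · exact h
  · exfalso
    apply hne
    have h1 : y = Function.update x j (y j) := by
      funext k
      by_cases hk : k = j
      · subst hk
        simp
      · rw [Function.update_of_ne hk, hxy k hk]
    rw [h x (y j), ← h1]

/-- Remove the vertices without an in-neighbour in the set. -/
def peel (S : Finset (Fin 5)) : Finset (Fin 5) := S.filter (fun v => ∃ u ∈ S, arcB u v = true)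

theorem cycle_arc (C : SignedCycle (interactionGraph exF)) (k : Fin (C.len + 1)) :
    arcB (C.vert k) (C.vert (k + 1)) = true := by
  rcases C.arc k with ⟨_, x, y, hxy, _, h⟩ | ⟨_, x, y, hxy, _, h⟩
  · exact arcB_of_dep _ _ x y hxy (ne_of_lt h)
  · exact arcB_of_dep _ _ x y hxy (ne_of_gt h)

theorem cycle_peel (C : SignedCycle (interactionGraph exF)) (S : Finset (Fin 5))
    (h : ∀ k, C.vert k ∈ S) : ∀ k, C.vert k ∈ peel S := by
  intro k
  unfold peel
  rw [Finset.mem_filter]
  refine ⟨h k, C.vert (k - 1), h _, ?_⟩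
  have := cycle_arc C (k - 1)
  rwa [sub_add_cancel] at this

theorem cycle_peel5 (C : SignedCycle (interactionGraph exF)) (S : Finset (Fin 5))
    (h : ∀ k, C.vert k ∈ S) : peel (peel (peel (peel (peel S)))) ≠ ∅ := by
  have h5 := cycle_peel C _ (cycle_peel C _ (cycle_peel C _ (cycle_peel C _ (cycle_peel C _ h))))
  exact Finset.ne_empty_of_mem (h5 0)

theorem peel_check : ∀ S : Finset (Fin 5), peel (peel (peel (peel (peel S)))) = ∅ ∨
    peel (peel (peel (peel (peel Sᶜ)))) = ∅ := by
  decide +kernel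

theorem no_disjoint (C D : SignedCycle (interactionGraph exF)) :
    ¬ Disjoint (Set.range C.vert) (Set.range D.vert) := by
  intro hd
  let S : Finset (Fin 5) := Finset.univ.image C.vert
  have hC : ∀ k, C.vert k ∈ S := fun k => Finset.mem_image_of_mem _ (Finset.mem_univ _)
  have hD : ∀ k, D.vert k ∈ Sᶜ := by
    intro k
    rw [Finset.mem_compl]
    intro hk
    obtain ⟨l, _, hl⟩ := Finset.mem_image.mp hk
    exact Set.disjoint_left.mp hd ⟨l, rfl⟩ ⟨k, hl.symm⟩
  rcases peel_check S with h | h
  · exact cycle_peel5 C S hC h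
  · exact cycle_peel5 D Sᶜ hD h

end Example

theorem main_result : ∃ G : SignedDigraph 5, NonSeparating G ∧
    ¬ ∃ C D : SignedCycle G, C.sign = 1 ∧ D.sign = -1 ∧
      Disjoint (Set.range C.vert) (Set.range D.vert) := by
  refine ⟨interactionGraph exF, ⟨exF, rfl, not_separating⟩, ?_⟩
  rintro ⟨C, D, _, _, h⟩
  exact no_disjoint C D h

end Pool.Agent.Lib.MP_8a6e71_co
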