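import Pool.Agent.Lib.MP_8a6e71_co.Defs

set_option autoImplicit false

/-! Signed simple paths and reachability in a signed digraph. -/

namespace Pool.Agent.Lib.MP_8a6e71_co.RS

variable {n : ℕ}

/-- signed simple path of `G` from `u` to `w`, of sign `σ`, whose interior vertices are distinct
elements of `M` -/
inductive SimplePath (G : SignedDigraph n) : Finset (Fin n) → ℤˣ → Fin n → Fin n → Prop
  | single {M : Finset (Fin n)} {σ : ℤˣ} {u w : Fin n} :
      ((σ = 1 ∧ G.pos u w) ∨ (σ = -1 ∧ G.neg u w)) → SimplePath G M σ u w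
  | cons {M : Finset (Fin n)} {σ τ : ℤˣ} {u a w : Fin n} :
      ((σ = 1 ∧ G.pos u a) ∨ (σ = -1 ∧ G.neg u a)) → a ∈ M → SimplePath G (M.erase a) τ a w →
      SimplePath G M (σ * τ) u w

/-- there is a directed path from `u` to `w` in `G` (possibly `u = w`) -/
def Reaches (G : SignedDigraph n) : Fin n → Fin n → Prop :=
  Relation.ReflTransGen (fun i j => G.pos i j ∨ G.neg i j)

end Pool.Agent.Lib.MP_8a6e71_co.RS
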