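import Pool.Agent.Lib.MP_8a6e71_co.Defs
import Pool.Agent.Lib.MP_8a6e71_co.RSGraph

set_option autoImplicit false

/-! RespSeparation (MP_8a6e71_co Q2, theorem P1).  Signs are Booleans: `false` = `+`, `true` = `-`,
product = `xor`.  `R i b x` : vertex `i` may be set to `b` at the state `x`. -/

namespace Pool.Agent.Lib.MP_8a6e71_co.RS

open Function

section Defs
variable {V : Type} [Fintype V] [DecidableEq V]

abbrev Net (V : Type) := V → Bool → (V → Bool) → Prop

/-- signed arc `j → i` : setting `j` to `xor b ν` enables setting `i` to `b` -/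
def Arc (R : Net V) (ν : Bool) (j i : V) : Prop :=
  ∃ (x : V → Bool) (b : Bool),
    ¬ R i b (update x j (!(xor b ν))) ∧ R i b (update x j (xor b ν))

/-- simple path of sign `ν` from `u` to `w`, interior vertices distinct and in `M`
(use it with `u ∉ M`, `w ∉ M`). -/
inductive SPath (R : Net V) : Finset V → Bool → V → V → Prop
  | arc {M : Finset V} {ν : Bool} {u w : V} : Arc R ν u w → SPath R M ν u w
  | cons {M : Finset V} {ν ν' : Bool} {u a w : V} :
      Arc R ν u a → a ∈ M → SPath R (M.erase a) ν' a w → SPath R M (xor ν ν') u w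

/-- one move: a vertex of `M` moves by `R`, or a vertex of `F` is changed arbitrarily -/
def Mv (R : Net V) (M F : Finset V) (x y : V → Bool) : Prop :=
  (∃ i ∈ M, ∃ b, R i b x ∧ y = update x i b) ∨ (∃ i ∈ F, ∃ b, y = update x i b)

/-- reachability -/
def Rch (R : Net V) (M F : Finset V) : (V → Bool) → (V → Bool) → Prop :=
  Relation.ReflTransGen (Mv R M F)

/-- overwrite the coordinates in `E` by `c` -/
def ow (x c : V → Bool) (E : Finset V) : V → Bool := fun v => if v ∈ E then c v else x v

/-- the network of `f` -/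
def net (f : (V → Bool) → (V → Bool)) : Net V := fun i b x => f x i = b

/-- `X` is closed under predecessors -/
def Up (f : (V → Bool) → (V → Bool)) (X : Finset V) : Prop :=
  ∀ i ∈ X, ∀ j ν, Arc (net f) ν j i → j ∈ X

/-- strongly connected trap set = attractor, in the language of `Rch` -/
structure Attr (f : (V → Bool) → (V → Bool)) (A : Set (V → Bool)) : Prop where
  ne : A.Nonempty
  closed : ∀ x ∈ A, ∀ y, Rch (net f) Finset.univ ∅ x y → y ∈ A
  conn : ∀ x ∈ A, ∀ y ∈ A, Rch (net f) Finset.univ ∅ x y

/-- every vertex of a nonempty set has a coherent predecessor in it (`q` gives the signs). -/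
def CohSet (f : (V → Bool) → (V → Bool)) (D : Finset V) : Prop :=
  D.Nonempty ∧ ∃ q : V → Bool, ∀ i ∈ D, ∃ j ∈ D, Arc (net f) (xor (q i) (q j)) j i

/-- sign hypothesis on `W'` (only for DISTINCT `e`, `w`) -/
def SignOK (f : (V → Bool) → (V → Bool)) (s : V → Bool) (W' : Finset V) : Prop :=
  ∀ e ∈ W', ∀ w ∈ W', e ≠ w → ∀ ν, SPath (net f) (Finset.univ \ W') ν e w → ν = xor (s e) (s w)

/-- reachability in the graph -/
def Goes (f : (V → Bool) → (V → Bool)) : V → V → Prop :=
  Relation.ReflTransGen (fun j i => ∃ ν, Arc (net f) ν j i)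

end Defs

section Proofs
variable {V : Type} [Fintype V] [DecidableEq V]
/- T0 by helper23: replaces the four stubs of T0 in RSStub (same statements) -/

/-! ### T0: reachability basics (helper23) -/

theorem Rch.mono {R : Net V} {M F M' F' : Finset V} (h1 : M ⊆ M' ∪ F') (h2 : F ⊆ F')
    {x y : V → Bool} (h : Rch R M F x y) : Rch R M' F' x y := by
  refine Relation.ReflTransGen.mono ?_ _ _ h
  rintro a b (⟨i, hi, c, hR, rfl⟩ | ⟨i, hi, c, rfl⟩)
  · rcases Finset.mem_union.1 (h1 hi) with hi' | hi'
    · exact Or.inl ⟨i, hi', c, hR, rfl⟩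
    · exact Or.inr ⟨i, hi', c, rfl⟩
  · exact Or.inr ⟨i, h2 hi, c, rfl⟩

theorem Rch.frozen {R : Net V} {M F : Finset V} {x y : V → Bool} (h : Rch R M F x y)
    (j : V) (hM : j ∉ M) (hF : j ∉ F) : y j = x j := by
  induction h with
  | refl => rfl
  | tail _ hs ih =>
    rcases hs with ⟨i, hi, c, _, rfl⟩ | ⟨i, hi, c, rfl⟩
    · have hne : j ≠ i := by
        rintro rfl
        exact hM hi
      rw [update_of_ne hne, ih]
    · have hne : j ≠ i := by
        rintro rfl
        exact hF hi
      rw [update_of_ne hne, ih]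

/-- free vertices may be overwritten -/
theorem Rch.overwrite (R : Net V) (M F : Finset V) (x c : V → Bool) : Rch R M F x (ow x c F) := by
  have key : ∀ E : Finset V, E ⊆ F → Rch R M F x (ow x c E) := by
    intro E
    induction E using Finset.induction_on with
    | empty =>
      intro _
      have h1 : ow x c ∅ = x := by
        funext v
        simp [ow]
      rw [h1]
      exact Relation.ReflTransGen.refl
    | insert a E ha ih =>
      intro hE
      refine Relation.ReflTransGen.tail (ih fun v hv => hE (Finset.mem_insert_of_mem hv)) ?_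
      refine Or.inr ⟨a, hE (Finset.mem_insert_self _ _), c a, ?_⟩
      funext v
      by_cases hv : v = a
      · subst hv
        simp [ow]
      · simp [ow, hv]
  exact key F (Finset.Subset.refl _)

/-- first exit: either no vertex of `K` moves, or one wants to change at some `z` before -/
theorem first_exit (f : (V → Bool) → (V → Bool)) (K : Finset V) (x y : V → Bool)
    (h : Rch (net f) Finset.univ ∅ x y) :
    Rch (net f) (Finset.univ \ K) ∅ x y ∨
      ∃ z, ∃ w ∈ K, Rch (net f) (Finset.univ \ K) ∅ x z ∧ f z w ≠ x w := by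
  induction h with
  | refl => exact Or.inl Relation.ReflTransGen.refl
  | @tail a b _ hs ih =>
    rcases ih with ih | ih
    · rcases hs with ⟨i, _, c, hR, rfl⟩ | ⟨i, hi, _⟩
      · by_cases hiK : i ∈ K
        · by_cases hc : c = x i
          · left
            have h1 : a i = x i := ih.frozen i (by simp [hiK]) (by simp)
            have h2 : update a i c = a := by
              rw [hc, ← h1]
              exact update_eq_self i a
            rw [h2]
            exact ih
          · right
            refine ⟨a, i, hiK, ih, ?_⟩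
            rw [show f a i = c from hR]
            exact hc
        · left
          exact Relation.ReflTransGen.tail ih (Or.inl ⟨i, by simp [hiK], c, hR, rfl⟩)
      · exact absurd hi (Finset.notMem_empty i)
    · exact Or.inr ih







/-- simple paths for an abstract signed graph -/
inductive T1_SP (A : Bool → V → V → Prop) : Finset V → Bool → V → V → Prop
  | arc {M : Finset V} {ν : Bool} {u w : V} : A ν u w → T1_SP A M ν u w
  | cons {M : Finset V} {ν ν' : Bool} {u a w : V} :
      A ν u a → a ∈ M → T1_SP A (M.erase a) ν' a w → T1_SP A M (xor ν ν') u w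

omit [Fintype V] in
lemma T1_SP.toSPath {R : Net V} {M : Finset V} {ν : Bool} {u w : V}
    (h : T1_SP (Arc R) M ν u w) : SPath R M ν u w := by
  induction h with
  | arc h => exact SPath.arc h
  | cons h1 h2 _ ih => exact SPath.cons h1 h2 ih

/-- the goal -/
def T1_G (R : Net V) (M F : Finset V) (w : V) (β : Bool) (x : V → Bool) : Prop :=
  ∃ y, Rch R M F x y ∧ R w β y

/-- the statement for the induction -/
def T1_IH (A : Bool → V → V → Prop) (w : V) (β : Bool) (M : Finset V) : Prop :=
  ∀ R R' : Net V, (∀ i ∈ insert w M, ∀ j ν, Arc R ν j i → A ν j i) →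
    (∀ i ∈ insert w M, ∀ j ν, Arc R' ν j i → A ν j i) →
    (∀ i ∈ M, ∀ b x, R' i b x → R i b x) → (∀ x, R w β x → R' w β x) →
    (∀ i ∈ M, ∀ b x, R i b x → ¬ R' i b x → ¬ T1_SP A (M.erase i) (xor β b) i w) →
    ∀ x, T1_G R M ∅ w β x → T1_G R' M ∅ w β x

omit [Fintype V] in
lemma T1_upd_or (x : V → Bool) (a : V) (c : Bool) : x = update x a c ∨ x = update x a (!c) := by
  cases hx : x a <;> cases c
  · left; rw [← hx]; simp
  · right; simp only [Bool.not_true]; rw [← hx]; simp
  · right; simp only [Bool.not_false]; rw [← hx]; simp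
  · left; rw [← hx]; simp

omit [Fintype V] in
lemma T1_freeze {A : Bool → V → V → Prop} {w : V} {β : Bool} {M : Finset V} {a : V} (ha : a ∉ M)
    (haw : a ≠ w) (IH : T1_IH A w β M) (R : Net V)
    (hR : ∀ i ∈ insert w M, ∀ j ν, Arc R ν j i → A ν j i) (c : Bool)
    (hno : ¬ T1_SP A M (xor β (!c)) a w) (x : V → Bool) (h : T1_G R M {a} w β x) :
    T1_G R M ∅ w β (update x a c) := by
  classical
  let Rt : Net V := fun i b x => R i b (update x a c) ∨ R i b (update x a (!c))
  let Rf : Net V := fun i b x => R i b (update x a c)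
  have hne : ∀ i ∈ M, i ≠ a := fun i hi h => ha (h ▸ hi)
  have key : ∀ (e : Bool) (i j : V) (ν b : Bool) (x : V → Bool),
      ¬ R i b (update (update x j (!(xor b ν))) a e) → R i b (update (update x j (xor b ν)) a e) →
      Arc R ν j i := by
    intro e i j ν b x h1 h2
    by_cases hja : j = a
    · subst hja
      rw [update_idem] at h1 h2
      exact absurd h2 h1
    · rw [update_comm hja] at h1 h2
      exact ⟨_, b, h1, h2⟩
  have hAt : ∀ i ∈ insert w M, ∀ j ν, Arc Rt ν j i → A ν j i := by
    rintro i hi j ν ⟨x, b, h1, h2⟩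
    simp only [Rt, not_or] at h1
    rcases h2 with h2 | h2
    · exact hR i hi j ν (key _ i j ν b x h1.1 h2)
    · exact hR i hi j ν (key _ i j ν b x h1.2 h2)
  have hAf : ∀ i ∈ insert w M, ∀ j ν, Arc Rf ν j i → A ν j i := by
    rintro i hi j ν ⟨x, b, h1, h2⟩
    exact hR i hi j ν (key _ i j ν b x h1 h2)
  have hbit : ∀ b : Bool, xor b (xor b (!c)) = !c := by intro b; cases b <;> cases c <;> rfl
  have harc : ∀ (i : V) (b : Bool) (x : V → Bool), R i b (update x a (!c)) →
      ¬ R i b (update x a c) → Arc R (xor b (!c)) a i := by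
    intro i b x h1 h2
    refine ⟨x, b, ?_, ?_⟩
    · rw [hbit, Bool.not_not]; exact h2
    · rw [hbit]; exact h1
  have hgoal : ∀ x, Rt w β x → Rf w β x := by
    intro x hx
    by_contra hc
    rcases hx with hx | hx
    · exact hc hx
    · exact hno (T1_SP.arc (hR w (Finset.mem_insert_self _ _) _ _ (harc w β x hx hc)))
  have hrem : ∀ i ∈ M, ∀ b x, Rt i b x → ¬ Rf i b x →
      ¬ T1_SP A (M.erase i) (xor β b) i w := by
    intro i hi b x h1 h2 h3
    rcases h1 with h1 | h1
    · exact h2 h1
    · have h4 := hR i (Finset.mem_insert_of_mem hi) _ _ (harc i b x h1 h2)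
      have h5 := T1_SP.cons h4 hi h3
      have h6 : xor (xor b (!c)) (xor β b) = xor β (!c) := by
        cases b <;> cases c <;> cases β <;> rfl
      rw [h6] at h5
      exact hno h5
  obtain ⟨q, hq, hgq⟩ := h
  have h1 : T1_G Rt M ∅ w β (update x a c) := by
    refine ⟨update q a c, ?_, ?_⟩
    · clear hgq
      induction hq with
      | refl => exact Relation.ReflTransGen.refl
      | @tail y z _ hyz ih =>
        rcases hyz with ⟨i, hi, b, hm, rfl⟩ | ⟨i, hi, b, rfl⟩
        · refine ih.tail (Or.inl ⟨i, hi, b, ?_, ?_⟩)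
          · simp only [Rt, update_idem]
            rcases T1_upd_or y a c with h | h
            · left; rwa [← h]
            · right; rwa [← h]
          · rw [update_comm (hne i hi)]
        · rw [Finset.mem_singleton] at hi
          subst hi
          rw [update_idem]
          exact ih
    · simp only [Rt, update_idem]
      rcases T1_upd_or q a c with h | h
      · left; rwa [← h]
      · right; rwa [← h]
  obtain ⟨r, hr, hgr⟩ := IH Rt Rf hAt hAf (fun i _ b x hx => Or.inl hx) hgoal hrem _ h1
  have h3 : r a = c ∧ Rch R M ∅ (update x a c) r := by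
    clear hgr
    induction hr with
    | refl => exact ⟨update_self _ _ _, Relation.ReflTransGen.refl⟩
    | @tail y z _ hyz ih =>
      rcases hyz with ⟨i, hi, b, hm, rfl⟩ | ⟨i, hi, b, rfl⟩
      · refine ⟨by rw [update_of_ne (Ne.symm (hne i hi))]; exact ih.1,
          ih.2.tail (Or.inl ⟨i, hi, b, ?_, rfl⟩)⟩
        have : update y a c = y := by rw [← ih.1]; simp
        simpa only [Rf, this] using hm
      · simp at hi
  refine ⟨r, h3.2, ?_⟩
  have : update r a c = r := by rw [← h3.1]; simp
  simpa only [Rf, this] using hgr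

theorem T1_main (A : Bool → V → V → Prop) (w : V) (β : Bool) (n : ℕ) :
    ∀ M : Finset V, M.card = n → w ∉ M → T1_IH A w β M := by
  classical
  induction n using Nat.strong_induction_on with
  | _ n ihn =>
    intro M hM hw R R' hA hA' hle hg hrem x hx
    have main : ∀ T : Finset V, T ⊆ M →
        T1_G (fun i => if i ∈ T then R' i else R i) M ∅ w β x := by
      intro T
      induction T using Finset.induction_on with
      | empty => intro _; simpa using hx
      | @insert a T haT ih =>
        intro hTS
        have haS : a ∈ M := hTS (Finset.mem_insert_self _ _)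
        have ih' := ih (fun x hx => hTS (Finset.mem_insert_of_mem hx))
        have haw : a ≠ w := fun h => hw (h ▸ haS)
        have hwT : w ∉ T := fun h => hw (hTS (Finset.mem_insert_of_mem h))
        have hwT' : w ∉ insert a T := fun h => hw (hTS h)
        set M1 : Net V := fun i => if i ∈ T then R' i else R i with hM1
        set M2 : Net V := fun i => if i ∈ insert a T then R' i else R i with hM2
        have hDM1 : ∀ i ∈ insert w (M.erase a), ∀ j ν, Arc M1 ν j i → A ν j i := by
          intro i hi j ν h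
          have hiS : i ∈ insert w M := by
            rcases Finset.mem_insert.1 hi with h | h
            · exact Finset.mem_insert.2 (Or.inl h)
            · exact Finset.mem_insert.2 (Or.inr (Finset.mem_of_mem_erase h))
          obtain ⟨y, b, h1, h2⟩ := h
          by_cases hiT : i ∈ T
          · simp only [hM1, hiT, if_true] at h1 h2
            exact hA' i hiS j ν ⟨y, b, h1, h2⟩
          · simp only [hM1, hiT, if_false] at h1 h2
            exact hA i hiS j ν ⟨y, b, h1, h2⟩
        have hsame : ∀ i, i ≠ a → M2 i = M1 i := by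
          intro i hi
          simp only [hM1, hM2, Finset.mem_insert, hi, false_or]
        have hstar : ∀ b y, y a = !b → M1 a b y → ¬ M2 a b y → T1_G M1 M ∅ w β y →
            T1_G M2 M ∅ w β y := by
          intro b y hyb h1 h2 hr
          simp only [hM1, haT, if_false] at h1
          simp only [hM2, Finset.mem_insert, true_or, if_true] at h2
          have hno := hrem a haS b y h1 h2
          have hcard : (M.erase a).card < n := by
            rw [← hM]; exact Finset.card_erase_lt_of_mem haS
          obtain ⟨z, hz, hgz⟩ := hr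
          have h3 := T1_freeze (A := A) (w := w) (β := β) (M := M.erase a) (a := a)
            (Finset.notMem_erase a M) haw
            (ihn _ hcard (M.erase a) rfl (fun h => hw (Finset.mem_of_mem_erase h))) M1 hDM1 (y a)
            (by rw [hyb, Bool.not_not]; exact hno) y
            ⟨z, by
              refine hz.lift id ?_
              rintro u v (⟨i, hi, b', hm, rfl⟩ | ⟨i, hi, b', rfl⟩)
              · by_cases hia : i = a
                · subst hia; exact Or.inr ⟨i, Finset.mem_singleton_self _, b', rfl⟩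
                · exact Or.inl ⟨i, Finset.mem_erase.2 ⟨hia, hi⟩, b', hm, rfl⟩
              · simp at hi, hgz⟩
          have h4 : update y a (y a) = y := by simp
          rw [h4] at h3
          obtain ⟨z', hz', hgz'⟩ := h3
          refine ⟨z', ?_, by rw [hsame w (Ne.symm haw)]; exact hgz'⟩
          refine hz'.lift id ?_
          rintro u v (⟨i, hi, b', hm, rfl⟩ | ⟨i, hi, b', rfl⟩)
          · exact Or.inl ⟨i, Finset.mem_of_mem_erase hi, b', by
              rw [hsame i (Finset.ne_of_mem_erase hi)]; exact hm, rfl⟩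
          · simp at hi
        obtain ⟨q, hq, hgq⟩ := ih'
        have : ∀ y, Rch M1 M ∅ y q → T1_G M2 M ∅ w β y := by
          intro y hy
          induction hy using Relation.ReflTransGen.head_induction_on with
          | refl => exact ⟨q, Relation.ReflTransGen.refl, by rw [hsame w (Ne.symm haw)]; exact hgq⟩
          | @head y z hyz hzq ihz =>
            rcases hyz with ⟨i, hi, b, hm, rfl⟩ | ⟨i, hi, b, rfl⟩
            · by_cases hm2 : M2 i b y
              · obtain ⟨r, hr, hgr⟩ := ihz
                exact ⟨r, hr.head (Or.inl ⟨i, hi, b, hm2, rfl⟩), hgr⟩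
              · have hia : i = a := by
                  by_contra hne
                  rw [hsame i hne] at hm2
                  exact hm2 hm
                subst hia
                by_cases hyb : y i = b
                · have : update y i b = y := by rw [← hyb]; simp
                  rw [this] at ihz
                  exact ihz
                · have hyb' : y i = !b := by
                    cases h1 : y i <;> cases h2 : b <;> simp_all
                  exact hstar b y hyb' hm hm2
                    ⟨q, hzq.head (Or.inl ⟨i, hi, b, hm, rfl⟩), hgq⟩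
            · simp at hi
        exact this x hq
    obtain ⟨q, hq, hgq⟩ := main M (Finset.Subset.refl M)
    refine ⟨q, ?_, ?_⟩
    · refine hq.lift id ?_
      rintro u v (⟨i, hi, b', hm, rfl⟩ | ⟨i, hi, b', rfl⟩)
      · exact Or.inl ⟨i, hi, b', by simpa only [hi, if_true, id] using hm, rfl⟩
      · simp at hi
    · have : (if w ∈ M then R' w else R w) = R w := if_neg hw
      simp only [this] at hgq
      exact hg q hgq

theorem RT (R : Net V) (M : Finset V) (u w : V) (hu : u ∉ M) (hw : w ∉ M) (huw : u ≠ w)
    (b σ : Bool) (hp : ∀ ν, SPath R M ν u w → ν = σ)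
    (x y : V → Bool) (hxy : Rch R M {u} x y) (hy : R w b y) :
    ∃ z, Rch R M ∅ (update x u (xor b σ)) z ∧ R w b z := by
  refine T1_freeze (A := Arc R) (w := w) (β := b) (M := M) (a := u) hu huw
    (T1_main (Arc R) w b M.card M rfl hw) R (fun i _ j ν h => h) (xor b σ) ?_ x ⟨y, hxy, hy⟩
  intro h
  have h1 := hp _ h.toSPath
  revert h1
  cases b <;> cases σ <;> simp



-- snippet of helper4 for T2 (RTm); compiled against rs_Stub_h18.lean as RTm_h4 (only RT used); needs: open Function, variable {V : Type} [Fintype V] [DecidableEq V]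
/-- the net in which the vertices of `G` may always be set -/
def T2_R (R : Net V) (G : Finset V) : Net V := fun i b x => i ∈ G ∨ R i b x

theorem T2_arc {R : Net V} {G : Finset V} {ν : Bool} {j i : V} (h : Arc (T2_R R G) ν j i) :
    i ∉ G ∧ Arc R ν j i := by
  obtain ⟨x, b, h1, h2⟩ := h
  have hi : i ∉ G := fun hi => h1 (Or.inl hi)
  refine ⟨hi, x, b, fun h3 => h1 (Or.inr h3), ?_⟩
  rcases h2 with h2 | h2
  · exact absurd h2 hi
  · exact h2

theorem T2_spath {R : Net V} {G M' : Finset V} {ν : Bool} {u w : V}
    (h : SPath (T2_R R G) M' ν u w) : ∀ M : Finset V, M' ⊆ M ∪ G → SPath R M ν u w := by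
  induction h with
  | arc h => exact fun M _ => SPath.arc (T2_arc h).2
  | @cons M' ν ν' u a w h ha hs ih =>
    intro M hM
    have h1 := T2_arc h
    have haM : a ∈ M := by
      rcases Finset.mem_union.1 (hM ha) with h2 | h2
      · exact h2
      · exact absurd h2 h1.1
    refine SPath.cons h1.2 haM (ih _ ?_)
    intro v hv
    rw [Finset.mem_erase] at hv
    rcases Finset.mem_union.1 (hM hv.2) with h2 | h2
    · exact Finset.mem_union_left _ (Finset.mem_erase.2 ⟨hv.1, h2⟩)
    · exact Finset.mem_union_right _ h2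

theorem RTm (R : Net V) (M E : Finset V) (hME : Disjoint M E) (w : V) (hw : w ∉ M) (hwE : w ∉ E)
    (b : Bool) (σ : V → Bool) (hp : ∀ e ∈ E, ∀ ν, SPath R M ν e w → ν = σ e)
    (x y : V → Bool) (hxy : Rch R M E x y) (hy : R w b y) :
    ∃ z, Rch R M ∅ (ow x (fun e => xor b (σ e)) E) z ∧ R w b z := by
  have key : ∀ F : Finset V, F ⊆ E →
      ∃ z, Rch R M (E \ F) (ow x (fun e => xor b (σ e)) F) z ∧ R w b z := by
    intro F
    induction F using Finset.induction_on with
    | empty =>
      intro _
      refine ⟨y, ?_, hy⟩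
      have h1 : ow x (fun e => xor b (σ e)) ∅ = x := by
        funext v
        simp [ow]
      rw [h1, Finset.sdiff_empty]
      exact hxy
    | insert e F heF ih =>
      intro hFE
      have heE : e ∈ E := hFE (Finset.mem_insert_self _ _)
      obtain ⟨z, hz, hwz⟩ := ih fun v hv => hFE (Finset.mem_insert_of_mem hv)
      have heM : e ∉ M := fun h => Finset.disjoint_left.1 hME h heE
      have hG : ∀ v, v ∈ E \ insert e F ↔ v ∈ E \ F ∧ v ≠ e := by
        intro v
        simp only [Finset.mem_sdiff, Finset.mem_insert]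
        tauto
      have h1 : Rch (T2_R R (E \ insert e F)) (M ∪ (E \ insert e F)) {e}
          (ow x (fun e => xor b (σ e)) F) z := by
        refine Relation.ReflTransGen.mono ?_ _ _ hz
        rintro p q (⟨i, hi, c, hc, rfl⟩ | ⟨i, hi, c, rfl⟩)
        · exact Or.inl ⟨i, Finset.mem_union_left _ hi, c, Or.inr hc, rfl⟩
        · by_cases hie : i = e
          · exact Or.inr ⟨i, Finset.mem_singleton.2 hie, c, rfl⟩
          · have h2 := (hG i).2 ⟨hi, hie⟩
            exact Or.inl ⟨i, Finset.mem_union_right _ h2, c, Or.inl h2, rfl⟩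
      obtain ⟨z', hz', hwz'⟩ := RT (T2_R R (E \ insert e F)) (M ∪ (E \ insert e F)) e w
        (by
          intro h
          rcases Finset.mem_union.1 h with h | h
          · exact heM h
          · exact ((hG e).1 h).2 rfl)
        (by
          intro h
          rcases Finset.mem_union.1 h with h | h
          · exact hw h
          · exact hwE (Finset.mem_sdiff.1 h).1)
        (fun h => hwE (h ▸ heE)) b (σ e)
        (fun ν hν => hp e heE ν (T2_spath hν M (Finset.Subset.refl _)))
        _ z h1 (Or.inr hwz)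
      have hup : update (ow x (fun e => xor b (σ e)) F) e (xor b (σ e)) =
          ow x (fun e => xor b (σ e)) (insert e F) := by
        funext v
        by_cases hv : v = e
        · subst hv
          simp [ow]
        · simp [ow, hv]
      rw [hup] at hz'
      refine ⟨z', ?_, ?_⟩
      · refine Relation.ReflTransGen.mono ?_ _ _ hz'
        rintro p q (⟨i, hi, c, hc, rfl⟩ | ⟨i, hi, c, rfl⟩)
        · by_cases hiG : i ∈ E \ insert e F
          · exact Or.inr ⟨i, hiG, c, rfl⟩
          · rcases Finset.mem_union.1 hi with hi | hi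
            · rcases hc with hc | hc
              · exact absurd hc hiG
              · exact Or.inl ⟨i, hi, c, hc, rfl⟩
            · exact absurd hi hiG
        · exact absurd hi (Finset.notMem_empty i)
      · rcases hwz' with h | h
        · exact absurd (Finset.mem_sdiff.1 h).1 hwE
        · exact h
  have h := key E (Finset.Subset.refl _)
  rwa [Finset.sdiff_self] at h



/-! ### T3: on an `Up` set `f` depends only on the coordinates in the set (typed by helper95) -/

omit [Fintype V] in
theorem T3_arc (f : (V → Bool) → (V → Bool)) (z : V → Bool) (i j : V) (c : Bool)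
    (h : f (update z j c) i ≠ f z i) : ∃ ν, Arc (net f) ν j i := by
  have hzj : z j ≠ c := by
    intro e
    apply h
    rw [← e, update_eq_self]
  have hz : z j = !c := by
    cases h1 : z j <;> cases h2 : c <;> simp_all
  refine ⟨xor (f (update z j c) i) c, z, f (update z j c) i, ?_, ?_⟩
  · have e1 : xor (f (update z j c) i) (xor (f (update z j c) i) c) = c := by
      rw [← Bool.xor_assoc, Bool.xor_self, Bool.false_xor]
    rw [e1, ← hz, update_eq_self]
    exact fun e => h e.symm
  · have e1 : xor (f (update z j c) i) (xor (f (update z j c) i) c) = c := by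
      rw [← Bool.xor_assoc, Bool.xor_self, Bool.false_xor]
    rw [e1]
    rfl

theorem Up.eq_of_eqOn (f : (V → Bool) → (V → Bool)) (X : Finset V) (hX : Up f X)
    (x y : V → Bool) (h : ∀ j ∈ X, x j = y j) (i : V) (hi : i ∈ X) : f x i = f y i := by
  have key : ∀ T : Finset V, Disjoint T X → f (ow x y T) i = f x i := by
    intro T
    induction T using Finset.induction_on with
    | empty =>
      intro _
      have : ow x y ∅ = x := by funext v; simp [ow]
      rw [this]
    | @insert j T hj ih =>
      intro hd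
      rw [Finset.disjoint_insert_left] at hd
      have e1 : ow x y (insert j T) = update (ow x y T) j (y j) := by
        funext v
        by_cases hv : v = j
        · subst hv; simp [ow]
        · simp [ow, hv]
      rw [e1, ← ih hd.2]
      by_contra hne
      obtain ⟨ν, hν⟩ := T3_arc f (ow x y T) i j (y j) hne
      exact hd.1 (hX i hi j ν hν)
  have e2 : ow x y (Finset.univ \ X) = y := by
    funext v
    by_cases hv : v ∈ X
    · simp [ow, hv, h v hv]
    · simp [ow, hv]
  have h3 := key (Finset.univ \ X) Finset.sdiff_disjoint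
  rw [e2] at h3
  exact h3.symm

/-! ### T4: mimic a run on an `Up` set -/
theorem mimic (f : (V → Bool) → (V → Bool)) (XS : Finset V) (hX : Up f XS) (K : Finset V)
    (x y x' : V → Bool) (hxy : Rch (net f) K ∅ x y) (h : ∀ j ∈ XS, x j = x' j) :
    ∃ y', Rch (net f) (K ∩ XS) ∅ x' y' ∧ ∀ j ∈ XS, y j = y' j := by
  induction hxy with
  | refl => exact ⟨x', Relation.ReflTransGen.refl, h⟩
  | @tail y1 y2 _ hmv ih =>
    obtain ⟨y1', h1, h2⟩ := ih
    rcases hmv with ⟨i, hiK, b, hb, rfl⟩ | ⟨i, hi, -⟩
    · by_cases hi : i ∈ XS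
      · refine ⟨update y1' i b, h1.tail (Or.inl ⟨i, Finset.mem_inter.2 ⟨hiK, hi⟩, b, ?_, rfl⟩),
          fun j hj => ?_⟩
        · have hb' : f y1 i = b := hb
          change f y1' i = b
          rw [← hb']
          exact (Up.eq_of_eqOn f XS hX y1 y1' h2 i hi).symm
        · by_cases hji : j = i
          · subst hji; simp
          · simp [hji, h2 j hj]
      · refine ⟨y1', h1, fun j hj => ?_⟩
        have hji : j ≠ i := fun e => hi (e ▸ hj)
        rw [update_of_ne hji]
        exact h2 j hj
    · exact absurd hi (Finset.notMem_empty i)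


/-! ### T5: coherent set from two stable ends -/

theorem T5_switch {D : Finset V} {P : Finset V → Prop} (h0 : ¬ P ∅) (h1 : P D) :
    ∃ T : Finset V, ∃ j ∈ D, j ∉ T ∧ ¬ P T ∧ P (insert j T) := by
  induction D using Finset.induction_on with
  | empty => exact absurd h1 h0
  | insert j D' hj ih =>
    by_cases h2 : P D'
    · obtain ⟨T, k, hk, h3⟩ := ih h2
      exact ⟨T, k, Finset.mem_insert_of_mem hk, h3⟩
    · exact ⟨D', j, Finset.mem_insert_self _ _, hj, h2, h1⟩

theorem coh_of_stable (f : (V → Bool) → (V → Bool)) (X S N : Finset V)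
    (hXS : Up f (X ∪ S)) (hN : N ⊆ S) (p q : V → Bool)
    (hpqX : ∀ j ∈ X, p j = q j) (hpqS : ∀ j ∈ S, j ∉ N → p j = q j)
    (hne : ∃ i ∈ N, p i ≠ q i)
    (hp : ∀ i ∈ N, p i ≠ q i → f p i = p i) (hq : ∀ i ∈ N, p i ≠ q i → f q i = q i) :
    ∃ D ⊆ N, CohSet f D := by
  classical
  refine ⟨N.filter fun i => p i ≠ q i, Finset.filter_subset _ _, ?_, q, ?_⟩
  · obtain ⟨i, hi, hi'⟩ := hne
    exact ⟨i, Finset.mem_filter.2 ⟨hi, hi'⟩⟩
  · intro i hi
    obtain ⟨hiN, hipq⟩ := Finset.mem_filter.1 hi
    have h0 : ¬ f (ow p q ∅) i = q i := by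
      have : ow p q ∅ = p := by
        funext v
        simp [ow]
      rw [this, hp i hiN hipq]
      exact hipq
    have h1 : f (ow p q (N.filter fun i => p i ≠ q i)) i = q i := by
      rw [Up.eq_of_eqOn f (X ∪ S) hXS _ q ?_ i (Finset.mem_union_right _ (hN hiN))]
      · exact hq i hiN hipq
      · intro j hj
        simp only [ow]
        split_ifs with hjD
        · rfl
        · rcases Finset.mem_union.1 hj with hjX | hjS
          · exact hpqX j hjX
          · by_cases hjN : j ∈ N
            · by_contra hcon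
              exact hjD (Finset.mem_filter.2 ⟨hjN, hcon⟩)
            · exact hpqS j hjS hjN
    obtain ⟨T, j, hj, hjT, h2, h3⟩ := T5_switch (P := fun T => f (ow p q T) i = q i) h0 h1
    have hjpq := (Finset.mem_filter.1 hj).2
    have e1 : xor (q i) (xor (q i) (q j)) = q j := by
      cases q i <;> cases q j <;> rfl
    refine ⟨j, hj, ow p q T, q i, ?_, ?_⟩
    · rw [e1]
      have e2 : update (ow p q T) j (!(q j)) = ow p q T := by
        funext v
        by_cases hv : v = j
        · subst hv
          rw [update_self]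
          simp only [ow, hjT, if_false]
          cases hp' : p v <;> cases hq' : q v <;> simp_all
        · rw [update_of_ne hv]
      simp only [net, e2]
      exact h2
    · rw [e1]
      have e3 : update (ow p q T) j (q j) = ow p q (insert j T) := by
        funext v
        by_cases hv : v = j
        · subst hv
          rw [update_self]
          simp [ow]
        · rw [update_of_ne hv]
          simp [ow, hv]
      simp only [net, e3]
      exact h3


/- SNIPPET for T6 (paste in place of the stub; uses Rch.mono, Rch.frozen, mimic, coh_of_stable) -/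
omit [Fintype V] in
theorem T6_flip_card {S : Finset V} {p q : V → Bool} {i : V} (hi : i ∈ S) (hpq : p i ≠ q i)
    {b : Bool} (hb : b ≠ p i) :
    (S.filter (fun k => update p i b k ≠ q k)).card < (S.filter (fun k => p k ≠ q k)).card := by
  have hbq : b = q i := by
    cases b <;> cases h1 : p i <;> cases h2 : q i <;> simp_all
  refine Finset.card_lt_card ⟨?_, ?_⟩
  · intro k hk
    obtain ⟨hk1, hk2⟩ := Finset.mem_filter.1 hk
    refine Finset.mem_filter.2 ⟨hk1, ?_⟩
    by_cases hki : k = i
    · subst hki; exact hpq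
    · rwa [update_of_ne hki] at hk2
  · intro hsub
    have h := hsub (Finset.mem_filter.2 ⟨hi, hpq⟩)
    have h2 := (Finset.mem_filter.1 h).2
    rw [update_self] at h2
    exact h2 hbq

theorem T6_core (f : (V → Bool) → (V → Bool))
    (X S W' : Finset V) (hXSd : Disjoint X S) (hXS : Up f (X ∪ S))
    (hcyc : ∀ D ⊆ S \ W', ¬ CohSet f D)
    (x' b1 : V → Bool) (hW : ∀ j ∈ W', x' j = b1 j) :
    ∀ (m : ℕ) (p q : V → Bool), Rch (net f) (Finset.univ \ W') ∅ x' p →
      Rch (net f) (Finset.univ \ W') ∅ b1 q → (∀ j ∈ X, p j = q j) →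
      ((S \ W').filter (fun k => p k ≠ q k)).card = m →
      ∃ y' b2, Rch (net f) (Finset.univ \ W') ∅ x' y' ∧
        Rch (net f) (Finset.univ \ W') ∅ b1 b2 ∧ (∀ j ∈ X, y' j = b2 j) ∧
        ∀ j ∈ S \ W', y' j = b2 j := by
  intro m
  induction m using Nat.strong_induction_on with
  | _ m ih =>
    intro p q hp hq hX hm
    by_cases hne : ∃ i ∈ S \ W', p i ≠ q i
    · by_cases hps : ∀ i ∈ S \ W', p i ≠ q i → f p i = p i
      · by_cases hqs : ∀ i ∈ S \ W', p i ≠ q i → f q i = q i
        · exfalso
          obtain ⟨D, hD, hcoh⟩ := coh_of_stable f X S (S \ W') hXS Finset.sdiff_subset p q hX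
            (by
              intro j hj hj2
              have hjW : j ∈ W' := by
                by_contra hjW
                exact hj2 (Finset.mem_sdiff.2 ⟨hj, hjW⟩)
              rw [Rch.frozen hp j (by simp [hjW]) (by simp),
                Rch.frozen hq j (by simp [hjW]) (by simp)]
              exact hW j hjW) hne hps hqs
          exact hcyc D hD hcoh
        · push Not at hqs
          obtain ⟨i, hi, hpq, hfi⟩ := hqs
          obtain ⟨hiS, hiW⟩ := Finset.mem_sdiff.1 hi
          have hq' : Rch (net f) (Finset.univ \ W') ∅ b1 (update q i (f q i)) :=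
            hq.tail (Or.inl ⟨i, by simp [hiW], f q i, rfl, rfl⟩)
          have hlt := T6_flip_card (S := S \ W') (p := q) (q := p) hi (Ne.symm hpq) hfi
          have hs1 : ∀ (a b : V → Bool), (S \ W').filter (fun k => a k ≠ b k) =
              (S \ W').filter (fun k => b k ≠ a k) := by
            intro a b
            exact Finset.filter_congr (fun k _ => ⟨Ne.symm, Ne.symm⟩)
          refine ih _ ?_ p (update q i (f q i)) hp hq' ?_ rfl
          · rw [hs1 p, ← hm, hs1 p]
            exact hlt
          · intro j hj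
            have hji : j ≠ i := by
              rintro rfl
              exact (Finset.disjoint_left.1 hXSd hj) hiS
            rw [update_of_ne hji]
            exact hX j hj
      · push Not at hps
        obtain ⟨i, hi, hpq, hfi⟩ := hps
        obtain ⟨hiS, hiW⟩ := Finset.mem_sdiff.1 hi
        have hp' : Rch (net f) (Finset.univ \ W') ∅ x' (update p i (f p i)) :=
          hp.tail (Or.inl ⟨i, by simp [hiW], f p i, rfl, rfl⟩)
        have hlt := T6_flip_card (S := S \ W') (p := p) (q := q) hi hpq hfi
        refine ih _ ?_ (update p i (f p i)) q hp' hq ?_ rfl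
        · rw [← hm]
          exact hlt
        · intro j hj
          have hji : j ≠ i := by
            rintro rfl
            exact (Finset.disjoint_left.1 hXSd hj) hiS
          rw [update_of_ne hji]
          exact hX j hj
    · push Not at hne
      exact ⟨p, q, hp, hq, hX, hne⟩

/-! ### T6: claim U (unique attractor of the free part) -/
theorem claimU (f : (V → Bool) → (V → Bool)) (B : Set (V → Bool)) (hB : Attr f B)
    (X S W' : Finset V) (hXSd : Disjoint X S) (hX : Up f X) (hXS : Up f (X ∪ S)) (hW' : W' ⊆ S)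
    (hcyc : ∀ D ⊆ S \ W', ¬ CohSet f D)
    (x' b1 : V → Bool) (hb1 : b1 ∈ B) (hx'X : ∃ b' ∈ B, ∀ j ∈ X, b' j = x' j)
    (hW : ∀ j ∈ W', x' j = b1 j) :
    ∃ y' b2, Rch (net f) (Finset.univ \ W') ∅ x' y' ∧ b2 ∈ B ∧
      (∀ j ∈ W', b2 j = b1 j) ∧ (∀ j ∈ X ∪ S, y' j = b2 j) := by
  obtain ⟨b', hb', hbX⟩ := hx'X
  obtain ⟨x'', hx'', hxX⟩ := mimic f X hX Finset.univ b' b1 x' (hB.conn b' hb' b1 hb1) hbX
  have hx3 : Rch (net f) (Finset.univ \ W') ∅ x' x'' := by
    refine Rch.mono ?_ (Finset.Subset.refl _) hx''
    intro j hj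
    have hjX : j ∈ X := (Finset.mem_inter.1 hj).2
    have hjW : j ∉ W' := fun h => (Finset.disjoint_left.1 hXSd hjX) (hW' h)
    simp [hjW]
  obtain ⟨y', b2, h1, h2, h3, h4⟩ := T6_core f X S W' hXSd hXS hcyc x' b1 hW _ x'' b1 hx3
    Relation.ReflTransGen.refl (fun j hj => (hxX j hj).symm) rfl
  have hbW : ∀ j ∈ W', b2 j = b1 j := fun j hj => Rch.frozen h2 j (by simp [hj]) (by simp)
  refine ⟨y', b2, h1, ?_, hbW, ?_⟩
  · exact hB.closed b1 hb1 b2 (Rch.mono (by intro j hj; simp) (Finset.Subset.refl _) h2)
  · intro j hj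
    rcases Finset.mem_union.1 hj with hj | hj
    · exact h3 j hj
    · by_cases hjW : j ∈ W'
      · rw [hbW j hjW, Rch.frozen h1 j (by simp [hjW]) (by simp)]
        exact hW j hjW
      · exact h4 j (Finset.mem_sdiff.2 ⟨hj, hjW⟩)






/-! ### T7 (helper71): freezing lemma (from T2) -/
theorem freeze (f : (V → Bool) → (V → Bool)) (s : V → Bool) (W' K : Finset V)
    (hs : SignOK f s W')
    (hK : K ⊆ W') (t : Bool) (w : V) (hw : w ∈ K)
    (x z : V → Bool) (hxz : Rch (net f) (Finset.univ \ W') (W' \ K) x z)
    (hz : f z w = xor t (s w)) (hx : ∀ e ∈ W' \ K, xor (x e) (s e) = t) :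
    ∃ z', Rch (net f) (Finset.univ \ W') ∅ x z' ∧ f z' w = xor t (s w) := by
  obtain ⟨z', h1, h2⟩ := RTm (net f) (Finset.univ \ W') (W' \ K)
    (Finset.disjoint_left.2 fun a ha hb => (Finset.mem_sdiff.1 ha).2 (Finset.mem_sdiff.1 hb).1)
    w (fun h => (Finset.mem_sdiff.1 h).2 (hK hw)) (fun h => (Finset.mem_sdiff.1 h).2 hw)
    (xor t (s w)) (fun e => xor (s e) (s w))
    (fun e he ν hν => hs e (Finset.mem_sdiff.1 he).1 w (hK hw)
      (fun h => (Finset.mem_sdiff.1 he).2 (h ▸ hw)) ν hν) x z hxz hz
  have h3 : ow x (fun e => xor (xor t (s w)) (xor (s e) (s w))) (W' \ K) = x := by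
    funext e
    unfold ow
    split_ifs with he
    · have h4 := hx e he
      show xor (xor t (s w)) (xor (s e) (s w)) = x e
      revert h4
      generalize x e = p
      generalize s e = q
      generalize s w = r
      cases p <;> cases q <;> cases r <;> cases t <;> decide
    · rfl
  rw [h3] at h1
  exact ⟨z', h1, h2⟩







/-! ### T8 (helper71): extreme elements -/
theorem extreme (f : (V → Bool) → (V → Bool)) (s : V → Bool) (W' : Finset V)
    (hs : SignOK f s W')
    (A : Set (V → Bool)) (hA : Attr f A) (t : Bool) :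
    ∃ a ∈ A, ∀ w ∈ W', xor (a w) (s w) = !t → ∀ y ∈ A, xor (y w) (s w) = !t := by
  classical
  set Kf : (V → Bool) → Finset V := fun a => W'.filter (fun w => xor (a w) (s w) = !t) with hKf
  obtain ⟨a, haA, hmin⟩ : ∃ a ∈ A, ∀ y ∈ A, (Kf a).card ≤ (Kf y).card := by
    obtain ⟨a, haA, ha⟩ := WellFounded.has_min (measure fun a => (Kf a).card).wf A hA.ne
    exact ⟨a, haA, fun y hy => not_lt.1 (ha y hy)⟩
  refine ⟨a, haA, ?_⟩
  intro w0 hw0 hw0K y hy
  by_contra hcon
  have hKW : Kf a ⊆ W' := Finset.filter_subset _ _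
  have hw0' : w0 ∈ Kf a := Finset.mem_filter.2 ⟨hw0, hw0K⟩
  rcases first_exit f (Kf a) a y (hA.conn a haA y hy) with h | ⟨z, w, hwK, hz, hzw⟩
  · apply hcon
    rw [Rch.frozen h w0 (fun h' => (Finset.mem_sdiff.1 h').2 hw0') (Finset.notMem_empty _)]
    exact hw0K
  · have hwW : w ∈ W' := hKW hwK
    have haw : xor (a w) (s w) = !t := (Finset.mem_filter.1 hwK).2
    have hfz : f z w = xor t (s w) := by
      revert haw hzw
      generalize f z w = p
      generalize a w = q
      generalize s w = r
      cases p <;> cases q <;> cases r <;> cases t <;> decide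
    have hz2 : Rch (net f) (Finset.univ \ W') (W' \ Kf a) a z := by
      refine Rch.mono ?_ (Finset.empty_subset _) hz
      intro v hv
      by_cases hvW : v ∈ W'
      · exact Finset.mem_union_right _
          (Finset.mem_sdiff.2 ⟨hvW, (Finset.mem_sdiff.1 hv).2⟩)
      · exact Finset.mem_union_left _ (Finset.mem_sdiff.2 ⟨Finset.mem_univ _, hvW⟩)
    obtain ⟨z', hz', hfz'⟩ := freeze f s W' (Kf a) hs hKW t w hwK a z hz2 hfz (by
      intro e he
      have h1 := (Finset.mem_sdiff.1 he)
      by_contra h2
      apply h1.2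
      refine Finset.mem_filter.2 ⟨h1.1, ?_⟩
      revert h2
      generalize a e = p
      generalize s e = q
      cases p <;> cases q <;> cases t <;> decide)
    have hz'r : Rch (net f) Finset.univ ∅ a z' :=
      Rch.mono (fun v _ => Finset.mem_union_left _ (Finset.mem_univ v))
        (Finset.empty_subset _) hz'
    have hz'A : update z' w (xor t (s w)) ∈ A := by
      refine hA.closed a haA _ (Relation.ReflTransGen.tail hz'r ?_)
      exact Or.inl ⟨w, Finset.mem_univ _, xor t (s w), hfz', rfl⟩
    have hfr : ∀ v ∈ W', z' v = a v := fun v hv =>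
      Rch.frozen hz' v (fun h' => (Finset.mem_sdiff.1 h').2 hv) (Finset.notMem_empty _)
    have hlt : (Kf (update z' w (xor t (s w)))).card < (Kf a).card := by
      refine Finset.card_lt_card ?_
      rw [Finset.ssubset_iff_of_subset]
      · refine ⟨w, hwK, ?_⟩
        intro h
        have h2 := (Finset.mem_filter.1 h).2
        rw [update_self] at h2
        revert h2
        generalize s w = p
        cases p <;> cases t <;> decide
      · intro v hv
        have h2 := Finset.mem_filter.1 hv
        by_cases hvw : v = w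
        · rw [hvw]; exact hwK
        · refine Finset.mem_filter.2 ⟨h2.1, ?_⟩
          have h3 := h2.2
          rw [update_of_ne hvw, hfr v h2.1] at h3
          exact h3
    exact absurd (hmin _ hz'A) (not_le.2 hlt)







theorem T9_closed (f : (V → Bool) → (V → Bool)) (A : Set (V → Bool)) (hA : Attr f A)
    (K : Finset V) (x y : V → Bool) (hx : x ∈ A) (h : Rch (net f) K ∅ x y) : y ∈ A :=
  hA.closed x hx y (h.mono (by intro i _; simp) (by simp))

theorem T9_X (f : (V → Bool) → (V → Bool)) (A B : Set (V → Bool)) (hA : Attr f A)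
    (hB : Attr f B) (X : Finset V) (hX : Up f X)
    (hag : ∃ x ∈ A, ∃ y ∈ B, ∀ j ∈ X, x j = y j) (a : V → Bool) (ha : a ∈ A) :
    ∃ b' ∈ B, ∀ j ∈ X, b' j = a j := by
  obtain ⟨x, hx, y, hy, hxy⟩ := hag
  obtain ⟨y', h1, h2⟩ := mimic f X hX Finset.univ x a y (hA.conn x hx a ha) hxy
  exact ⟨y', T9_closed f B hB _ y y' hy h1, fun j hj => (h2 j hj).symm⟩

theorem T9_sub (f : (V → Bool) → (V → Bool)) (A B : Set (V → Bool)) (hA : Attr f A)
    (hB : Attr f B) (X S W' : Finset V) (hXSd : Disjoint X S) (hX : Up f X) (hXS : Up f (X ∪ S))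
    (hW' : W' ⊆ S) (s : V → Bool) (hs : SignOK f s W')
    (hcyc : ∀ D ⊆ S \ W', ¬ CohSet f D)
    (hhull : ∀ v : V, ∃ x ∈ A, ∃ y ∈ B, x v = y v)
    (hag : ∃ x ∈ A, ∃ y ∈ B, ∀ j ∈ X, x j = y j)
    (a0 : V → Bool) (ha0 : a0 ∈ A)
    (hext : ∀ w ∈ W', xor (a0 w) (s w) = true → ∀ y ∈ A, xor (y w) (s w) = true)
    (b0 : V → Bool) (hb0 : b0 ∈ B) :
    ∀ w ∈ W', xor (a0 w) (s w) = true → xor (b0 w) (s w) = true := by
  intro w hwW hw
  by_contra hlow
  obtain ⟨b1, hb1, hb1ext⟩ := extreme f s W' hs B hB true
  -- `α`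
  obtain ⟨α, hα⟩ : ∃ α : Finset V, α = W'.filter fun w => xor (a0 w) (s w) = true := ⟨_, rfl⟩
  have hαW : α ⊆ W' := by rw [hα]; exact Finset.filter_subset _ _
  have hαhigh : ∀ v ∈ α, xor (a0 v) (s v) = true := by
    intro v hv
    rw [hα] at hv
    exact (Finset.mem_filter.1 hv).2
  have hαnot : ∀ e ∈ W' \ α, xor (a0 e) (s e) = false := by
    intro e he
    rw [Finset.mem_sdiff] at he
    by_contra h
    apply he.2
    rw [hα]
    exact Finset.mem_filter.2 ⟨he.1, by simpa using h⟩
  have hwα : w ∈ α := by rw [hα]; exact Finset.mem_filter.2 ⟨hwW, hw⟩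
  -- `b1` is high on `α`
  have hb1high : ∀ v ∈ α, xor (b1 v) (s v) = true := by
    intro v hv
    by_contra h
    have h' : xor (b1 v) (s v) = !true := by simpa using h
    obtain ⟨x, hx, y, hy, hxy⟩ := hhull v
    have h1 := hext v (hαW hv) (hαhigh v hv) x hx
    have h2 := hb1ext v (hαW hv) h' y hy
    rw [hxy] at h1
    rw [h1] at h2
    simp at h2
  have hab : ∀ v ∈ α, a0 v = b1 v := by
    intro v hv
    have h1 := hαhigh v hv
    have h2 := hb1high v hv
    rw [← h2] at h1
    exact Bool.xor_right_inj.1 (by rw [Bool.xor_comm (s v), Bool.xor_comm (s v)]; exact h1)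
  -- the start
  have hx'1 : ∀ j ∈ X, ow a0 b1 W' j = a0 j := by
    intro j hj
    have : j ∉ W' := fun h => (Finset.disjoint_left.1 hXSd hj) (hW' h)
    simp [ow, this]
  have hx'W : ∀ j ∈ W', ow a0 b1 W' j = b1 j := by
    intro j hj
    simp [ow, hj]
  have hx'eq : ow a0 b1 W' = ow a0 b1 (W' \ α) := by
    funext v
    by_cases h1 : v ∈ W'
    · by_cases h2 : v ∈ α
      · simp [ow, h1, h2, hab v h2]
      · simp [ow, h1, h2]
    · simp [ow, h1]
  obtain ⟨b', hb', hb'X⟩ := T9_X f A B hA hB X hX hag a0 ha0
  obtain ⟨y', b2, hy', hb2, hb2W, hy'b2⟩ := claimU f B hB X S W' hXSd hX hXS hW' hcyc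
    (ow a0 b1 W') b1 hb1 ⟨b', hb', fun j hj => (hb'X j hj).trans (hx'1 j hj).symm⟩ hx'W
  rcases first_exit f α b2 b0 (hB.conn b2 hb2 b0 hb0) with h | ⟨z, w'', hw'', hz, hzw⟩
  · have h1 : b0 w = b2 w := h.frozen w (by simp [hwα]) (by simp)
    rw [h1, hb2W w hwW] at hlow
    exact hlow (hb1high w hwα)
  · obtain ⟨y'', hy'', hzy⟩ := mimic f (X ∪ S) hXS (Finset.univ \ α) b2 z y' hz
      (fun j hj => (hy'b2 j hj).symm)
    have hw''XS : w'' ∈ X ∪ S := Finset.mem_union_right _ (hW' (hαW hw''))
    have h3 : f z w'' = f y'' w'' := Up.eq_of_eqOn f (X ∪ S) hXS z y'' hzy w'' hw''XS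
    have h4 : f y'' w'' = xor false (s w'') := by
      rw [← h3]
      have h5 := hb1high w'' hw''
      rw [hb2W w'' (hαW hw'')] at hzw
      revert h5 hzw
      cases f z w'' <;> cases b1 w'' <;> cases s w'' <;> simp
    have h6 : Rch (net f) (Finset.univ \ W') (W' \ α) a0 y'' := by
      have h7 : Rch (net f) (Finset.univ \ W') (W' \ α) a0 (ow a0 b1 W') := by
        rw [hx'eq]
        exact Rch.overwrite (net f) (Finset.univ \ W') (W' \ α) a0 b1
      refine h7.trans ((hy'.mono ?_ (by simp)).trans (hy''.mono ?_ (by simp)))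
      · exact Finset.subset_union_left
      · intro v hv
        simp only [Finset.mem_inter, Finset.mem_sdiff, Finset.mem_univ, true_and,
          Finset.mem_union] at hv ⊢
        tauto
    obtain ⟨z', hz', hz'w⟩ := freeze f s W' α hs hαW false w'' hw'' a0 y'' h6 h4 hαnot
    have hz'A : z' ∈ A := T9_closed f A hA _ a0 z' ha0 hz'
    have hupd : update z' w'' (f z' w'') ∈ A := by
      refine T9_closed f A hA Finset.univ z' _ hz'A (Relation.ReflTransGen.single ?_)
      exact Or.inl ⟨w'', Finset.mem_univ _, f z' w'', rfl, rfl⟩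
    have h8 := hext w'' (hαW hw'') (hαhigh w'' hw'') _ hupd
    rw [update_self, hz'w] at h8
    simp at h8

theorem step_agree (f : (V → Bool) → (V → Bool)) (A B : Set (V → Bool)) (hA : Attr f A)
    (hB : Attr f B) (X S W' : Finset V) (hXSd : Disjoint X S) (hX : Up f X) (hXS : Up f (X ∪ S))
    (hW' : W' ⊆ S) (s : V → Bool) (hs : SignOK f s W')
    (hcyc : ∀ D ⊆ S \ W', ¬ CohSet f D)
    (hhull : ∀ v : V, ∃ x ∈ A, ∃ y ∈ B, x v = y v)
    (hag : ∃ x ∈ A, ∃ y ∈ B, ∀ j ∈ X, x j = y j) :
    ∃ x ∈ A, ∃ y ∈ B, ∀ j ∈ X ∪ S, x j = y j := by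
  obtain ⟨a0, ha0, ha0ext⟩ := extreme f s W' hs A hA false
  obtain ⟨b0, hb0, hb0ext⟩ := extreme f s W' hs B hB false
  have hhull' : ∀ v : V, ∃ x ∈ B, ∃ y ∈ A, x v = y v := by
    intro v
    obtain ⟨x, hx, y, hy, h⟩ := hhull v
    exact ⟨y, hy, x, hx, h.symm⟩
  have hag' : ∃ x ∈ B, ∃ y ∈ A, ∀ j ∈ X, x j = y j := by
    obtain ⟨x, hx, y, hy, h⟩ := hag
    exact ⟨y, hy, x, hx, fun j hj => (h j hj).symm⟩
  have h1 := T9_sub f A B hA hB X S W' hXSd hX hXS hW' s hs hcyc hhull hag a0 ha0
    (fun w hw h => ha0ext w hw (by simpa using h)) b0 hb0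
  have h2 := T9_sub f B A hB hA X S W' hXSd hX hXS hW' s hs hcyc hhull' hag' b0 hb0
    (fun w hw h => hb0ext w hw (by simpa using h)) a0 ha0
  have hW : ∀ j ∈ W', a0 j = b0 j := by
    intro j hj
    have h3 := h1 j hj
    have h4 := h2 j hj
    revert h3 h4
    cases a0 j <;> cases b0 j <;> cases s j <;> simp
  obtain ⟨b', hb', hb'X⟩ := T9_X f A B hA hB X hX hag a0 ha0
  obtain ⟨y', b2, hy', hb2, -, hy'b2⟩ := claimU f B hB X S W' hXSd hX hXS hW' hcyc
    a0 b0 hb0 ⟨b', hb', hb'X⟩ hW
  exact ⟨y', T9_closed f A hA _ a0 y' ha0 hy', b2, hb2, hy'b2⟩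







theorem T10_goes_of_spath (f : (V → Bool) → (V → Bool)) {M : Finset V} {ν : Bool} {u w : V}
    (h : SPath (net f) M ν u w) : Goes f u w := by
  induction h with
  | arc h => exact Relation.ReflTransGen.single ⟨_, h⟩
  | cons h _ _ ih => exact Relation.ReflTransGen.head ⟨_, h⟩ ih

theorem T10_spath_shrink (f : (V → Bool) → (V → Bool)) (X : Finset V) (hX : Up f X)
    (S : Finset V) (v : V) (hS : ∀ u, u ∉ X → Goes f u v → u ∈ S) {M : Finset V} {ν : Bool}
    {u w : V} (h : SPath (net f) M ν u w) :
    u ∉ X → Goes f w v → ∀ M' : Finset V, (∀ a ∈ M, a ∈ S → a ∈ M') →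
      SPath (net f) M' ν u w := by
  induction h with
  | arc h => intro _ _ M' _; exact SPath.arc h
  | @cons M ν ν' u a w h ha hp ih =>
    intro hu hw M' hM
    have haX : a ∉ X := fun haX => hu (hX a haX u _ h)
    have haS : a ∈ S := hS a haX ((T10_goes_of_spath f hp).trans hw)
    refine SPath.cons h (hM a ha haS) (ih haX hw _ ?_)
    intro b hb hbS
    rw [Finset.mem_erase] at hb ⊢
    exact ⟨hb.1, hM b hb.2 hbS⟩

theorem P1 (f : (V → Bool) → (V → Bool)) (W : Finset V) (s : V → Bool)
    (hcyc : ∀ D : Finset V, Disjoint D W → ¬ CohSet f D)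
    (hs : ∀ e ∈ W, ∀ w ∈ W, e ≠ w → Goes f w e →
      ∀ ν, SPath (net f) (Finset.univ \ W) ν e w → ν = xor (s e) (s w))
    (A B : Set (V → Bool)) (hA : Attr f A) (hB : Attr f B)
    (hhull : ∀ v : V, ∃ x ∈ A, ∃ y ∈ B, x v = y v) : A = B := by
  classical
  -- a maximal `Up` set on which the attractors agree
  obtain ⟨X, hXmem, hXmax⟩ := Finset.exists_max_image
    ((Finset.univ : Finset V).powerset.filter (fun X => Up f X ∧ ∃ x ∈ A, ∃ y ∈ B, ∀ j ∈ X, x j = y j))
    Finset.card (by
      refine ⟨∅, ?_⟩
      rw [Finset.mem_filter]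
      refine ⟨by simp, ?_, ?_⟩
      · intro i hi; simp at hi
      · obtain ⟨x, hx⟩ := hA.ne
        obtain ⟨y, hy⟩ := hB.ne
        exact ⟨x, hx, y, hy, by simp⟩)
  rw [Finset.mem_filter] at hXmem
  obtain ⟨-, hX, hag⟩ := hXmem
  by_cases hXu : X = Finset.univ
  · obtain ⟨x, hxA, y, hyB, hxy⟩ := hag
    have hxy' : x = y := funext fun j => hxy j (by rw [hXu]; exact Finset.mem_univ j)
    subst hxy'
    apply Set.Subset.antisymm
    · intro z hz
      exact hB.closed x hyB z (hA.conn x hxA z hz)
    · intro z hz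
      exact hA.closed x hxA z (hB.conn x hyB z hz)
  · exfalso
    -- choose `v`
    let T : V → Finset V := fun v => Finset.univ.filter (fun u => u ∉ X ∧ Goes f u v)
    have hne : (Finset.univ.filter (fun v => v ∉ X)).Nonempty := by
      by_contra hcon
      rw [Finset.not_nonempty_iff_eq_empty] at hcon
      apply hXu
      ext j
      simp only [Finset.mem_univ, iff_true]
      by_contra hj
      have : j ∈ Finset.univ.filter (fun v => v ∉ X) := by simp [hj]
      rw [hcon] at this
      simp at this
    obtain ⟨v, hv, hvmin⟩ := Finset.exists_min_image (Finset.univ.filter (fun v => v ∉ X))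
      (fun v => (T v).card) hne
    rw [Finset.mem_filter] at hv
    have hvX : v ∉ X := hv.2
    have memT : ∀ u w, u ∈ T w ↔ (u ∉ X ∧ Goes f u w) := by
      intro u w; simp [T]
    have hback : ∀ u ∈ T v, Goes f v u := by
      intro u hu
      have hu' := (memT u v).1 hu
      have hsub : T u ⊆ T v := by
        intro a ha
        have ha' := (memT a u).1 ha
        exact (memT a v).2 ⟨ha'.1, ha'.2.trans hu'.2⟩
      have hle : (T v).card ≤ (T u).card := hvmin u (by
        rw [Finset.mem_filter]; exact ⟨Finset.mem_univ _, hu'.1⟩)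
      have heq : T u = T v := Finset.eq_of_subset_of_card_le hsub hle
      have : v ∈ T u := by
        rw [heq]
        exact (memT v v).2 ⟨hvX, Relation.ReflTransGen.refl⟩
      exact ((memT v u).1 this).2
    have hXS : Up f (X ∪ T v) := by
      intro i hi j ν hij
      rw [Finset.mem_union] at hi ⊢
      rcases hi with hi | hi
      · exact Or.inl (hX i hi j ν hij)
      · by_cases hj : j ∈ X
        · exact Or.inl hj
        · right
          exact (memT j v).2 ⟨hj, Relation.ReflTransGen.head ⟨ν, hij⟩ ((memT i v).1 hi).2⟩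
    have hdisj : Disjoint X (T v) := by
      rw [Finset.disjoint_left]
      intro a ha ha'
      exact ((memT a v).1 ha').1 ha
    have hs' : SignOK f s (W ∩ T v) := by
      intro e he w hw hew ν hp
      rw [Finset.mem_inter] at he hw
      have he' := (memT e v).1 he.2
      have hw' := (memT w v).1 hw.2
      apply hs e he.1 w hw.1 hew (hw'.2.trans (hback e he.2))
      apply T10_spath_shrink f X hX (T v) v (fun u hu hg => (memT u v).2 ⟨hu, hg⟩) hp he'.1 hw'.2
      intro a ha haS
      rw [Finset.mem_sdiff] at ha ⊢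
      refine ⟨Finset.mem_univ _, fun haW => ha.2 ?_⟩
      rw [Finset.mem_inter]
      exact ⟨haW, haS⟩
    have hcyc' : ∀ D ⊆ T v \ (W ∩ T v), ¬ CohSet f D := by
      intro D hD
      apply hcyc D
      rw [Finset.disjoint_left]
      intro a ha haW
      have h1 := hD ha
      rw [Finset.mem_sdiff, Finset.mem_inter] at h1
      exact h1.2 ⟨haW, h1.1⟩
    have hres := step_agree f A B hA hB X (T v) (W ∩ T v) hdisj hX hXS Finset.inter_subset_right
      s hs' hcyc' hhull hag
    have hmax := hXmax (X ∪ T v) (by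
      rw [Finset.mem_filter]
      exact ⟨by simp, hXS, hres⟩)
    have hlt : X.card < (X ∪ T v).card := by
      apply Finset.card_lt_card
      rw [Finset.ssubset_iff_of_subset Finset.subset_union_left]
      refine ⟨v, ?_, hvX⟩
      rw [Finset.mem_union]
      exact Or.inr ((memT v v).2 ⟨hvX, Relation.ReflTransGen.refl⟩)
    omega




end Proofs

/-! ### T11: final statement for the problem's definitions -/

section Final
variable {n : ℕ}

open Function in
/-- If every element of the nonempty set `D` has an `R`-predecessor in `D`, then `D` contains an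
`R`-cycle with distinct vertices (helper23). -/
theorem T11_exists_cycle {V : Type} [Finite V] (D : Set V) (hne : D.Nonempty) (R : V → V → Prop)
    (h : ∀ i ∈ D, ∃ j ∈ D, R j i) :
    ∃ (m : ℕ) (v : Fin (m + 1) → V), Injective v ∧ (∀ k, v k ∈ D) ∧ ∀ k, R (v k) (v (k + 1)) := by
  classical
  choose! p hpD hpR using h
  obtain ⟨x0, hx0⟩ := hne
  have hit : ∀ t, p^[t] x0 ∈ D := by
    intro t
    induction t with
    | zero => exact hx0
    | succ t ih => rw [iterate_succ_apply']; exact hpD _ ih
  obtain ⟨a, b, hab, he⟩ := Finite.exists_ne_map_eq_of_infinite (fun t : ℕ => p^[t] x0)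
  wlog hlt : a < b generalizing a b
  · exact this b a hab.symm he.symm (lt_of_le_of_ne (not_lt.1 hlt) hab.symm)
  replace he : p^[a] x0 = p^[b] x0 := he
  set y := p^[a] x0 with hy
  have hyD : ∀ t, p^[t] y ∈ D := by
    intro t
    rw [hy, ← iterate_add_apply]
    exact hit _
  have hper : IsPeriodicPt p (b - a) y := by
    show p^[b - a] y = y
    rw [hy, ← iterate_add_apply, Nat.sub_add_cancel hlt.le, ← he]
  have hpos : 0 < minimalPeriod p y := hper.minimalPeriod_pos (by omega)
  obtain ⟨m, hm⟩ : ∃ m, minimalPeriod p y = m + 1 := ⟨minimalPeriod p y - 1, by omega⟩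
  refine ⟨m, fun k => p^[m - (k : ℕ)] y, ?_, fun k => hyD _, ?_⟩
  · intro k l hkl
    have h1 := iterate_injOn_Iio_minimalPeriod (f := p) (x := y)
      (show m - (k : ℕ) ∈ Set.Iio (minimalPeriod p y) by rw [Set.mem_Iio, hm]; omega)
      (show m - (l : ℕ) ∈ Set.Iio (minimalPeriod p y) by rw [Set.mem_Iio, hm]; omega) hkl
    apply Fin.ext
    have := k.2
    have := l.2
    omega
  · intro k
    have hk := k.2
    by_cases hkm : (k : ℕ) = m
    · have h1 : k + 1 = 0 := by
        have : k = Fin.last m := Fin.ext hkm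
        rw [this]
        exact Fin.last_add_one m
      show R (p^[m - (k : ℕ)] y) (p^[m - ((k + 1 : Fin (m + 1)) : ℕ)] y)
      rw [h1, hkm]
      simp only [Nat.sub_self, Fin.val_zero, Nat.sub_zero, iterate_zero, id_eq]
      have h2 : p (p^[m] y) = y := by
        have h4 : p^[m + 1] y = y := by
          rw [← hm]
          exact iterate_minimalPeriod
        rwa [iterate_succ_apply'] at h4
      have h3 := hpR _ (hyD m)
      rwa [h2] at h3
    · have h1 : ((k + 1 : Fin (m + 1)) : ℕ) = k + 1 := by
        rw [Fin.val_add_one_of_lt]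
        rw [Fin.lt_def]
        simp only [Fin.val_last]
        omega
      show R (p^[m - (k : ℕ)] y) (p^[m - ((k + 1 : Fin (m + 1)) : ℕ)] y)
      rw [h1]
      have h2 : m - (k : ℕ) = (m - (k + 1)) + 1 := by omega
      rw [h2, iterate_succ_apply']
      exact hpR _ (hyD _)

/-- The signs `s j * s i` of the arcs `j → i` multiply to one around a cycle (helper23). -/
theorem T11_prod_coherent {V : Type} {m : ℕ} (v : Fin (m + 1) → V) (s : V → ℤˣ) :
    ∏ k, (s (v k) * s (v (k + 1))) = 1 := by
  rw [Finset.prod_mul_distrib]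
  have h1 : ∏ k, s (v (k + 1)) = ∏ k, s (v k) :=
    Fintype.prod_equiv (Equiv.addRight (1 : Fin (m + 1))) _ _ (fun k => rfl)
  rw [h1, ← Finset.prod_mul_distrib]
  exact Finset.prod_eq_one fun k _ => Int.units_mul_self _

/-- an arc of sign `ν` of `net f` is an arc of the interaction graph -/
theorem T11_arc_pos {n : ℕ} (f : Conf n → Conf n) (j i : Fin n) (h : Arc (net f) false j i) :
    (interactionGraph f).pos j i := by
  obtain ⟨x, b, h1, h2⟩ := h
  simp only [net, Bool.xor_false] at h1 h2
  refine ⟨Function.update x j false, Function.update x j true, ?_, ?_, ?_⟩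
  · intro k hk
    rw [Function.update_of_ne hk, Function.update_of_ne hk]
  · rw [Function.update_self, Function.update_self]
    exact Bool.false_lt_true
  · cases b
    · simp only [Bool.not_false, Bool.not_eq_false] at h1
      rw [h1, h2]
      exact Bool.false_lt_true
    · simp only [Bool.not_true, Bool.not_eq_true] at h1
      rw [h1, h2]
      exact Bool.false_lt_true

theorem T11_arc_neg {n : ℕ} (f : Conf n → Conf n) (j i : Fin n) (h : Arc (net f) true j i) :
    (interactionGraph f).neg j i := by
  obtain ⟨x, b, h1, h2⟩ := h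
  simp only [net, Bool.xor_true] at h1 h2
  refine ⟨Function.update x j false, Function.update x j true, ?_, ?_, ?_⟩
  · intro k hk
    rw [Function.update_of_ne hk, Function.update_of_ne hk]
  · rw [Function.update_self, Function.update_self]
    exact Bool.false_lt_true
  · cases b
    · simp only [Bool.not_false, Bool.not_true, Bool.not_eq_false] at h1 h2
      rw [h1, h2]
      exact Bool.false_lt_true
    · simp only [Bool.not_false, Bool.not_true, Bool.not_eq_true] at h1 h2
      rw [h1, h2]
      exact Bool.false_lt_true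

/-- a coherent set gives a positive cycle inside it -/
theorem cycle_of_coh {n : ℕ} (f : Conf n → Conf n) (D : Finset (Fin n)) (h : CohSet f D) :
    ∃ C : SignedCycle (interactionGraph f), C.sign = 1 ∧ ∀ k, C.vert k ∈ D := by
  obtain ⟨hne, q, hq⟩ := h
  obtain ⟨m, v, hinj, hD, hR⟩ := T11_exists_cycle (D : Set (Fin n)) hne
    (fun j i => Arc (net f) (xor (q i) (q j)) j i)
    (fun i hi => by
      obtain ⟨j, hj, hA⟩ := hq i hi
      exact ⟨j, hj, hA⟩)
  refine ⟨⟨m, v, fun k => (if q (v k) then (-1 : ℤˣ) else 1) *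
    (if q (v (k + 1)) then (-1 : ℤˣ) else 1), hinj, ?_⟩, ?_, fun k => hD k⟩
  · intro k
    have hk := hR k
    cases h1 : q (v k) <;> cases h2 : q (v (k + 1)) <;> rw [h1, h2] at hk
    · left
      exact ⟨by simp, T11_arc_pos f _ _ hk⟩
    · right
      exact ⟨by simp, T11_arc_neg f _ _ hk⟩
    · right
      exact ⟨by simp, T11_arc_neg f _ _ hk⟩
    · left
      exact ⟨by simp, T11_arc_pos f _ _ hk⟩
  · exact T11_prod_coherent v (fun i => if q i then (-1 : ℤˣ) else 1)

/-- an update of `net f` is trivial or an asynchronous step -/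
theorem T12_step {n : ℕ} (f : Conf n → Conf n) (x y : Conf n) (i : Fin n) (b : Bool)
    (hb : f x i = b) (hy : y = Function.update x i b) : y = x ∨ AsyncStep f x y := by
  by_cases h : x i = f x i
  · left
    rw [hy, ← hb, ← h, Function.update_eq_self]
  · right
    refine ⟨i, h, ?_⟩
    have h1 : (!(x i)) = b := by
      rw [← hb]
      cases h2 : x i <;> cases h3 : f x i <;> simp_all
    rw [h1]
    exact hy

theorem attr_of_isAttractor {n : ℕ} (f : Conf n → Conf n) (A : Set (Conf n))
    (h : IsAttractor f A) : Attr f A := by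
  obtain ⟨hne, htrap, hmin⟩ := h
  have hclosed : ∀ x ∈ A, ∀ y, Rch (net f) Finset.univ ∅ x y → y ∈ A := by
    intro x hx y hxy
    induction hxy with
    | refl => exact hx
    | tail _ hstep ih =>
      rcases hstep with ⟨i, _, b, hb, hy⟩ | ⟨i, hi, _⟩
      · rcases T12_step f _ _ i b hb hy with h1 | h1
        · rw [h1]
          exact ih
        · exact htrap _ ih _ h1
      · exact absurd hi (Finset.notMem_empty i)
  refine ⟨hne, hclosed, ?_⟩
  intro x hx y hy
  have hY : {z | Rch (net f) Finset.univ ∅ x z} = A := by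
    apply hmin
    · intro z hz
      exact hclosed x hx z hz
    · exact ⟨x, Relation.ReflTransGen.refl⟩
    · intro z hz z' hzz'
      obtain ⟨i, hi, hz'⟩ := hzz'
      refine Relation.ReflTransGen.tail hz (Or.inl ⟨i, Finset.mem_univ i, f z i, rfl, ?_⟩)
      have h1 : (!(z i)) = f z i := by
        cases h2 : z i <;> cases h3 : f z i <;> simp_all
      rw [← h1]
      exact hz'
  rw [← hY] at hy
  exact hy

theorem common_of_hull {n : ℕ} (A B : Set (Conf n)) (hA : A.Nonempty) (hB : B.Nonempty)
    (h : (hull A ∩ hull B).Nonempty) (v : Fin n) : ∃ x ∈ A, ∃ y ∈ B, x v = y v := by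
  by_contra hcon
  push Not at hcon
  obtain ⟨x0, hx0⟩ := hA
  obtain ⟨y0, hy0⟩ := hB
  obtain ⟨z, hzA, hzB⟩ := h
  have h0 := hcon x0 hx0 y0 hy0
  have hAv : ∀ x ∈ A, x v = x0 v := by
    intro x hx
    have h1 := hcon x hx y0 hy0
    cases h2 : x v <;> cases h3 : x0 v <;> cases h4 : y0 v <;> simp_all
  have hBv : ∀ y ∈ B, y v = y0 v := by
    intro y hy
    have h1 := hcon x0 hx0 y hy
    cases h2 : y v <;> cases h3 : x0 v <;> cases h4 : y0 v <;> simp_all
  have h5 : z v = x0 v := by
    have h6 := hzA {w | ∀ i ∈ ({v} : Set (Fin n)), w i = x0 i} ⟨⟨{v}, x0, rfl⟩, fun x hx i hi => by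
      rw [Set.mem_singleton_iff] at hi
      subst hi
      exact hAv x hx⟩
    exact h6 v rfl
  have h7 : z v = y0 v := by
    have h6 := hzB {w | ∀ i ∈ ({v} : Set (Fin n)), w i = y0 i} ⟨⟨{v}, y0, rfl⟩, fun x hx i hi => by
      rw [Set.mem_singleton_iff] at hi
      subst hi
      exact hBv x hx⟩
    exact h6 v rfl
  exact h0 (h5.symm.trans h7)





variable {n : ℕ} {f : Conf n → Conf n}

theorem T11_pos {j i : Fin n} (h : Arc (net f) false j i) : (interactionGraph f).pos j i := by
  obtain ⟨x, b, h1, h2⟩ := h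
  simp only [net, Bool.xor_false] at h1 h2
  refine ⟨update x j false, update x j true, ?_, ?_, ?_⟩
  · intro k hk
    rw [update_of_ne hk, update_of_ne hk]
  · simp
  · cases b
    · simp only [Bool.not_false, Bool.not_eq_false] at h1
      rw [h1, h2]
      decide
    · simp only [Bool.not_true, Bool.not_eq_true] at h1
      rw [h1, h2]
      decide

theorem T11_neg {j i : Fin n} (h : Arc (net f) true j i) : (interactionGraph f).neg j i := by
  obtain ⟨x, b, h1, h2⟩ := h
  simp only [net, Bool.xor_true, Bool.not_not] at h1 h2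
  refine ⟨update x j false, update x j true, ?_, ?_, ?_⟩
  · intro k hk
    rw [update_of_ne hk, update_of_ne hk]
  · simp
  · cases b
    · simp only [Bool.not_false, Bool.not_eq_false] at h1 h2
      rw [h1, h2]
      decide
    · simp only [Bool.not_true, Bool.not_eq_true] at h1 h2
      rw [h1, h2]
      decide

/-- Boolean signs as units -/
def T11_sg (ν : Bool) : ℤˣ := if ν then -1 else 1

theorem T11_sg_xor (a b : Bool) : T11_sg (xor a b) = T11_sg a * T11_sg b := by
  cases a <;> cases b <;> simp [T11_sg]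

theorem T11_arc {ν : Bool} {j i : Fin n} (h : Arc (net f) ν j i) :
    (T11_sg ν = 1 ∧ (interactionGraph f).pos j i) ∨
      (T11_sg ν = -1 ∧ (interactionGraph f).neg j i) := by
  cases ν
  · exact Or.inl ⟨rfl, T11_pos h⟩
  · exact Or.inr ⟨rfl, T11_neg h⟩

theorem T11_path {M : Finset (Fin n)} {ν : Bool} {u w : Fin n} (h : SPath (net f) M ν u w) :
    SimplePath (interactionGraph f) M (T11_sg ν) u w := by
  induction h with
  | arc h => exact SimplePath.single (T11_arc h)
  | cons h ha _ ih =>
    rw [T11_sg_xor]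
    exact SimplePath.cons (T11_arc h) ha ih

theorem T11_goes {u w : Fin n} (h : Goes f u w) : Reaches (interactionGraph f) u w := by
  have key : ∀ a b : Fin n, (∃ ν, Arc (net f) ν a b) →
      ((interactionGraph f).pos a b ∨ (interactionGraph f).neg a b) := by
    rintro a b ⟨ν, hν⟩
    cases ν
    · exact Or.inl (T11_pos hν)
    · exact Or.inr (T11_neg hν)
  exact Relation.ReflTransGen.mono (fun a b hab => key a b hab) u w h

theorem final (f : Conf n → Conf n) (W : Finset (Fin n)) (s : Fin n → ℤˣ)
    (hpos : ∀ C : SignedCycle (interactionGraph f), C.sign = 1 → ∃ k, C.vert k ∈ W)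
    (hpath : ∀ u ∈ W, ∀ w ∈ W, u ≠ w → Reaches (interactionGraph f) w u →
      ∀ σ, SimplePath (interactionGraph f) (Finset.univ \ W) σ u w → σ = s u * s w) :
    Separating f := by
  classical
  intro A B hA hB hne
  by_contra hcon
  rw [← Ne, ← Set.nonempty_iff_ne_empty] at hcon
  apply hne
  have hs : ∀ v : Fin n, T11_sg (decide (s v = -1)) = s v := by
    intro v
    rcases Int.units_eq_one_or (s v) with h | h
    · rw [h]
      rfl
    · rw [h]
      rfl
  refine P1 f W (fun v => decide (s v = -1)) ?_ ?_ A B (attr_of_isAttractor f A hA)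
    (attr_of_isAttractor f B hB) (common_of_hull A B hA.1 hB.1 hcon)
  · intro D hD hco
    obtain ⟨C, hC, hk⟩ := cycle_of_coh f D hco
    obtain ⟨k, hkW⟩ := hpos C hC
    exact Finset.disjoint_left.1 hD (hk k) hkW
  · intro e he w hw hew hg ν hp
    have h := hpath e he w hw hew (T11_goes hg) _ (T11_path hp)
    rw [← hs e, ← hs w, ← T11_sg_xor] at h
    cases ν <;> cases h1 : xor (decide (s e = -1)) (decide (s w = -1)) <;>
      rw [h1] at h <;> first | rfl | exact absurd h (by decide)



end Final

end Pool.Agent.Lib.MP_8a6e71_co.RS
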