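import Mathlib

set_option autoImplicit false

/-!
# The response theorem for asynchronous Boolean networks

A network is given by `M i x`: vertex `i` may flip at the state `x`.
-/

namespace Pool.Agent.Lib.MP_8a6e71_co.RT

variable {V : Type*} [DecidableEq V]

/-- the state `x` with coordinate `i` flipped -/
def flp (x : V → Bool) (i : V) : V → Bool := Function.update x i (!(x i))

/-- one move: a vertex of `N` which may flip, or a free vertex -/
def Step (M : V → (V → Bool) → Bool) (N : Finset V) (F : V → Prop) (x y : V → Bool) : Prop :=
  ∃ i, ((i ∈ N ∧ M i x = true) ∨ F i) ∧ y = flp x i

/-- reachability -/
def Reach (M : V → (V → Bool) → Bool) (N : Finset V) (F : V → Prop) :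
    (V → Bool) → (V → Bool) → Prop :=
  Relation.ReflTransGen (Step M N F)

/-- the goal `g = true` can be reached from `x` -/
def Goal (M : V → (V → Bool) → Bool) (N : Finset V) (F : V → Prop) (g : (V → Bool) → Bool)
    (x : V → Bool) : Prop :=
  ∃ y, Reach M N F x y ∧ g y = true

/-- simple paths from `e` to the goal with interior vertices in `N`, with their sign -/
inductive SPath (E : V → V → Bool → Prop) (Eg : V → Bool → Prop) :
    Finset V → V → Bool → Prop
  | last {N : Finset V} {e : V} {s : Bool} (h : Eg e s) : SPath E Eg N e s
  | cons {N : Finset V} {e a : V} {t s' : Bool} (ha : a ∈ N) (h : E e a t)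
      (hp : SPath E Eg (N.erase a) a s') : SPath E Eg N e (t == s')

/-- the arcs of `M` on `N` are among `E` -/
def Compat (E : V → V → Bool → Prop) (M : V → (V → Bool) → Bool) (N : Finset V) : Prop :=
  ∀ i ∈ N, ∀ j, j ≠ i → ∀ x : V → Bool, x j = false → M i x ≠ M i (Function.update x j true) →
    E j i (M i (Function.update x j true) != x i)

/-- the arcs into the goal are among `Eg` -/
def CompatG (Eg : V → Bool → Prop) (g : (V → Bool) → Bool) : Prop :=
  ∀ j, ∀ x : V → Bool, x j = false → g x ≠ g (Function.update x j true) →
    Eg j (g (Function.update x j true))

theorem goal_mono {M M' : V → (V → Bool) → Bool} {N N' : Finset V} {F F' : V → Prop}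
    {g : (V → Bool) → Bool}
    (h : ∀ i x, ((i ∈ N ∧ M i x = true) ∨ F i) → ((i ∈ N' ∧ M' i x = true) ∨ F' i))
    {x : V → Bool} (hx : Goal M N F g x) : Goal M' N' F' g x := by
  obtain ⟨y, hy, hg⟩ := hx
  refine ⟨y, ?_, hg⟩
  refine Relation.ReflTransGen.mono ?_ _ _ hy
  rintro a b ⟨i, hi, rfl⟩
  exact ⟨i, h i a hi, rfl⟩

theorem goal_step {M : V → (V → Bool) → Bool} {N : Finset V} {F : V → Prop}
    {g : (V → Bool) → Bool} {x y : V → Bool} (h : Step M N F x y) (hy : Goal M N F g y) :
    Goal M N F g x := by
  obtain ⟨z, hz, hg⟩ := hy
  exact ⟨z, Relation.ReflTransGen.head h hz, hg⟩

/-- rules in which the vertices of `T` see `e = s` and the others see any value of `e` -/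
def MT (M : V → (V → Bool) → Bool) (e : V) (s : Bool) (T : Finset V) :
    V → (V → Bool) → Bool :=
  fun i y => if i ∈ T then M i (Function.update y e s) else
    (M i (Function.update y e false) || M i (Function.update y e true))

theorem compat_MT {E : V → V → Bool → Prop} {M : V → (V → Bool) → Bool} {N : Finset V}
    (hM : Compat E M N) {e : V} (he : e ∉ N) (s : Bool) (T : Finset V) :
    Compat E (MT M e s T) N := by
  intro i hi j hji x hxj hne
  have hie : i ≠ e := fun h => he (h ▸ hi)
  by_cases hje : j = e
  · exfalso
    apply hne
    subst hje
    simp only [MT, Function.update_idem]
  · have hcomm : ∀ b : Bool, Function.update (Function.update x j true) e b =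
        Function.update (Function.update x e b) j true := fun b =>
      Function.update_comm hje _ _ _
    have hxj' : ∀ b : Bool, (Function.update x e b) j = false := fun b => by
      rw [Function.update_of_ne hje]; exact hxj
    have hxi' : ∀ b : Bool, (Function.update x e b) i = x i := fun b =>
      Function.update_of_ne hie _ _
    have key := fun b : Bool => hM i hi j hji (Function.update x e b) (hxj' b)
    simp only [hxi'] at key
    simp only [MT] at hne ⊢
    by_cases hT : i ∈ T
    · simp only [hT, if_true, hcomm] at hne ⊢
      exact key s hne
    · simp only [hT, if_false, hcomm] at hne ⊢
      have k0 := key false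
      have k1 := key true
      revert hne k0 k1
      generalize M i (Function.update x e false) = a0
      generalize M i (Function.update x e true) = a1
      generalize M i (Function.update (Function.update x e false) j true) = b0
      generalize M i (Function.update (Function.update x e true) j true) = b1
      cases a0 <;> cases a1 <;> cases b0 <;> cases b1 <;> simp <;> tauto

theorem compatG_update {Eg : V → Bool → Prop} {g : (V → Bool) → Bool} (hg : CompatG Eg g)
    (e : V) (s : Bool) : CompatG Eg (fun y => g (Function.update y e s)) := by
  intro j x hxj hne
  by_cases hje : j = e
  · exfalso
    apply hne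
    subst hje
    simp only [Function.update_idem]
  · have hcomm : Function.update (Function.update x j true) e s =
        Function.update (Function.update x e s) j true :=
      Function.update_comm hje _ _ _
    simp only [hcomm] at hne ⊢
    exact hg j (Function.update x e s) (by rw [Function.update_of_ne hje]; exact hxj) hne

theorem upd_self (x : V → Bool) (a : V) {b : Bool} (h : x a = b) : Function.update x a b = x := by
  subst h
  exact Function.update_eq_self a x

/-- **Response theorem.** -/
theorem rt {E : V → V → Bool → Prop} {Eg : V → Bool → Prop} (n : ℕ) :
    ∀ (N : Finset V), N.card = n → ∀ (M : V → (V → Bool) → Bool) (g : (V → Bool) → Bool),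
    Compat E M N → CompatG Eg g → ∀ (e : V), e ∉ N → ∀ s : Bool,
    (∀ s', SPath E Eg N e s' → s' = s) → ∀ x : V → Bool,
    Goal M N (fun i => i = e) g x → Goal M N (fun _ => False) g (Function.update x e s) := by
  induction n using Nat.strong_induction_on with
  | _ n ih =>
  intro N hN M g hM hg e he s hs x hx
  set g1 : (V → Bool) → Bool := fun y => g (Function.update y e s) with hg1
  have hg1c : CompatG Eg g1 := compatG_update hg e s
  -- start
  have h0 : Goal (MT M e s ∅) N (fun _ => False) g1 x := by
    obtain ⟨y, hy, hgy⟩ := hx
    have hsim : ∀ z, Reach M N (fun i => i = e) x z →
        Reach (MT M e s ∅) N (fun _ => False) x (Function.update z e (x e)) := by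
      intro z hz
      induction hz with
      | refl => rw [Function.update_eq_self]; exact Relation.ReflTransGen.refl
      | tail _ hstep ihz =>
        rename_i u v _
        obtain ⟨i, hi, rfl⟩ := hstep
        by_cases hie : i = e
        · subst hie
          simpa [flp] using ihz
        · have hiN : i ∈ N ∧ M i u = true := by
            rcases hi with h | h
            · exact h
            · exact absurd h hie
          refine Relation.ReflTransGen.tail ihz ⟨i, Or.inl ⟨hiN.1, ?_⟩, ?_⟩
          · simp only [MT, Finset.notMem_empty, if_false, Function.update_idem]
            have h2 : M i (Function.update u e (u e)) = true := by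
              rw [Function.update_eq_self]; exact hiN.2
            cases hue : u e
            · rw [hue] at h2; simp [h2]
            · rw [hue] at h2; simp [h2]
          · unfold flp
            rw [Function.update_comm hie, Function.update_of_ne hie]
    refine ⟨_, hsim y hy, ?_⟩
    simp only [hg1, Function.update_idem]
    by_contra hcon
    rw [Bool.not_eq_true] at hcon
    have h2 : g (Function.update y e (y e)) = true := by
      rw [Function.update_eq_self]; exact hgy
    have h3 := hg e (Function.update y e false) (by simp)
    simp only [Function.update_idem] at h3
    cases hs2 : s
    · rw [hs2] at hcon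
      have hye : y e = true := by
        by_contra h
        rw [Bool.not_eq_true] at h
        rw [h, hcon] at h2
        exact absurd h2 (by simp)
      rw [hye] at h2
      rw [hcon, h2] at h3
      have := hs _ (SPath.last (h3 (by simp)))
      rw [hs2] at this
      exact absurd this (by simp)
    · rw [hs2] at hcon
      have hye : y e = false := by
        by_contra h
        rw [Bool.not_eq_false] at h
        rw [h, hcon] at h2
        exact absurd h2 (by simp)
      rw [hye] at h2
      rw [hcon, h2] at h3
      have := hs _ (SPath.last (h3 (by simp)))
      rw [hs2] at this
      exact absurd this (by simp)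
  -- raise the copies one by one
  have hall : ∀ T : Finset V, Goal (MT M e s T) N (fun _ => False) g1 x := by
    intro T
    induction T using Finset.induction_on with
    | empty => exact h0
    | insert a T haT ihT =>
      -- the rules of the other vertices do not change
      have hother : ∀ i y, i ≠ a → MT M e s (insert a T) i y = MT M e s T i y := by
        intro i y hia
        simp only [MT, Finset.mem_insert, hia, false_or]
      by_cases haN : a ∈ N
      swap
      · refine goal_mono ?_ ihT
        rintro i y (⟨h1, h2⟩ | h)
        · left
          refine ⟨h1, ?_⟩
          rw [hother i y (fun h => haN (h ▸ h1))]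
          exact h2
        · exact absurd h id
      have hae : a ≠ e := fun h => he (h ▸ haN)
      have hcard : (N.erase a).card < n := by
        rw [← hN]; exact Finset.card_erase_lt_of_mem haN
      have hcT : Compat E (MT M e s T) (N.erase a) := by
        intro i hi
        exact compat_MT hM he s T i (Finset.mem_of_mem_erase hi)
      have hIH := fun (b : Bool) => ih _ hcard (N.erase a) rfl (MT M e s T) g1 hcT hg1c a
        (Finset.notMem_erase a N) b
      -- from a run with `a` active to a run with `a` free
      have hfree : ∀ z, Goal (MT M e s T) N (fun _ => False) g1 z →
          Goal (MT M e s T) (N.erase a) (fun i => i = a) g1 z := by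
        intro z hz
        refine goal_mono ?_ hz
        rintro i y (⟨h1, h2⟩ | h)
        · by_cases hia : i = a
          · exact Or.inr hia
          · exact Or.inl ⟨Finset.mem_erase.2 ⟨hia, h1⟩, h2⟩
        · exact absurd h id
      have hback : ∀ z, Goal (MT M e s T) (N.erase a) (fun _ => False) g1 z →
          Goal (MT M e s (insert a T)) N (fun _ => False) g1 z := by
        intro z hz
        refine goal_mono ?_ hz
        rintro i y (⟨h1, h2⟩ | h)
        · left
          refine ⟨Finset.mem_of_mem_erase h1, ?_⟩
          rw [hother i y (Finset.ne_of_mem_erase h1)]
          exact h2
        · exact absurd h id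
      by_cases hI : ∀ s', SPath E Eg (N.erase a) a s' → s' = x a
      · have h1 := hIH (x a) hI x (hfree x ihT)
        rw [Function.update_eq_self] at h1
        exact hback x h1
      · push Not at hI
        obtain ⟨s0, hs0, hne0⟩ := hI
        have harc : ∀ t, E e a t → (t == s0) = s := fun t ht => hs _ (SPath.cons haN ht hs0)
        by_cases hex : ∃ t, E e a t
        · obtain ⟨t0, ht0⟩ := hex
          have hall0 : ∀ s', SPath E Eg (N.erase a) a s' → s' = s0 := by
            intro s' hs'
            have h1 := hs _ (SPath.cons haN ht0 hs')
            have h2 := harc t0 ht0
            revert h1 h2
            cases t0 <;> cases s' <;> cases s0 <;> cases s <;> simp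
          have hxa : x a = !s0 := by
            revert hne0
            cases s0 <;> cases x a <;> simp
          have hIH0 := hIH s0 hall0
          -- induction along the run
          obtain ⟨y, hy, hgy⟩ := ihT
          have hrun : ∀ z, Reach (MT M e s T) N (fun _ => False) z y → z a = !s0 →
              Goal (MT M e s (insert a T)) N (fun _ => False) g1 z := by
            intro z hz
            induction hz using Relation.ReflTransGen.head_induction_on with
            | refl => exact fun _ => ⟨y, Relation.ReflTransGen.refl, hgy⟩
            | head hstep hrest ihz =>
              rename_i u v
              intro hua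
              obtain ⟨i, hi, rfl⟩ := hstep
              have hiN : i ∈ N ∧ MT M e s T i u = true := by
                rcases hi with h | h
                · exact h
                · exact absurd h id
              by_cases hia : i = a
              · subst hia
                have hv : flp u i i = s0 := by simp [flp, hua]
                have h1 := hIH0 (flp u i) (hfree _ ⟨y, hrest, hgy⟩)
                rw [upd_self _ _ hv] at h1
                refine goal_step ⟨i, Or.inl ⟨haN, ?_⟩, rfl⟩ (hback _ h1)
                have h2 := hiN.2
                simp only [MT, haT, if_false] at h2
                simp only [MT, Finset.mem_insert_self, if_true]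
                by_contra hcon
                rw [Bool.not_eq_true] at hcon
                have h3 := hM i haN e (Ne.symm hae) (Function.update u e false) (by simp)
                simp only [Function.update_idem, Function.update_of_ne hae, hua] at h3
                cases hs2 : s
                · rw [hs2] at hcon
                  rw [hcon, Bool.false_or] at h2
                  rw [hcon, h2] at h3
                  have h4 := harc _ (h3 (by simp))
                  rw [hs2] at h4
                  revert h4
                  cases s0 <;> simp
                · rw [hs2] at hcon
                  rw [hcon, Bool.or_false] at h2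
                  rw [hcon, h2] at h3
                  have h4 := harc _ (h3 (by simp))
                  rw [hs2] at h4
                  revert h4
                  cases s0 <;> simp
              · have hva : flp u i a = !s0 := by
                  unfold flp
                  rw [Function.update_of_ne (Ne.symm hia)]
                  exact hua
                refine goal_step ⟨i, Or.inl ⟨hiN.1, ?_⟩, rfl⟩ (ihz hva)
                rw [hother i u hia]
                exact hiN.2
          exact hrun x hy hxa
        · push Not at hex
          refine goal_mono ?_ ihT
          rintro i y (⟨h1, h2⟩ | h)
          · left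
            refine ⟨h1, ?_⟩
            by_cases hia : i = a
            · subst hia
              simp only [MT, haT, if_false] at h2
              simp only [MT, Finset.mem_insert_self, if_true]
              have h3 : M i (Function.update y e false) = M i (Function.update y e true) := by
                by_contra hcon
                have := hM i haN e (Ne.symm hae) (Function.update y e false) (by simp)
                simp only [Function.update_idem] at this
                exact hex _ (this hcon)
              rw [h3, Bool.or_self] at h2
              cases s
              · rw [h3]; exact h2
              · exact h2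
            · rw [hother i y hia]; exact h2
          · exact absurd h id
  -- finish
  obtain ⟨y, hy, hgy⟩ := hall N
  refine ⟨Function.update y e s, ?_, hgy⟩
  have hsim : ∀ z, Reach (MT M e s N) N (fun _ => False) x z →
      Reach M N (fun _ => False) (Function.update x e s) (Function.update z e s) := by
    intro z hz
    induction hz with
    | refl => exact Relation.ReflTransGen.refl
    | tail _ hstep ihz =>
      rename_i u v _
      obtain ⟨i, hi, rfl⟩ := hstep
      have hiN : i ∈ N ∧ MT M e s N i u = true := by
        rcases hi with h | h
        · exact h
        · exact absurd h id
      have hie : i ≠ e := fun h => he (h ▸ hiN.1)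
      refine Relation.ReflTransGen.tail ihz ⟨i, Or.inl ⟨hiN.1, ?_⟩, ?_⟩
      · have := hiN.2
        simp only [MT, hiN.1, if_true] at this
        exact this
      · unfold flp
        rw [Function.update_comm hie, Function.update_of_ne hie]
  exact hsim y hy

end Pool.Agent.Lib.MP_8a6e71_co.RT
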