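import Pool.Agent.Lib.MP_8a6e71_co.RT

set_option autoImplicit false

/-!
# The response theorem with several free inputs, and the falling lemma
-/

namespace Pool.Agent.Lib.MP_8a6e71_co.RT

variable {V : Type*} [DecidableEq V]

theorem spath_restrict {E E' : V → V → Bool → Prop} {Eg : V → Bool → Prop} {F : Finset V}
    (hE : ∀ j i t, E' j i t → E j i t ∧ i ∉ F) {N : Finset V} {e : V} {s : Bool}
    (h : SPath E' Eg N e s) : SPath E Eg (N \ F) e s := by
  induction h with
  | last h => exact SPath.last h
  | @cons N e a t s' ha h hp ih =>
    refine SPath.cons (Finset.mem_sdiff.2 ⟨ha, (hE _ _ _ h).2⟩) (hE _ _ _ h).1 ?_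
    rw [Finset.erase_sdiff_comm] at ih
    exact ih

/-- **Response theorem** with several free inputs. -/
theorem rt_multi {E : V → V → Bool → Prop} {Eg : V → Bool → Prop} {N : Finset V}
    {M : V → (V → Bool) → Bool} {g : (V → Bool) → Bool}
    (hM : Compat E M N) (hg : CompatG Eg g) (s : V → Bool) (F : Finset V) :
    Disjoint F N → (∀ e ∈ F, ∀ s', SPath E Eg N e s' → s' = s e) → ∀ x : V → Bool,
    Goal M N (fun i => i ∈ F) g x →
    Goal M N (fun _ => False) g (fun i => if i ∈ F then s i else x i) := by
  induction F using Finset.induction_on with
  | empty =>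
    intro _ _ x hx
    refine goal_mono ?_ (by simpa using hx)
    rintro i y (h | h)
    · exact Or.inl h
    · simp at h
  | insert e F heF ih =>
    intro hdis hs x hx
    rw [Finset.disjoint_insert_left] at hdis
    set M' : V → (V → Bool) → Bool := fun i y => if i ∈ F then true else M i y with hM'
    set E' : V → V → Bool → Prop := fun j i t => E j i t ∧ i ∉ F with hE'
    have hc : Compat E' M' (N ∪ F) := by
      intro i hi j hji y hyj hne
      by_cases hiF : i ∈ F
      · simp [hM', hiF] at hne
      · have hiN : i ∈ N := by
          rcases Finset.mem_union.1 hi with h | h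
          · exact h
          · exact absurd h hiF
        simp only [hM', hiF, if_false] at hne ⊢
        exact ⟨hM i hiN j hji y hyj hne, hiF⟩
    have hNF : (N ∪ F) \ F = N := by
      rw [Finset.union_sdiff_right]
      exact Finset.sdiff_eq_self_of_disjoint hdis.2.symm
    have heN : e ∉ N ∪ F := by
      rw [Finset.mem_union]
      rintro (h | h)
      · exact hdis.1 h
      · exact heF h
    have h1 := rt _ (N ∪ F) rfl M' g hc hg e heN (s e) (by
      intro s' hs'
      have h2 := spath_restrict (E := E) (F := F) (fun j i t h => h) hs'
      rw [hNF] at h2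
      exact hs e (Finset.mem_insert_self _ _) s' h2) x (by
      refine goal_mono ?_ hx
      rintro i y (⟨h1, h2⟩ | h)
      · left
        refine ⟨Finset.mem_union_left _ h1, ?_⟩
        simp only [hM']
        split_ifs <;> simp [h2]
      · rcases Finset.mem_insert.1 h with h | h
        · exact Or.inr h
        · left
          exact ⟨Finset.mem_union_right _ h, by simp [hM', h]⟩)
    have h2 := ih hdis.2 (fun e he => hs e (Finset.mem_insert_of_mem he)) (Function.update x e (s e))
      (by
        refine goal_mono ?_ h1
        rintro i y (⟨h1, h2⟩ | h)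
        · by_cases hiF : i ∈ F
          · exact Or.inr hiF
          · left
            simp only [hM', hiF, if_false] at h2
            rcases Finset.mem_union.1 h1 with h | h
            · exact ⟨h, h2⟩
            · exact absurd h hiF
        · exact absurd h id)
    convert h2 using 2
    rename_i i
    by_cases hie : i = e
    · subst hie
      simp [heF]
    · simp [hie, Function.update_of_ne hie]

theorem reach_eq_of_notMem {M : V → (V → Bool) → Bool} {N : Finset V} {F : V → Prop}
    {x y : V → Bool} (h : Reach M N F x y) {i : V} (hi : i ∉ N) (hF : ¬ F i) : y i = x i := by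
  induction h with
  | refl => rfl
  | tail _ hstep ih =>
    obtain ⟨j, hj, rfl⟩ := hstep
    have hij : i ≠ j := by
      rintro rfl
      rcases hj with h | h
      · exact hi h.1
      · exact hF h
    rw [flp, Function.update_of_ne hij]
    exact ih

end Pool.Agent.Lib.MP_8a6e71_co.RT
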