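import Pool.Agent.Lib.MP_8a6e71_co.TAtt

set_option autoImplicit false
set_option linter.unusedSectionVars false

namespace Pool.Agent.Lib.MP_8a6e71_co.RS

open Function

section TSurg
variable {V : Type} [Fintype V] [DecidableEq V]

theorem SPath.mono' {R : Net V} {M M' : Finset V} {ν : Bool} {u w : V} (h : SPath R M ν u w)
    (hM : M ⊆ M') : SPath R M' ν u w := by
  induction h generalizing M' with
  | arc h => exact .arc h
  | @cons M ν ν' u a w h ha _ ih =>
    exact .cons h (hM ha) (ih (Finset.erase_subset_erase _ hM))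

/-- `a` reads `e` instead of `w` -/
def cutN (R : Net V) (a w : V) (e : Bool) : Net V :=
  fun i b x => if i = a then R i b (update x w e) else R i b x

/-- every reader of `a` reads `w` (with sign `c`) instead of `a` -/
def tieN (R : Net V) (a w : V) (c : Bool) : Net V :=
  fun i b x => R i b (update x a (xor (x w) c))

theorem cut_arc {R : Net V} {a w : V} {e ν : Bool} {j i : V} (h : Arc (cutN R a w e) ν j i) :
    Arc R ν j i ∧ ¬ (j = w ∧ i = a) := by
  obtain ⟨x, b, h1, h2⟩ := h
  unfold cutN at h1 h2
  by_cases hi : i = a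
  · rw [if_pos hi] at h1 h2
    by_cases hj : j = w
    · subst hj
      rw [update_idem] at h1 h2
      exact absurd h2 h1
    · rw [update_comm hj] at h1 h2
      exact ⟨⟨_, b, h1, h2⟩, fun h => hj h.1⟩
  · rw [if_neg hi] at h1 h2
    exact ⟨⟨x, b, h1, h2⟩, fun h => hi h.2⟩

theorem cut_path {R : Net V} {a w : V} {e : Bool} {M : Finset V} {ν : Bool} {u z : V}
    (h : SPath (cutN R a w e) M ν u z) : SPath R M ν u z := by
  induction h with
  | arc h => exact .arc (cut_arc h).1
  | cons h ha _ ih => exact .cons (cut_arc h).1 ha ih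

theorem cut_nopos {R : Net V} {a w : V} {e : Bool} {U : Finset V} (h : NoPos R U) :
    NoPos (cutN R a w e) U := by
  intro D hD hne s hs
  exact h D hD hne s fun i hi => by
    obtain ⟨j, hj, hj'⟩ := hs i hi
    exact ⟨j, hj, (cut_arc hj').1⟩

theorem cut_tot {R : Net V} {a w : V} {e : Bool} {U : Finset V} (h : Tot R U) :
    Tot (cutN R a w e) U := by
  intro i hi x
  unfold cutN
  by_cases hia : i = a
  · rw [if_pos hia, if_pos hia]; exact h i hi _
  · rw [if_neg hia, if_neg hia]; exact h i hi _

/-- where `w` has the value `e`, the cut network is the old one -/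
theorem cut_eq {R : Net V} {a w : V} {e : Bool} {i : V} {b : Bool} {x : V → Bool} (hx : x w = e) :
    cutN R a w e i b x ↔ R i b x := by
  unfold cutN
  by_cases hia : i = a
  · rw [if_pos hia, ← hx, update_eq_self]
  · rw [if_neg hia]

theorem cut_ne {R : Net V} {a w : V} {e : Bool} {i : V} {b : Bool} {x : V → Bool} (hi : i ≠ a) :
    cutN R a w e i b x ↔ R i b x := by
  unfold cutN
  rw [if_neg hi]

theorem tie_arc {R : Net V} {a w : V} {c ν : Bool} {j i : V} (hwa : w ≠ a)
    (h : Arc (tieN R a w c) ν j i) :
    j ≠ a ∧ (j ≠ w → Arc R ν j i) ∧ (j = w → Arc R ν w i ∨ Arc R (xor ν c) a i) := by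
  obtain ⟨x, b, h1, h2⟩ := h
  unfold tieN at h1 h2
  have hja : j ≠ a := by
    rintro rfl
    rw [update_idem, update_of_ne hwa] at h1 h2
    exact h1 h2
  refine ⟨hja, ?_, ?_⟩
  · intro hjw
    rw [update_of_ne (Ne.symm hjw), update_comm hja] at h1 h2
    exact ⟨_, b, h1, h2⟩
  · rintro rfl
    rw [update_self, update_comm hja] at h1 h2
    by_cases h3 : R i b (update (update x a (xor (xor b ν) c)) j (!(xor b ν)))
    · right
      refine ⟨update x j (!(xor b ν)), b, ?_, ?_⟩
      · rw [update_comm hja]
        have : (!(xor b (xor ν c))) = xor (!(xor b ν)) c := by cases b <;> cases ν <;> cases c <;> rfl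
        rw [this]
        exact h1
      · rw [update_comm hja]
        have : (xor b (xor ν c)) = xor (xor b ν) c := by cases b <;> cases ν <;> cases c <;> rfl
        rw [this]
        exact h3
    · left
      exact ⟨_, b, h3, h2⟩

theorem tie_path {R : Net V} {a w : V} {c : Bool} (hwa : w ≠ a) {M : Finset V} {ν : Bool}
    {u z : V} (h : SPath (tieN R a w c) M ν u z) (hw : w ∉ M) (ha : a ∉ M) :
    (u ≠ w → SPath R M ν u z) ∧ (u = w → SPath R M ν w z ∨ SPath R M (xor ν c) a z) := by
  induction h with
  | arc h =>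
    obtain ⟨_, h1, h2⟩ := tie_arc hwa h
    refine ⟨fun hu => .arc (h1 hu), fun hu => ?_⟩
    rcases h2 hu with h | h
    · exact Or.inl (.arc h)
    · exact Or.inr (.arc h)
  | @cons M ν ν' u k z h hk _ ih =>
    obtain ⟨_, h1, h2⟩ := tie_arc hwa h
    have hkw : k ≠ w := fun h => hw (h ▸ hk)
    have h3 := (ih (fun h => hw (Finset.mem_of_mem_erase h))
      (fun h => ha (Finset.mem_of_mem_erase h))).1 hkw
    refine ⟨fun hu => .cons (h1 hu) hk h3, fun hu => ?_⟩
    rcases h2 hu with h | h
    · exact Or.inl (.cons h hk h3)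
    · right
      have := SPath.cons h hk h3
      have e : xor (xor ν c) ν' = xor (xor ν ν') c := by cases ν <;> cases ν' <;> cases c <;> rfl
      rw [e] at this
      exact this

/-- paths from `w` of the tied network are paths of `R` through `a` or not -/
theorem tie_path_w {R : Net V} {a w : V} {c : Bool} (hwa : w ≠ a) (hr : Arc R c w a)
    {M : Finset V} {ν : Bool} {z : V} (h : SPath (tieN R a w c) M ν w z) (hw : w ∉ M)
    (ha : a ∉ M) : SPath R (insert a M) ν w z := by
  rcases (tie_path hwa h hw ha).2 rfl with h | h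
  · exact h.mono' (Finset.subset_insert _ _)
  · have h1 : SPath R ((insert a M).erase a) (xor ν c) a z := by
      rw [Finset.erase_insert ha]; exact h
    have h2 := SPath.cons hr (Finset.mem_insert_self a M) h1
    have e : xor c (xor ν c) = ν := by cases ν <;> cases c <;> rfl
    rw [e] at h2
    exact h2

theorem tie_nopos {R : Net V} {a w : V} {c : Bool} (hwa : w ≠ a) {U : Finset V} (hw : w ∉ U)
    (h : NoPos R U) : NoPos (tieN R a w c) U := by
  intro D hD hne s hs
  exact h D hD hne s fun i hi => by
    obtain ⟨j, hj, hj'⟩ := hs i hi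
    exact ⟨j, hj, (tie_arc hwa hj').2.1 (fun h => hw (h ▸ hD hj))⟩

theorem tie_tot {R : Net V} {a w : V} {c : Bool} {U : Finset V} (h : Tot R U) :
    Tot (tieN R a w c) U := fun i hi x => h i hi _

theorem tie_eq {R : Net V} {a w : V} {c : Bool} {i : V} {b : Bool} {x : V → Bool}
    (hx : x a = xor (x w) c) : tieN R a w c i b x ↔ R i b x := by
  unfold tieN
  rw [← hx, update_eq_self]

/-- two networks whose moves agree on the states met give the same reachability -/
theorem Rch.congr {R R' : Net V} {M F : Finset V} (P : (V → Bool) → Prop) {x y : V → Bool}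
    (h : Rch R M F x y) (hP : ∀ z, Rch R M F x z → P z)
    (hR : ∀ z, P z → ∀ i ∈ M, ∀ b, R i b z → R' i b z) : Rch R' M F x y := by
  induction h with
  | refl => exact .refl
  | @tail z y hz hs ih =>
    refine ih.tail ?_
    rcases hs with ⟨i, hi, b, hb, rfl⟩ | ⟨i, hi, b, rfl⟩
    · exact Or.inl ⟨i, hi, b, hR z (hP z hz) i hi b hb, rfl⟩
    · exact Or.inr ⟨i, hi, b, rfl⟩

/-- an attractor of `R` is an attractor of every network with the same moves on it -/
theorem ATT.congr {R R' : Net V} {U : Finset V} {A : Set (V → Bool)} (hA : ATT R U A)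
    (hR : ∀ z ∈ A, ∀ i ∈ U, ∀ b, R i b z ↔ R' i b z) : ATT R' U A := by
  have h1 : ∀ x ∈ A, ∀ y, Rch R' U ∅ x y → y ∈ A := by
    intro x hx y hy
    induction hy with
    | refl => exact hx
    | @tail z y _ hs ih =>
      rcases hs with ⟨i, hi, b, hb, rfl⟩ | ⟨i, hi, b, rfl⟩
      · exact hA.closed z ih _ (Relation.ReflTransGen.single
          (Or.inl ⟨i, hi, b, (hR z ih i hi b).2 hb, rfl⟩))
      · simp at hi
  refine ⟨hA.ne, h1, fun x hx y hy => ?_⟩
  exact (hA.conn x hx y hy).congr (fun z => z ∈ A) (fun z hz => hA.closed x hx z hz)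
    (fun z hz i hi b hb => (hR z hz i hi b).1 hb)

/-- a vertex which is constant on an attractor may be frozen -/
theorem ATT.erase_const {R : Net V} {U : Finset V} {A : Set (V → Bool)} (hA : ATT R U A) (a : V)
    (c : Bool) (hc : ∀ x ∈ A, x a = c) : ATT R (U.erase a) A := by
  have hsub : ∀ {x y : V → Bool}, Rch R (U.erase a) ∅ x y → Rch R U ∅ x y := fun h =>
    Rch.mono (by simpa using Finset.erase_subset _ _) (by simp) h
  refine ⟨hA.ne, fun x hx y hy => hA.closed x hx y (hsub hy), fun x hx y hy => ?_⟩
  have h := hA.conn x hx y hy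
  have key : ∀ z, Rch R U ∅ x z → Rch R (U.erase a) ∅ x z := by
    intro z hz
    induction hz with
    | refl => exact .refl
    | @tail z t hz hs ih =>
      have hzA := hA.closed x hx z hz
      rcases hs with ⟨i, hi, b, hb, rfl⟩ | ⟨i, hi, b, rfl⟩
      · by_cases hia : i = a
        · subst hia
          have h1 := hA.closed z hzA _ (Relation.ReflTransGen.single
            (Or.inl ⟨i, hi, b, hb, rfl⟩))
          have h2 := hc _ h1
          rw [update_self] at h2
          have : update z i b = z := by rw [h2, ← hc z hzA, update_eq_self]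
          rw [this]
          exact ih
        · exact ih.tail (Or.inl ⟨i, Finset.mem_erase.2 ⟨hia, hi⟩, b, hb, rfl⟩)
      · simp at hi
  exact key y h

/-- a vertex which cannot leave its value on an attractor of the others may be unfrozen -/
theorem ATT.insert_const {R : Net V} {U : Finset V} {A : Set (V → Bool)} {a : V}
    (hA : ATT R (U.erase a) A) (c : Bool) (hc : ∀ x ∈ A, x a = c)
    (hR : ∀ x ∈ A, ¬ R a (!c) x) : ATT R U A := by
  have h1 : ∀ x ∈ A, ∀ y, Rch R U ∅ x y → y ∈ A := by
    intro x hx y hy
    induction hy with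
    | refl => exact hx
    | @tail z y _ hs ih =>
      rcases hs with ⟨i, hi, b, hb, rfl⟩ | ⟨i, hi, b, rfl⟩
      · by_cases hia : i = a
        · subst hia
          have hbc : b = c := by
            by_contra hbc
            have : b = !c := by revert hbc; cases b <;> cases c <;> simp
            exact hR z ih (this ▸ hb)
          rw [hbc, ← hc z ih, update_eq_self]
          exact ih
        · exact hA.closed z ih _ (Relation.ReflTransGen.single
            (Or.inl ⟨i, Finset.mem_erase.2 ⟨hia, hi⟩, b, hb, rfl⟩))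
      · simp at hi
  refine ⟨hA.ne, h1, fun x hx y hy => ?_⟩
  exact Rch.mono (by simpa using Finset.erase_subset _ _) (by simp) (hA.conn x hx y hy)

end TSurg

end Pool.Agent.Lib.MP_8a6e71_co.RS
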