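import Pool.Agent.Lib.MP_8a6e71_co.RSAll
import Pool.Agent.Lib.MP_8a6e71_co.RTM
import Pool.Agent.Lib.MP_8a6e71_co.TSurg

set_option autoImplicit false
set_option linter.unusedSectionVars false

/-! TwoLatches stubs (MP_8a6e71_co Q2, two vertices on no negative cycle).  Signs: `false` = `+`. -/

namespace Pool.Agent.Lib.MP_8a6e71_co.T2

open Function Pool.Agent.Lib.MP_8a6e71_co.RS

section
variable {V : Type} [Fintype V] [DecidableEq V]

abbrev St (V : Type) := V → Bool

/-- the attractor of the network on `U`, the coordinates outside `U` frozen as in `x`: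
the states reachable from ALL states that agree with `x` outside `U` -/
def att (R : Net V) (U : Finset V) (x : St V) : Set (St V) :=
  {z | ∀ y : St V, (∀ j, j ∉ U → y j = x j) → Rch R U ∅ y z}

/-- interval network without positive cycles on `U` -/
structure Good (R : Net V) (U : Finset V) : Prop where
  tot : ∀ i ∈ U, ∀ x, R i true x ∨ R i false x
  neg : ∀ D ⊆ U, D.Nonempty → ∀ s : St V, ¬ ∀ i ∈ D, ∃ j ∈ D, Arc R (xor (s i) (s j)) j i

/-- `x0` with `w := a`, `v := b` -/
def wv (x0 : St V) (w v : V) (a b : Bool) : St V := update (update x0 w a) v b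

/-- the data of `TC+`, all four polarities `+` -/
structure D (R : Net V) (U : Finset V) (w v p q : V) (x0 : St V) : Prop where
  good : Good R U
  hw : w ∉ U
  hv : v ∉ U
  hp : p ∉ U
  hq : q ∉ U
  hwv : w ≠ v
  c1 : ∀ x ∈ att R U (wv x0 w v false true), ¬ R p true x
  c2 : ∃ x ∈ att R U (wv x0 w v false true), R q false x
  c3 : ∀ x ∈ att R U (wv x0 w v true true), ¬ R q false x
  c4 : ∃ x ∈ att R U (wv x0 w v false true), ∃ z, Rch R U {v} x z ∧ R p true z
  S1 : ∀ ν, SPath R U ν w p → ν = false
  S2 : ∀ ν, SPath R U ν v q → ν = false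
  S3 : ∀ M1 M2 ν1 ν2, M1 ⊆ U → M2 ⊆ U → Disjoint M1 M2 → SPath R M1 ν1 w q →
    SPath R M2 ν2 v p → ν1 = ν2

/-- number of readers of `w` -/
noncomputable def rd (R : Net V) (U : Finset V) (w : V) : ℕ := by
  classical exact (U.filter (fun a => ∃ ν, Arc R ν w a)).card

/-- minimality -/
def Min (R : Net V) (U : Finset V) (w : V) : Prop :=
  ∀ (R' : Net V) (U' : Finset V) (w' v' p' q' : V) (x' : St V),
    U'.card < U.card ∨ (U'.card = U.card ∧ rd R' U' w' < rd R U w) → ¬ D R' U' w' v' p' q' x'

/-! ### A: basics -/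

-- T2_Aall_h95.lean
theorem att_congr (R : Net V) (U : Finset V) (x y : St V) (h : ∀ j, j ∉ U → x j = y j) :
    att R U x = att R U y := by
  ext z
  constructor
  · intro hz s hs
    exact hz s fun j hj => by rw [hs j hj, h j hj]
  · intro hz s hs
    exact hz s fun j hj => by rw [hs j hj, h j hj]

theorem att_frozen {R : Net V} {U : Finset V} {x z : St V} (hz : z ∈ att R U x) (j : V)
    (hj : j ∉ U) : z j = x j :=
  (hz x fun _ _ => rfl).frozen j hj (by simp)

theorem att_closed {R : Net V} {U : Finset V} {x z z' : St V} (hz : z ∈ att R U x)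
    (h : Rch R U ∅ z z') : z' ∈ att R U x :=
  fun y hy => (hz y hy).trans h

theorem att_sub {R : Net V} {U U' : Finset V} (hU : U' ⊆ U) {x z : St V}
    (hz : z ∈ att R U x) : att R U' z ⊆ att R U x := by
  intro s hs
  have h1 : Rch R U' ∅ z s := hs z fun _ _ => rfl
  exact att_closed hz (h1.mono (by simpa using hU) (Finset.Subset.refl _))

theorem Good.mono {R : Net V} {U U' : Finset V} (hG : Good R U) (hU : U' ⊆ U) : Good R U' where
  tot := fun i hi => hG.tot i (hU hi)
  neg := fun D hD => hG.neg D (hD.trans hU)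


theorem A95_arc (R : Net V) (i : V) (b : Bool) (D : Finset V) (x x' : V → Bool)
    (hD : ∀ j, j ∉ D → x j = x' j) (h0 : ¬ R i b x) (h1 : R i b x') :
    ∃ j ∈ D, x j ≠ x' j ∧ Arc R (xor b (x' j)) j i := by
  have e0 : ow x x' ∅ = x := by
    funext v
    simp [ow]
  have e1 : ow x x' D = x' := by
    funext v
    by_cases hv : v ∈ D
    · simp [ow, hv]
    · simp [ow, hv, hD v hv]
  obtain ⟨T, j, hj, hjT, h2, h3⟩ := T5_switch (D := D) (P := fun T => R i b (ow x x' T))
    (by rw [e0]; exact h0) (by rw [e1]; exact h1)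
  have e3 : update (ow x x' T) j (x' j) = ow x x' (insert j T) := by
    funext v
    by_cases hv : v = j
    · subst hv
      rw [update_self]
      simp [ow]
    · rw [update_of_ne hv]
      simp [ow, hv]
  have hne : x j ≠ x' j := by
    intro h
    apply h2
    have : ow x x' T = ow x x' (insert j T) := by
      rw [← e3]
      funext v
      by_cases hv : v = j
      · subst hv
        rw [update_self]
        simp [ow, hjT, h]
      · rw [update_of_ne hv]
    show R i b (ow x x' T)
    rw [this]
    exact h3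
  have ex : xor b (xor b (x' j)) = x' j := by
    cases b <;> cases x' j <;> rfl
  refine ⟨j, hj, hne, ow x x' T, b, ?_, ?_⟩
  · rw [ex]
    have e2 : update (ow x x' T) j (!(x' j)) = ow x x' T := by
      funext v
      by_cases hv : v = j
      · subst hv
        rw [update_self]
        simp only [ow, hjT, if_false]
        cases h5 : x v <;> cases h6 : x' v <;> simp_all
      · rw [update_of_ne hv]
    rw [e2]
    exact h2
  · rw [ex, e3]
    exact h3

theorem confluent {R : Net V} {U : Finset V} (hG : Good R U) (x y : St V)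
    (hxy : ∀ j, j ∉ U → x j = y j) :
    ∃ z, Rch R U ∅ x z ∧ Rch R U ∅ y z := by
  classical
  have key : ∀ (m : ℕ) (p q : V → Bool), Rch R U ∅ x p → Rch R U ∅ y q →
      (Finset.univ.filter fun k => p k ≠ q k).card = m →
      ∃ z, Rch R U ∅ x z ∧ Rch R U ∅ y z := by
    intro m
    induction m using Nat.strong_induction_on with
    | _ m ih =>
      intro p q hp hq hm
      have hout : ∀ j, j ∉ U → p j = q j := by
        intro j hj
        rw [hp.frozen j hj (by simp), hq.frozen j hj (by simp)]
        exact hxy j hj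
      set D := Finset.univ.filter fun k => p k ≠ q k with hD
      have hDU : D ⊆ U := by
        intro j hj
        by_contra hjU
        exact (Finset.mem_filter.1 hj).2 (hout j hjU)
      by_cases h1 : ∃ i ∈ D, R i (q i) p
      · obtain ⟨i, hi, hR⟩ := h1
        have hp' : Rch R U ∅ x (update p i (q i)) := hp.tail (Or.inl ⟨i, hDU hi, q i, hR, rfl⟩)
        refine ih _ ?_ _ q hp' hq rfl
        rw [← hm]
        refine Finset.card_lt_card ⟨?_, ?_⟩
        · intro k hk
          have hk2 := (Finset.mem_filter.1 hk).2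
          by_cases hki : k = i
          · subst hki; exact hi
          · rw [update_of_ne hki] at hk2
            exact Finset.mem_filter.2 ⟨Finset.mem_univ _, hk2⟩
        · intro hsub
          have h2 := (Finset.mem_filter.1 (hsub hi)).2
          rw [update_self] at h2
          exact h2 rfl
      · by_cases h2 : ∃ i ∈ D, R i (p i) q
        · obtain ⟨i, hi, hR⟩ := h2
          have hq' : Rch R U ∅ y (update q i (p i)) := hq.tail (Or.inl ⟨i, hDU hi, p i, hR, rfl⟩)
          refine ih _ ?_ p _ hp hq' rfl
          rw [← hm]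
          refine Finset.card_lt_card ⟨?_, ?_⟩
          · intro k hk
            have hk2 := (Finset.mem_filter.1 hk).2
            by_cases hki : k = i
            · subst hki; exact hi
            · rw [update_of_ne hki] at hk2
              exact Finset.mem_filter.2 ⟨Finset.mem_univ _, hk2⟩
          · intro hsub
            have h2 := (Finset.mem_filter.1 (hsub hi)).2
            rw [update_self] at h2
            exact h2 rfl
        · push Not at h1 h2
          by_cases hne : D.Nonempty
          · exfalso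
            refine hG.neg D hDU hne q ?_
            intro i hi
            have hpq := (Finset.mem_filter.1 hi).2
            have hq1 : R i (q i) q := by
              have h3 := h2 i hi
              rcases hG.tot i (hDU hi) q with h | h <;> cases h5 : p i <;> cases h6 : q i <;> simp_all
            obtain ⟨j, hj, _, harc⟩ := A95_arc R i (q i) D p q
              (fun j hj => by
                by_contra hcon
                exact hj (Finset.mem_filter.2 ⟨Finset.mem_univ _, hcon⟩)) (h1 i hi) hq1
            exact ⟨j, hj, harc⟩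
          · have hpq : p = q := by
              funext j
              by_contra hcon
              exact hne ⟨j, Finset.mem_filter.2 ⟨Finset.mem_univ _, hcon⟩⟩
            exact ⟨p, hp, by rw [hpq]; exact hq⟩
  exact key _ x y Relation.ReflTransGen.refl Relation.ReflTransGen.refl rfl

theorem att_nonempty {R : Net V} {U : Finset V} (hG : Good R U) (x : St V) :
    (att R U x).Nonempty := by
  classical
  obtain ⟨z, hz, hmin⟩ := (Set.toFinite {z : V → Bool | ∀ j, j ∉ U → z j = x j}).exists_minimalFor
    (fun z => {y | Rch R U ∅ z y}.ncard) _ ⟨x, fun j _ => rfl⟩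
  refine ⟨z, fun y hy => ?_⟩
  obtain ⟨t, hzt, hyt⟩ := confluent hG z y (fun j hj => by rw [hz j hj, hy j hj])
  have htU : ∀ j, j ∉ U → t j = x j := by
    intro j hj
    rw [hzt.frozen j hj (by simp)]
    exact hz j hj
  have hsub : {y | Rch R U ∅ t y} ⊆ {y | Rch R U ∅ z y} := fun s hs => hzt.trans hs
  have hle : {y | Rch R U ∅ z y}.ncard ≤ {y | Rch R U ∅ t y}.ncard :=
    hmin htU (Set.ncard_le_ncard hsub (Set.toFinite _))
  have heq := Set.eq_of_subset_of_ncard_le hsub hle (Set.toFinite _)
  have hzz : z ∈ {y | Rch R U ∅ t y} := by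
    rw [heq]
    exact Relation.ReflTransGen.refl
  exact hyt.trans hzz

theorem SPath.mono' {R : Net V} {M M' : Finset V} {ν : Bool} {u w : V} (h : SPath R M ν u w)
    (hM : M ⊆ M') : SPath R M' ν u w := by
  induction h generalizing M' with
  | arc h => exact SPath.arc h
  | @cons M ν ν' u a w h ha _ ih =>
    exact SPath.cons h (hM ha) (ih (Finset.erase_subset_erase _ hM))

theorem A95_append {R : Net V} {M K M' : Finset V} {ν ν' : Bool} {u a c : V}
    (h : SPath R M ν u a) (h' : SPath R K ν' a c) (ha : a ∉ M) (hMM : M ⊆ M') (haM : a ∈ M')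
    (haK : a ∉ K) (hK : K ⊆ M') (hKM : Disjoint K M) : SPath R M' (xor ν ν') u c := by
  induction h generalizing M' with
  | @arc M ν u a h =>
    refine SPath.cons h haM (SPath.mono' h' fun x hx => Finset.mem_erase.2 ⟨?_, hK hx⟩)
    rintro rfl
    exact haK hx
  | @cons M ν ν2 u b a h hb _ ih =>
    have hab : a ≠ b := fun e => ha (e ▸ hb)
    have h2 := ih h' (fun h => ha (Finset.mem_of_mem_erase h))
      (Finset.erase_subset_erase b hMM) (Finset.mem_erase.2 ⟨hab, haM⟩) haK
      (fun x hx => Finset.mem_erase.2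
        ⟨fun e => Finset.disjoint_left.1 hKM hx (e ▸ hb), hK hx⟩)
      (hKM.mono_right (Finset.erase_subset _ _))
    have h3 := SPath.cons h (hMM hb) h2
    rwa [← Bool.xor_assoc] at h3

/-- two paths with disjoint interiors can be joined -/
theorem SPath.append' {R : Net V} {M K : Finset V} {ν ν' : Bool} {u a c : V}
    (h : SPath R M ν u a) (h' : SPath R K ν' a c) (ha : a ∉ M) (haK : a ∉ K) (hKM : Disjoint K M) :
    SPath R (insert a (M ∪ K)) (xor ν ν') u c :=
  A95_append h h' ha (fun x hx => by simp [hx]) (by simp) haK (fun x hx => by simp [hx]) hKM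

theorem A95_coh {R : Net V} {M : Finset V} {ν : Bool} {u w : V}
    (h : SPath R M ν u w) : u ∉ M → ∀ c : Bool, ∃ D ⊆ M, ∃ q : V → Bool, q u = c ∧
      (∀ i ∈ D, ∃ j ∈ insert u D, Arc R (xor (q i) (q j)) j i) ∧
      ∃ j ∈ insert u D, Arc R (xor (xor c ν) (q j)) j w := by
  induction h with
  | @arc M ν u w h =>
    intro _ c
    refine ⟨∅, Finset.empty_subset _, fun _ => c, rfl, by simp, u, by simp, ?_⟩
    have e : xor (xor c ν) c = ν := by cases c <;> cases ν <;> rfl
    rw [e]
    exact h
  | @cons M ν ν' u a w h ha hp ih =>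
    intro hu c
    obtain ⟨D, hD, q, hqa, h1, j0, hj0, h2⟩ := ih (Finset.notMem_erase a M) (xor c ν)
    have hua : u ≠ a := fun e => hu (e ▸ ha)
    have huD : u ∉ D := fun e => hu (Finset.mem_of_mem_erase (hD e))
    have hq : ∀ j ∈ insert a D, update q u c j = q j := by
      intro j hj
      apply update_of_ne
      rintro rfl
      rw [Finset.mem_insert] at hj
      rcases hj with hj | hj
      · exact hua hj
      · exact huD hj
    refine ⟨insert a D, ?_, update q u c, update_self _ _ _, ?_, j0, Finset.mem_insert_of_mem hj0, ?_⟩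
    · intro i hi
      rw [Finset.mem_insert] at hi
      rcases hi with rfl | hi
      · exact ha
      · exact Finset.mem_of_mem_erase (hD hi)
    · intro i hi
      rw [Finset.mem_insert] at hi
      rcases hi with rfl | hi
      · refine ⟨u, Finset.mem_insert_self _ _, ?_⟩
        rw [update_self, hq i (Finset.mem_insert_self _ _), hqa]
        have e : xor (xor c ν) c = ν := by cases c <;> cases ν <;> rfl
        rw [e]
        exact h
      · obtain ⟨j, hj, hj'⟩ := h1 i hi
        refine ⟨j, Finset.mem_insert_of_mem hj, ?_⟩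
        rw [hq i (Finset.mem_insert_of_mem hi), hq j hj]
        exact hj'
    · rw [hq j0 hj0]
      have e : xor c (xor ν ν') = xor (xor c ν) ν' := (Bool.xor_assoc c ν ν').symm
      rw [e]
      exact h2

/-- a closed positive path gives a violation of `Good` -/
theorem closed_neg {R : Net V} {U : Finset V} (hG : Good R U) {M : Finset V} {a : V} (ha : a ∈ U)
    (hM : M ⊆ U) (haM : a ∉ M) : ¬ SPath R M false a a := by
  intro h
  obtain ⟨D, hD, q, hq, h1, j0, hj0, h2⟩ := A95_coh h haM false
  refine hG.neg (insert a D) ?_ ⟨a, Finset.mem_insert_self _ _⟩ q ?_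
  · intro i hi
    rcases Finset.mem_insert.1 hi with rfl | hi
    · exact ha
    · exact hM (hD hi)
  intro i hi
  rw [Finset.mem_insert] at hi
  rcases hi with rfl | hi
  · refine ⟨j0, hj0, ?_⟩
    rw [hq]
    exact h2
  · exact h1 i hi







-- T2_RT_h55.lean
/-!
# The response theorem for nets (`T1`, `T2`)
-/



section T12
variable {V : Type} [Fintype V] [DecidableEq V]

open Classical in
/-- `i` may flip at `x` -/
noncomputable def t1_M (R : Net V) : V → (V → Bool) → Bool := fun i x => decide (R i (!(x i)) x)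

open Classical in
/-- the goal `R w b` -/
noncomputable def t1_g (R : Net V) (w : V) (b : Bool) : (V → Bool) → Bool := fun x => decide (R w b x)

theorem t1_M_iff (R : Net V) (i : V) (x : V → Bool) : t1_M R i x = true ↔ R i (!(x i)) x := by
  simp [t1_M]

theorem t1_g_iff (R : Net V) (w : V) (b : Bool) (x : V → Bool) : t1_g R w b x = true ↔ R w b x := by
  simp [t1_g]

theorem t1_compat (R : Net V) (N : Finset V) :
    Pool.Agent.Lib.MP_8a6e71_co.RT.Compat (fun j i t => Arc R (!t) j i) (t1_M R) N := by
  intro i _ j hji x hxj hne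
  have hx1 : (update x j true) i = x i := update_of_ne (Ne.symm hji) _ _
  have hx0 : update x j false = x := by rw [← hxj]; exact update_eq_self j x
  have key : ¬ (R i (!(x i)) x ↔ R i (!(x i)) (update x j true)) := by
    intro h
    apply hne
    rw [Bool.eq_iff_iff, t1_M_iff, t1_M_iff, hx1]
    exact h
  have hM1 : t1_M R i (update x j true) = true ↔ R i (!(x i)) (update x j true) := by
    rw [t1_M_iff, hx1]
  by_cases h1 : R i (!(x i)) (update x j true)
  · have h0 : ¬ R i (!(x i)) x := fun h => key (iff_of_true h h1)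
    have hM : t1_M R i (update x j true) = true := hM1.2 h1
    show Arc R (!(t1_M R i (update x j true) != x i)) j i
    rw [hM]
    refine ⟨x, !(x i), ?_, ?_⟩
    · have : (!(xor (!(x i)) (!(true != x i)))) = false := by cases x i <;> rfl
      rw [this, hx0]; exact h0
    · have : (xor (!(x i)) (!(true != x i))) = true := by cases x i <;> rfl
      rw [this]; exact h1
  · have h0 : R i (!(x i)) x := by
      by_contra h
      exact key (iff_of_false h h1)
    have hM : t1_M R i (update x j true) = false := by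
      rw [← Bool.not_eq_true, hM1]; exact h1
    show Arc R (!(t1_M R i (update x j true) != x i)) j i
    rw [hM]
    refine ⟨x, !(x i), ?_, ?_⟩
    · have : (!(xor (!(x i)) (!(false != x i)))) = true := by cases x i <;> rfl
      rw [this]; exact h1
    · have : (xor (!(x i)) (!(false != x i))) = false := by cases x i <;> rfl
      rw [this, hx0]; exact h0

theorem t1_compatG (R : Net V) (w : V) (b : Bool) :
    Pool.Agent.Lib.MP_8a6e71_co.RT.CompatG (fun j s => Arc R (xor b s) j w) (t1_g R w b) := by
  intro j x hxj hne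
  have hx0 : update x j false = x := by rw [← hxj]; exact update_eq_self j x
  have key : ¬ (R w b x ↔ R w b (update x j true)) := by
    intro h
    apply hne
    rw [Bool.eq_iff_iff, t1_g_iff, t1_g_iff]
    exact h
  by_cases h1 : R w b (update x j true)
  · have h0 : ¬ R w b x := fun h => key (iff_of_true h h1)
    have hM : t1_g R w b (update x j true) = true := (t1_g_iff _ _ _ _).2 h1
    show Arc R (xor b (t1_g R w b (update x j true))) j w
    rw [hM]
    refine ⟨x, b, ?_, ?_⟩
    · have : (!(xor b (xor b true))) = false := by cases b <;> rfl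
      rw [this, hx0]; exact h0
    · have : (xor b (xor b true)) = true := by cases b <;> rfl
      rw [this]; exact h1
  · have h0 : R w b x := by
      by_contra h
      exact key (iff_of_false h h1)
    have hM : t1_g R w b (update x j true) = false := by
      rw [← Bool.not_eq_true, t1_g_iff]; exact h1
    show Arc R (xor b (t1_g R w b (update x j true))) j w
    rw [hM]
    refine ⟨x, b, ?_, ?_⟩
    · have : (!(xor b (xor b false))) = true := by cases b <;> rfl
      rw [this]; exact h1
    · have : (xor b (xor b false)) = false := by cases b <;> rfl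
      rw [this, hx0]; exact h0

theorem t1_spath (R : Net V) (w : V) (b : Bool) {N : Finset V} {e : V} {s : Bool}
    (h : Pool.Agent.Lib.MP_8a6e71_co.RT.SPath (fun j i t => Arc R (!t) j i) (fun j s => Arc R (xor b s) j w) N e s) :
    SPath R N (xor b s) e w := by
  induction h with
  | last h => exact SPath.arc h
  | @cons N e a t s' ha h hp ih =>
    have h1 := SPath.cons h ha ih
    have h2 : xor (!t) (xor b s') = xor b (t == s') := by
      cases t <;> cases b <;> cases s' <;> rfl
    rw [h2] at h1
    exact h1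

theorem t1_reach (R : Net V) (M F : Finset V) (x y : V → Bool) (h : Rch R M F x y) :
    Pool.Agent.Lib.MP_8a6e71_co.RT.Reach (t1_M R) M (fun i => i ∈ F) x y := by
  induction h with
  | refl => exact Relation.ReflTransGen.refl
  | @tail u v _ hstep ih =>
    rcases hstep with ⟨i, hi, b, hR, rfl⟩ | ⟨i, hi, b, rfl⟩
    · by_cases hb : b = u i
      · subst hb
        rw [update_eq_self]
        exact ih
      · have hb' : b = !(u i) := by revert hb; cases b <;> cases u i <;> simp
        subst hb'
        refine Relation.ReflTransGen.tail ih ⟨i, Or.inl ⟨hi, ?_⟩, rfl⟩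
        exact (t1_M_iff _ _ _).2 hR
    · by_cases hb : b = u i
      · subst hb
        rw [update_eq_self]
        exact ih
      · have hb' : b = !(u i) := by revert hb; cases b <;> cases u i <;> simp
        subst hb'
        exact Relation.ReflTransGen.tail ih ⟨i, Or.inr hi, rfl⟩

theorem t1_reach' (R : Net V) (M : Finset V) (x y : V → Bool)
    (h : Pool.Agent.Lib.MP_8a6e71_co.RT.Reach (t1_M R) M (fun _ => False) x y) : Rch R M ∅ x y := by
  induction h with
  | refl => exact Relation.ReflTransGen.refl
  | @tail u v _ hstep ih =>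
    obtain ⟨i, hi, rfl⟩ := hstep
    rcases hi with ⟨hi, hR⟩ | h
    · refine Relation.ReflTransGen.tail ih (Or.inl ⟨i, hi, !(u i), ?_, rfl⟩)
      exact (t1_M_iff _ _ _).1 hR
    · exact absurd h id

/-! ### T1: RESPONSE THEOREM -/
theorem t1_RT (R : Net V) (M : Finset V) (u w : V) (hu : u ∉ M)
    (b σ : Bool) (hp : ∀ ν, SPath R M ν u w → ν = σ)
    (x y : V → Bool) (hxy : Rch R M {u} x y) (hy : R w b y) :
    ∃ z, Rch R M ∅ (update x u (xor b σ)) z ∧ R w b z := by
  obtain ⟨z, hz, hg⟩ := Pool.Agent.Lib.MP_8a6e71_co.RT.rt _ M rfl (t1_M R) (t1_g R w b) (t1_compat R M) (t1_compatG R w b) u hu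
    (xor b σ) (by
      intro s hs
      have h1 := hp _ (t1_spath R w b hs)
      rw [← h1]
      cases b <;> cases s <;> rfl) x ⟨y, by
        have := t1_reach R M {u} x y hxy
        simpa using this, (t1_g_iff _ _ _ _).2 hy⟩
  exact ⟨z, t1_reach' R M _ _ hz, (t1_g_iff _ _ _ _).1 hg⟩

/-! ### T2: several inputs -/
theorem t2_RTm (R : Net V) (M E : Finset V) (hME : Disjoint M E) (w : V)
    (b : Bool) (σ : V → Bool) (hp : ∀ e ∈ E, ∀ ν, SPath R M ν e w → ν = σ e)
    (x y : V → Bool) (hxy : Rch R M E x y) (hy : R w b y) :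
    ∃ z, Rch R M ∅ (ow x (fun e => xor b (σ e)) E) z ∧ R w b z := by
  obtain ⟨z, hz, hg⟩ := Pool.Agent.Lib.MP_8a6e71_co.RT.rt_multi (t1_compat R M) (t1_compatG R w b)
    (fun e => xor b (σ e)) E hME.symm (by
      intro e he s hs
      have h1 := hp e he _ (t1_spath R w b hs)
      show s = xor b (σ e)
      rw [← h1]
      cases b <;> cases s <;> rfl) x ⟨y, t1_reach R M E x y hxy, (t1_g_iff _ _ _ _).2 hy⟩
  exact ⟨z, t1_reach' R M _ _ hz, (t1_g_iff _ _ _ _).1 hg⟩


/-- RT in the form with any input value (also `u = y` allowed) -/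
theorem rt1 (R : Net V) (M : Finset V) (u y : V) (hu : u ∉ M) (b σ : Bool)
    (hp : ∀ ν, SPath R M ν u y → ν = σ) (x z : V → Bool) (hxz : Rch R M {u} x z) (hz : R y b z) :
    ∃ z', Rch R M ∅ (update x u (xor b σ)) z' ∧ R y b z' :=
  t1_RT R M u y hu b σ hp x z hxz hz

/-- RTm, the inputs already have their favourable values -/
theorem rtmF (R : Net V) (M E : Finset V) (hME : Disjoint M E) (y : V) (b : Bool) (x z : V → Bool)
    (hp : ∀ e ∈ E, ∀ ν, SPath R M ν e y → xor b ν = x e)
    (hxz : Rch R M E x z) (hz : R y b z) : ∃ z', Rch R M ∅ x z' ∧ R y b z' := by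
  obtain ⟨z', hz', hR⟩ := t2_RTm R M E hME y b (fun e => xor b (x e)) (by
    intro e he ν hν
    have h1 := hp e he ν hν
    show ν = xor b (x e)
    rw [← h1]
    cases b <;> cases ν <;> rfl) x z hxz hz
  refine ⟨z', ?_, hR⟩
  have h2 : ow x (fun e => xor b (xor b (x e))) E = x := by
    funext v
    by_cases hv : v ∈ E
    · simp only [ow, hv, if_true]
      cases b <;> cases x v <;> rfl
    · simp [ow, hv]
  rwa [h2] at hz'

/-- the vertices of `F` are free -/
def frN (R : Net V) (F : Finset V) : Net V := fun i b x => i ∈ F ∨ R i b x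

theorem arc_frN {R : Net V} {F : Finset V} {ν : Bool} {j i : V} (h : Arc (frN R F) ν j i) :
    Arc R ν j i ∧ i ∉ F := by
  obtain ⟨x, b, h1, h2⟩ := h
  have hi : i ∉ F := fun hi => h1 (Or.inl hi)
  refine ⟨⟨x, b, fun h => h1 (Or.inr h), ?_⟩, hi⟩
  rcases h2 with h2 | h2
  · exact absurd h2 hi
  · exact h2

theorem spath_frN {R : Net V} {F M : Finset V} {ν : Bool} {u y : V}
    (h : SPath (frN R F) M ν u y) : SPath R (M \ F) ν u y := by
  induction h with
  | arc h => exact SPath.arc (arc_frN h).1
  | @cons M ν ν' u a w h ha hp ih =>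
    refine SPath.cons (arc_frN h).1 (Finset.mem_sdiff.2 ⟨ha, (arc_frN h).2⟩) ?_
    rw [Finset.erase_sdiff_comm] at ih
    exact ih

/-- RT with noise: the vertices of `F` stay free -/
theorem rt1F (R : Net V) (M F : Finset V) (hMF : Disjoint M F) (u y : V) (hu : u ∉ M) (huF : u ∉ F)
    (b σ : Bool) (hp : ∀ ν, SPath R M ν u y → ν = σ) (x z : V → Bool)
    (hxz : Rch R M (insert u F) x z) (hz : R y b z) :
    ∃ z', Rch R M F (update x u (xor b σ)) z' ∧ R y b z' := by
  classical
  set M' : V → (V → Bool) → Bool := fun i y => if i ∈ F then true else t1_M R i y with hM'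
  set E' : V → V → Bool → Prop := fun j i t => Arc R (!t) j i ∧ i ∉ F with hE'
  have hc : Pool.Agent.Lib.MP_8a6e71_co.RT.Compat E' M' (M ∪ F) := by
    intro i hi j hji y hyj hne
    by_cases hiF : i ∈ F
    · simp [hM', hiF] at hne
    · have hiN : i ∈ M := by
        rcases Finset.mem_union.1 hi with h | h
        · exact h
        · exact absurd h hiF
      simp only [hM', hiF, if_false] at hne ⊢
      exact ⟨t1_compat R M i hiN j hji y hyj hne, hiF⟩
  have huMF : u ∉ M ∪ F := by
    rw [Finset.mem_union]
    rintro (h | h)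
    · exact hu h
    · exact huF h
  obtain ⟨z', hz', hg⟩ := Pool.Agent.Lib.MP_8a6e71_co.RT.rt _ (M ∪ F) rfl M' (t1_g R y b) hc
    (t1_compatG R y b) u huMF (xor b σ) (by
      intro s hs
      have h2 := Pool.Agent.Lib.MP_8a6e71_co.RT.spath_restrict
        (E := fun j i t => Arc R (!t) j i) (F := F) (fun j i t h => h) hs
      rw [Finset.union_sdiff_right, Finset.sdiff_eq_self_of_disjoint hMF] at h2
      have h1 := hp _ (t1_spath R y b h2)
      rw [← h1]
      cases b <;> cases s <;> rfl) x ⟨z, by
        have h1 := t1_reach R M (insert u F) x z hxz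
        refine Relation.ReflTransGen.mono ?_ _ _ h1
        rintro a c ⟨i, hi, rfl⟩
        refine ⟨i, ?_, rfl⟩
        rcases hi with ⟨h2, h3⟩ | h2
        · left
          refine ⟨Finset.mem_union_left _ h2, ?_⟩
          simp only [hM']
          split_ifs
          · rfl
          · exact h3
        · rcases Finset.mem_insert.1 h2 with h | h
          · exact Or.inr h
          · left
            exact ⟨Finset.mem_union_right _ h, by simp [hM', h]⟩, (t1_g_iff _ _ _ _).2 hz⟩
  refine ⟨z', ?_, (t1_g_iff _ _ _ _).1 hg⟩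
  clear hg
  induction hz' with
  | refl => exact Relation.ReflTransGen.refl
  | @tail a c _ hstep ih =>
    obtain ⟨i, hi, rfl⟩ := hstep
    rcases hi with ⟨hi, hR⟩ | h
    · by_cases hiF : i ∈ F
      · exact Relation.ReflTransGen.tail ih (Or.inr ⟨i, hiF, !(a i), rfl⟩)
      · rcases Finset.mem_union.1 hi with h | h
        · refine Relation.ReflTransGen.tail ih (Or.inl ⟨i, h, !(a i), ?_, rfl⟩)
          simp only [hM', hiF, if_false] at hR
          exact (t1_M_iff _ _ _).1 hR
        · exact absurd h hiF
    · exact absurd h id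

end T12






/-! ### B: switching -/

/-- switch the vertices with `σ = true` -/
def sw (σ : St V) (R : Net V) : Net V := fun i b x => R i (xor b (σ i)) (fun j => xor (x j) (σ j))

-- T2_B_h6.lean
theorem swb1 (b ν s t : Bool) : xor (!(xor b ν)) t = !(xor (xor b s) (xor ν (xor s t))) := by
  cases b <;> cases ν <;> cases s <;> cases t <;> rfl

theorem swb2 (b ν s t : Bool) : xor (xor b ν) t = xor (xor b s) (xor ν (xor s t)) := by
  cases b <;> cases ν <;> cases s <;> cases t <;> rfl

theorem swb3 (a b s t u : Bool) :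
    xor (xor a (xor s t)) (xor b (xor u s)) = xor (xor a b) (xor u t) := by
  cases a <;> cases b <;> cases s <;> cases t <;> cases u <;> rfl

theorem swb4 (a b s t : Bool) : xor (xor a b) (xor s t) = xor (xor a s) (xor b t) := by
  cases a <;> cases b <;> cases s <;> cases t <;> rfl

theorem sw_upd (σ x : St V) (j : V) (c : Bool) :
    (fun k => xor (update x j c k) (σ k)) = update (fun k => xor (x k) (σ k)) j (xor c (σ j)) := by
  funext k
  by_cases hk : k = j
  · subst hk
    simp
  · simp [hk]

theorem sw_inv (σ x : St V) : (fun k => xor ((fun k => xor (x k) (σ k)) k) (σ k)) = x := by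
  funext k
  simp

theorem sw_sw (σ : St V) (R : Net V) : sw σ (sw σ R) = R := by
  funext i b x
  unfold sw
  rw [sw_inv]
  simp

theorem Arc_sw1 (σ : St V) (R : Net V) (ν : Bool) (j i : V) (h : Arc (sw σ R) ν j i) :
    Arc R (xor ν (xor (σ i) (σ j))) j i := by
  obtain ⟨x, b, h1, h2⟩ := h
  refine ⟨fun k => xor (x k) (σ k), xor b (σ i), ?_, ?_⟩
  · intro h3
    apply h1
    unfold sw
    rw [sw_upd, swb1 b ν (σ i) (σ j)]
    exact h3
  · unfold sw at h2
    rw [sw_upd, swb2 b ν (σ i) (σ j)] at h2
    exact h2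

theorem Arc_sw (σ : St V) (R : Net V) (ν : Bool) (j i : V) :
    Arc (sw σ R) ν j i ↔ Arc R (xor ν (xor (σ i) (σ j))) j i := by
  constructor
  · exact Arc_sw1 σ R ν j i
  · intro h
    have h1 : Arc (sw σ (sw σ R)) (xor ν (xor (σ i) (σ j))) j i := by
      rw [sw_sw]
      exact h
    have h2 := Arc_sw1 σ (sw σ R) _ j i h1
    rw [Bool.xor_assoc, Bool.xor_self, Bool.xor_false] at h2
    exact h2

theorem SPath_sw1 (σ : St V) (R : Net V) (M : Finset V) (ν : Bool) (j i : V)
    (h : SPath (sw σ R) M ν j i) : SPath R M (xor ν (xor (σ i) (σ j))) j i := by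
  induction h with
  | arc h => exact SPath.arc (Arc_sw1 σ R _ _ _ h)
  | @cons M ν ν' u a w h ha hp ih =>
    have h1 := SPath.cons (Arc_sw1 σ R _ _ _ h) ha ih
    rw [swb3] at h1
    exact h1

theorem SPath_sw (σ : St V) (R : Net V) (M : Finset V) (ν : Bool) (j i : V) :
    SPath (sw σ R) M ν j i ↔ SPath R M (xor ν (xor (σ i) (σ j))) j i := by
  constructor
  · exact SPath_sw1 σ R M ν j i
  · intro h
    have h1 : SPath (sw σ (sw σ R)) M (xor ν (xor (σ i) (σ j))) j i := by
      rw [sw_sw]
      exact h
    have h2 := SPath_sw1 σ (sw σ R) M _ j i h1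
    rw [Bool.xor_assoc, Bool.xor_self, Bool.xor_false] at h2
    exact h2

theorem Rch_sw1 (σ : St V) (R : Net V) (M F : Finset V) (x y : St V)
    (h : Rch (sw σ R) M F x y) :
    Rch R M F (fun j => xor (x j) (σ j)) (fun j => xor (y j) (σ j)) := by
  induction h with
  | refl => exact Relation.ReflTransGen.refl
  | tail _ hm ih =>
    refine Relation.ReflTransGen.tail ih ?_
    rcases hm with ⟨i, hi, b, hb, rfl⟩ | ⟨i, hi, b, rfl⟩
    · exact Or.inl ⟨i, hi, xor b (σ i), hb, sw_upd σ _ i b⟩
    · exact Or.inr ⟨i, hi, xor b (σ i), sw_upd σ _ i b⟩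

theorem Rch_sw (σ : St V) (R : Net V) (M F : Finset V) (x y : St V) :
    Rch (sw σ R) M F x y ↔ Rch R M F (fun j => xor (x j) (σ j)) (fun j => xor (y j) (σ j)) := by
  constructor
  · exact Rch_sw1 σ R M F x y
  · intro h
    have h1 : Rch (sw σ (sw σ R)) M F (fun j => xor (x j) (σ j)) (fun j => xor (y j) (σ j)) := by
      rw [sw_sw]
      exact h
    have h2 := Rch_sw1 σ (sw σ R) M F _ _ h1
    rw [sw_inv, sw_inv] at h2
    exact h2

theorem att_sw (σ : St V) (R : Net V) (U : Finset V) (x z : St V) :
    z ∈ att (sw σ R) U x ↔ (fun j => xor (z j) (σ j)) ∈ att R U (fun j => xor (x j) (σ j)) := by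
  constructor
  · intro h y hy
    have h1 := h (fun j => xor (y j) (σ j)) (by
      intro j hj
      show xor (y j) (σ j) = x j
      rw [hy j hj]
      simp)
    have h2 := (Rch_sw σ R U ∅ _ _).1 h1
    rw [sw_inv] at h2
    exact h2
  · intro h y hy
    refine (Rch_sw σ R U ∅ _ _).2 (h _ ?_)
    intro j hj
    show xor (y j) (σ j) = xor (x j) (σ j)
    rw [hy j hj]

theorem Good_sw (σ : St V) {R : Net V} {U : Finset V} (h : Good R U) : Good (sw σ R) U := by
  constructor
  · intro i hi x
    have h1 := h.tot i hi (fun j => xor (x j) (σ j))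
    unfold sw
    cases hs : σ i
    · rw [Bool.xor_false, Bool.xor_false]
      exact h1
    · rcases h1 with h1 | h1
      · exact Or.inr h1
      · exact Or.inl h1
  · intro D hD hne s hall
    refine h.neg D hD hne (fun j => xor (s j) (σ j)) ?_
    intro i hi
    obtain ⟨j, hj, hji⟩ := hall i hi
    refine ⟨j, hj, ?_⟩
    have h1 := Arc_sw1 σ R _ j i hji
    rw [swb4] at h1
    exact h1

theorem wv_sw (σ : St V) (x0 : St V) (w v : V) (a b : Bool) (hσw : σ w = false)
    (hσv : σ v = false) :
    (fun j => xor (wv (fun j => xor (x0 j) (σ j)) w v a b j) (σ j)) = wv x0 w v a b := by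
  funext k
  unfold wv
  by_cases hk : k = v
  · subst hk
    simp [hσv]
  · by_cases hk2 : k = w
    · subst hk2
      simp [hk, hσw]
    · simp [hk, hk2]

/-- switching vertices of `U` -/
theorem D_sw (σ : St V) {R : Net V} {U : Finset V} {w v p q : V} {x0 : St V}
    (h : D R U w v p q x0) (hσw : σ w = false) (hσv : σ v = false) (hσp : σ p = false)
    (hσq : σ q = false) : D (sw σ R) U w v p q (fun j => xor (x0 j) (σ j)) := by
  have key : ∀ (a b : Bool) (z : St V),
      z ∈ att (sw σ R) U (wv (fun j => xor (x0 j) (σ j)) w v a b) →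
      (fun j => xor (z j) (σ j)) ∈ att R U (wv x0 w v a b) := by
    intro a b z hz
    have h1 := (att_sw σ R U _ z).1 hz
    rw [wv_sw σ x0 w v a b hσw hσv] at h1
    exact h1
  have key2 : ∀ (a b : Bool) (z : St V), z ∈ att R U (wv x0 w v a b) →
      (fun j => xor (z j) (σ j)) ∈ att (sw σ R) U (wv (fun j => xor (x0 j) (σ j)) w v a b) := by
    intro a b z hz
    rw [att_sw, wv_sw σ x0 w v a b hσw hσv, sw_inv]
    exact hz
  refine ⟨Good_sw σ h.good, h.hw, h.hv, h.hp, h.hq, h.hwv, ?_, ?_, ?_, ?_, ?_, ?_, ?_⟩
  · intro x hx hR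
    refine h.c1 _ (key false true x hx) ?_
    unfold sw at hR
    rw [hσp, Bool.xor_false] at hR
    exact hR
  · obtain ⟨x, hx, hR⟩ := h.c2
    refine ⟨_, key2 false true x hx, ?_⟩
    unfold sw
    rw [sw_inv, hσq, Bool.xor_false]
    exact hR
  · intro x hx hR
    refine h.c3 _ (key true true x hx) ?_
    unfold sw at hR
    rw [hσq, Bool.xor_false] at hR
    exact hR
  · obtain ⟨x, hx, z, hxz, hR⟩ := h.c4
    refine ⟨_, key2 false true x hx, fun j => xor (z j) (σ j), ?_, ?_⟩
    · rw [Rch_sw, sw_inv, sw_inv]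
      exact hxz
    · unfold sw
      rw [sw_inv, hσp, Bool.xor_false]
      exact hR
  · intro ν hν
    have h1 := h.S1 _ (SPath_sw1 σ R U ν w p hν)
    rw [hσp, hσw] at h1
    simpa using h1
  · intro ν hν
    have h1 := h.S2 _ (SPath_sw1 σ R U ν v q hν)
    rw [hσq, hσv] at h1
    simpa using h1
  · intro M1 M2 ν1 ν2 h1 h2 hd hP1 hP2
    have h3 := h.S3 M1 M2 _ _ h1 h2 hd (SPath_sw1 σ R M1 ν1 w q hP1) (SPath_sw1 σ R M2 ν2 v p hP2)
    rw [hσp, hσw, hσq, hσv] at h3
    simpa using h3

theorem rd_sw (σ : St V) (R : Net V) (U : Finset V) (w : V) : rd (sw σ R) U w = rd R U w := by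
  classical
  unfold rd
  congr 1
  ext a
  simp only [Finset.mem_filter]
  refine and_congr_right fun _ => ?_
  constructor
  · rintro ⟨ν, hν⟩
    exact ⟨_, (Arc_sw σ R ν w a).1 hν⟩
  · rintro ⟨ν, hν⟩
    refine ⟨xor ν (xor (σ a) (σ w)), (Arc_sw σ R _ w a).2 ?_⟩
    rw [Bool.xor_assoc, Bool.xor_self, Bool.xor_false]
    exact hν







/-! ### C: Lemma II.  `al`, `be` inputs with base values `ca`, `cb` (values in `x0`); outputs
`A = bA`, `B = bB`.  A path `al → y` of sign `ν` HELPS `y := b` iff `xor b ν` is the non-base value. -/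
-- T2_LemII_h28.lean
/-- the vertices of `T` see `al` free -/
def C_net (R : Net V) (al : V) (T : Finset V) : Net V :=
  fun i b x => R i b x ∨ (i ∈ T ∧ ∃ c, R i b (update x al c))

theorem C_arc {R : Net V} {al : V} {T : Finset V} {ν : Bool} {j i : V}
    (h : Arc (C_net R al T) ν j i) : Arc R ν j i := by
  obtain ⟨x, b, h1, h2⟩ := h
  rcases h2 with h2 | ⟨hi, c, h2⟩
  · exact ⟨x, b, fun h => h1 (Or.inl h), h2⟩
  · by_cases hj : j = al
    · subst hj
      exfalso
      refine h1 (Or.inr ⟨hi, c, ?_⟩)
      rw [update_idem] at h2 ⊢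
      exact h2
    · refine ⟨update x al c, b, fun h => h1 (Or.inr ⟨hi, c, ?_⟩), ?_⟩
      · rw [update_comm hj]; exact h
      · rw [update_comm hj] at h2; exact h2

theorem C_path {R : Net V} {al : V} {T : Finset V} {M : Finset V} {ν : Bool} {u w : V}
    (h : SPath (C_net R al T) M ν u w) : SPath R M ν u w := by
  induction h with
  | arc h => exact SPath.arc (C_arc h)
  | cons h1 h2 _ ih => exact SPath.cons (C_arc h1) h2 ih

theorem C_good {R : Net V} {al : V} {T U : Finset V} (h : Good R U) :
    Good (C_net R al T) U := by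
  refine ⟨fun i hi x => ?_, fun D hD hne s hs => ?_⟩
  · rcases h.tot i hi x with h | h
    · exact Or.inl (Or.inl h)
    · exact Or.inr (Or.inl h)
  · refine h.neg D hD hne s fun i hi => ?_
    obtain ⟨j, hj, hj'⟩ := hs i hi
    exact ⟨j, hj, C_arc hj'⟩

theorem C_rch {R R' : Net V} {U F : Finset V} (h : ∀ i ∈ U, ∀ b x, R i b x → R' i b x)
    {x z : V → Bool} (hxz : Rch R U F x z) : Rch R' U F x z := by
  refine Relation.ReflTransGen.mono (fun p q hs => ?_) _ _ hxz
  rcases hs with ⟨i, hi, b, hb, rfl⟩ | hs
  · exact Or.inl ⟨i, hi, b, h i hi b p hb, rfl⟩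
  · exact Or.inr hs

/-- a run of the noise network is a run of `R` with `al` free -/
theorem C_sim {R : Net V} {al : V} {T U : Finset V} (hal : al ∉ U) {x z : V → Bool}
    (h : Rch (C_net R al T) U ∅ x z) : Rch R U {al} x z := by
  induction h with
  | refl => exact Relation.ReflTransGen.refl
  | @tail y z _ hs ih =>
    rcases hs with ⟨i, hi, b, hb, rfl⟩ | ⟨i, hi, -⟩
    · have hia : i ≠ al := by rintro rfl; exact hal hi
      rcases hb with hb | ⟨-, c, hb⟩
      · exact ih.tail (Or.inl ⟨i, hi, b, hb, rfl⟩)
      · refine ((ih.tail (Or.inr ⟨al, Finset.mem_singleton_self _, c, rfl⟩)).tail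
          (Or.inl ⟨i, hi, b, hb, rfl⟩)).tail
          (Or.inr ⟨al, Finset.mem_singleton_self _, y al, ?_⟩)
        rw [update_comm hia, update_idem, update_eq_self]
    · exact absurd hi (Finset.notMem_empty i)

/-- with all vertices of `U` in the noise set, a run with `al` free is a run of the noise net -/
theorem C_sim' {R : Net V} {al : V} {U : Finset V} (hal : al ∉ U) {x z : V → Bool}
    (h : Rch R U {al} x z) (e : Bool) :
    Rch (C_net R al U) U ∅ (update x al e) (update z al e) := by
  induction h with
  | refl => exact Relation.ReflTransGen.refl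
  | @tail y z _ hs ih =>
    rcases hs with ⟨i, hi, b, hb, rfl⟩ | ⟨i, hi, b, rfl⟩
    · have hia : i ≠ al := by rintro rfl; exact hal hi
      refine ih.tail (Or.inl ⟨i, hi, b, Or.inr ⟨hi, y al, ?_⟩, ?_⟩)
      · rw [update_idem, update_eq_self]; exact hb
      · rw [update_comm hia]
    · have hia : i = al := Finset.mem_singleton.1 hi
      subst hia
      rw [update_idem]; exact ih

theorem C_switch (P : Finset V → Prop) (U : Finset V) (h0 : P ∅) (h1 : ¬ P U) :
    ∃ T a, a ∈ U ∧ a ∉ T ∧ T ⊆ U ∧ P T ∧ ¬ P (insert a T) := by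
  have key : ∀ S : Finset V, S ⊆ U → ¬ P S →
      ∃ T a, a ∈ U ∧ a ∉ T ∧ T ⊆ U ∧ P T ∧ ¬ P (insert a T) := by
    intro S
    induction S using Finset.induction_on with
    | empty => intro _ h; exact absurd h0 h
    | @insert a S ha ih =>
      intro hS hn
      by_cases hPS : P S
      · exact ⟨S, a, hS (Finset.mem_insert_self _ _), ha,
          fun i hi => hS (Finset.mem_insert_of_mem hi), hPS, hn⟩
      · exact ih (fun i hi => hS (Finset.mem_insert_of_mem hi)) hPS
  exact key U (Finset.Subset.refl _) h1

theorem C_x1 : ∀ b ν e : Bool, (xor b ν) = e → ν = (xor b e) := by decide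

theorem C_x2 : ∀ b e : Bool, (xor b (xor b e)) = e := by decide

theorem C_x3 : ∀ a b : Bool, a ≠ b → a = !b := by decide

theorem C_x4 : ∀ b μ ν e : Bool, (xor b (xor μ ν)) = e → (xor b ν) = (xor μ e) := by decide

theorem C_x5 : ∀ b μ ν e : Bool, (xor b ν) = (!(xor μ e)) → (xor b (xor μ ν)) = !e := by decide

theorem C_main : ∀ (n : ℕ) (R : Net V) (U : Finset V) (_ : U.card = n) (al be A B : V)
    (bA bB : Bool) (x0 : St V)
    (_ : Good R U) (_ : al ∉ U) (_ : be ∉ U) (_ : al ≠ be) (_ : A ∉ U) (_ : B ∉ U)
    (_ : ∀ x ∈ att R U x0, ¬ R A bA x) (_ : ∀ x ∈ att R U x0, ¬ R B bB x)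
    (_ : ∃ x ∈ att R U x0, ∃ z, Rch R U {al} x z ∧ R A bA z)
    (_ : ∃ x ∈ att R U x0, ∃ z, Rch R U {be} x z ∧ R B bB z)
    (_ : ∀ ν, SPath R U ν al B → xor bB ν = x0 al)
    (_ : ∀ M1 M2 ν1 ν2, M1 ⊆ U → M2 ⊆ U → Disjoint M1 M2 → SPath R M1 ν1 al A →
      SPath R M2 ν2 be B → xor bA ν1 = !(x0 al) → xor bB ν2 = !(x0 be) → False), False := by
  intro n
  induction n using Nat.strong_induction_on with
  | _ n IH =>
  intro R U hn al be A B bA bB x0 hG hal hbe hab hA hB h1 h1' h2 h3 H1 H2
  obtain ⟨x2, hx2, z2, hz2, hA2⟩ := h2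
  obtain ⟨x3, hx3, z3, hz3, hB3⟩ := h3
  -- a helping path `be → B`
  have hbeB : ∃ ν2, SPath R U ν2 be B ∧ xor bB ν2 = !(x0 be) := by
    by_contra hcon
    push Not at hcon
    have hp : ∀ ν, SPath R U ν be B → ν = xor bB (x0 be) := by
      intro ν hν
      have h5 := hcon ν hν
      have h6 : xor bB ν = x0 be := by
        have := C_x3 _ _ h5
        rw [this, Bool.not_not]
      exact C_x1 _ _ _ h6
    obtain ⟨z', h4, h5⟩ := rt1 R U be B hbe bB _ hp x3 z3 hz3 hB3
    rw [C_x2, ← att_frozen hx3 be hbe, update_eq_self] at h4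
    exact h1' z' (att_closed hx3 h4) h5
  -- noise nets
  have hsubR : ∀ T : Finset V, ∀ i ∈ U, ∀ b x, R i b x → C_net R al T i b x :=
    fun T i _ b x h => Or.inl h
  -- `B` stays off
  have hBoff : ∀ T : Finset V, ∀ z ∈ att (C_net R al T) U x0, ¬ R B bB z := by
    intro T z hz hRz
    have h4 : Rch (C_net R al T) U ∅ x3 z := hz x3 (fun j hj => att_frozen hx3 j hj)
    have h5 := C_sim hal h4
    obtain ⟨z', h6, h7⟩ := rt1 R U al B hal bB (xor bB (x0 al))
      (fun ν hν => C_x1 _ _ _ (H1 ν hν)) x3 z h5 hRz
    rw [C_x2, ← att_frozen hx3 al hal, update_eq_self] at h6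
    exact h1' z' (att_closed hx3 h6) h7
  by_cases hPU : ∀ x ∈ att (C_net R al U) U x0, ¬ R A bA x
  · -- the output `A` itself reads `al`
    have hx2' : x2 ∈ att (C_net R al U) U x0 :=
      fun y hy => C_rch (hsubR U) (hx2 y hy)
    have h4 := C_sim' hal hz2 (x0 al)
    rw [← att_frozen hx2 al hal, update_eq_self] at h4
    have h5 := att_closed hx2' h4
    have h6 := hPU _ h5
    have hne : z2 al ≠ x2 al := by
      intro h
      rw [← h, update_eq_self] at h6
      exact h6 hA2
    have h7 : z2 al = !(x0 al) := by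
      rw [att_frozen hx2 al hal] at hne
      exact C_x3 _ _ hne
    have harc : Arc R (xor bA (!(x0 al))) al A := by
      refine ⟨z2, bA, ?_, ?_⟩
      · rw [C_x2, Bool.not_not, ← att_frozen hx2 al hal]
        exact h6
      · rw [C_x2, ← h7, update_eq_self]
        exact hA2
    obtain ⟨ν2, h8, h9⟩ := hbeB
    exact H2 ∅ U _ ν2 (Finset.empty_subset _) (Finset.Subset.refl _)
      (Finset.disjoint_empty_left _) (SPath.arc harc) h8 (C_x2 _ _) h9
  · have hP0 : ∀ x ∈ att (C_net R al ∅) U x0, ¬ R A bA x := by
      intro x hx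
      refine h1 x fun y hy => ?_
      refine C_rch (fun i _ b x h => ?_) (hx y hy)
      rcases h with h | ⟨h, -⟩
      · exact h
      · exact absurd h (Finset.notMem_empty i)
    obtain ⟨T, a, haU, haT, hTU, hPT, hPT'⟩ :=
      C_switch (fun T => ∀ x ∈ att (C_net R al T) U x0, ¬ R A bA x) U hP0 hPU
    push Not at hPT'
    obtain ⟨x1, hx1, hAx1⟩ := hPT'
    have haA : a ≠ A := by rintro rfl; exact hA haU
    have haB : a ≠ B := by rintro rfl; exact hB haU
    have haal : a ≠ al := by rintro rfl; exact hal haU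
    have habe : a ≠ be := by rintro rfl; exact hbe haU
    have hGN : Good (C_net R al T) U := C_good hG
    have hmove : ∀ i, i ≠ a → ∀ b x, C_net R al (insert a T) i b x → C_net R al T i b x := by
      intro i hi b x h
      rcases h with h | ⟨h, h'⟩
      · exact Or.inl h
      · exact Or.inr ⟨(Finset.mem_insert.1 h).resolve_left hi, h'⟩
    by_cases hcase : ∃ μ, Arc R μ al a ∧ ∃ x ∈ att (C_net R al T) U x0, x a = xor μ (x0 al)
    · -- induction: `a` in place of `al`
      obtain ⟨μ, hμ, xc, hxc, hxca⟩ := hcase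
      have hcard : (U.erase a).card < n := by
        rw [← hn]; exact Finset.card_erase_lt_of_mem haU
      have hsubU : U.erase a ⊆ U := Finset.erase_subset _ _
      have hGN' : Good (C_net R al T) (U.erase a) := hGN.mono hsubU
      obtain ⟨t, ht⟩ := att_nonempty hGN' xc
      have hta : t a = xor μ (x0 al) := by
        rw [att_frozen ht a (Finset.notMem_erase a U), hxca]
      have htf : ∀ j, j ∉ U → t j = x0 j := by
        intro j hj
        rw [att_frozen ht j (fun h => hj (Finset.mem_of_mem_erase h)),
          att_frozen hxc j hj]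
      have hsub := att_sub (R := C_net R al T) hsubU hxc
      have hBpath : ∀ ν, SPath (C_net R al T) (U.erase a) ν a B →
          xor bB ν = xor μ (x0 al) := by
        intro ν hν
        have h4 := SPath.cons hμ haU (C_path hν)
        exact C_x4 _ _ _ _ (H1 _ h4)
      refine IH _ hcard (C_net R al T) (U.erase a) rfl a be A B bA bB xc hGN'
        (Finset.notMem_erase a U) (fun h => hbe (Finset.mem_of_mem_erase h)) habe
        (fun h => hA (Finset.mem_of_mem_erase h)) (fun h => hB (Finset.mem_of_mem_erase h))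
        ?_ ?_ ?_ ?_ ?_ ?_
      · rintro x hx (h | ⟨h, -⟩)
        · exact hPT x (hsub hx) h
        · exact hA (hTU h)
      · rintro x hx (h | ⟨h, -⟩)
        · exact hBoff T x (hsub hx) h
        · exact hB (hTU h)
      · refine ⟨t, ht, x1, ?_, Or.inl hAx1⟩
        have h4 : Rch (C_net R al (insert a T)) U ∅ t x1 := hx1 t htf
        refine Relation.ReflTransGen.mono (fun p q hs => ?_) _ _ h4
        rcases hs with ⟨i, hi, b, hb, rfl⟩ | ⟨i, hi, -⟩
        · by_cases hia : i = a
          · exact Or.inr ⟨i, by simp [hia], b, rfl⟩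
          · exact Or.inl ⟨i, Finset.mem_erase.2 ⟨hia, hi⟩, b, hmove i hia b p hb, rfl⟩
        · exact absurd hi (Finset.notMem_empty i)
      · have h4 : Rch R U {be} t z3 := by
          have h5 : Rch R U ∅ t x3 := hx3 t htf
          have h6 : Rch R U {be} t x3 := Rch.mono (by intro j hj; simp [hj]) (by simp) h5
          exact h6.trans hz3
        have h5 : Rch (C_net R al T) (U.erase a) (insert a {be}) t z3 := by
          refine Relation.ReflTransGen.mono (fun p q hs => ?_) _ _ h4
          rcases hs with ⟨i, hi, b, hb, rfl⟩ | ⟨i, hi, b, rfl⟩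
          · by_cases hia : i = a
            · exact Or.inr ⟨i, by simp [hia], b, rfl⟩
            · exact Or.inl ⟨i, Finset.mem_erase.2 ⟨hia, hi⟩, b, Or.inl hb, rfl⟩
          · exact Or.inr ⟨i, Finset.mem_insert_of_mem hi, b, rfl⟩
        have hd : Disjoint (U.erase a) {be} := by
          rw [Finset.disjoint_singleton_right]
          exact fun h => hbe (Finset.mem_of_mem_erase h)
        obtain ⟨z', h6, h7⟩ := rt1F (C_net R al T) (U.erase a) {be} hd a B
          (Finset.notMem_erase a U) (by simp [habe]) bB (xor bB (xor μ (x0 al)))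
          (fun ν hν => C_x1 _ _ _ (hBpath ν hν)) t z3 h5 (Or.inl hB3)
        rw [C_x2, ← hta, update_eq_self] at h6
        exact ⟨t, ht, z', h6, h7⟩
      · intro ν hν
        rw [hxca]
        exact hBpath ν hν
      · intro M1 M2 ν1 ν2 hM1 hM2 hd hp1 hp2 he1 he2
        have haM1 : a ∉ M1 := fun h => Finset.notMem_erase a U (hM1 h)
        have haM2 : a ∉ M2 := fun h => Finset.notMem_erase a U (hM2 h)
        have h4 : SPath R (insert a M1) (xor μ ν1) al A := by
          refine SPath.cons hμ (Finset.mem_insert_self _ _) ?_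
          rw [Finset.erase_insert haM1]
          exact C_path hp1
        refine H2 (insert a M1) M2 _ ν2 ?_ (hM2.trans hsubU) ?_ h4 (C_path hp2) ?_ ?_
        · intro i hi
          rcases Finset.mem_insert.1 hi with rfl | hi
          · exact haU
          · exact hsubU (hM1 hi)
        · rw [Finset.disjoint_insert_left]
          exact ⟨haM2, hd⟩
        · rw [hxca] at he1
          exact C_x5 _ _ _ _ he1
        · rw [att_frozen hxc be hbe] at he2
          exact he2
    · -- `al` free changes nothing for `a`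
      push Not at hcase
      obtain ⟨x, hx⟩ := att_nonempty hGN x0
      have h4 : Rch (C_net R al (insert a T)) U ∅ x x1 :=
        hx1 x (fun j hj => att_frozen hx j hj)
      have h5 : ∀ z, Rch (C_net R al (insert a T)) U ∅ x z → z ∈ att (C_net R al T) U x0 := by
        intro z hz
        induction hz with
        | refl => exact hx
        | @tail y z _ hs ih =>
          rcases hs with ⟨i, hi, b, hb, rfl⟩ | ⟨i, hi, -⟩
          · have hgo : C_net R al T i b y → update y i b ∈ att (C_net R al T) U x0 :=
              fun h => att_closed ih (Relation.ReflTransGen.single (Or.inl ⟨i, hi, b, h, rfl⟩))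
            by_cases hia : i = a
            · subst hia
              rcases hb with hb | ⟨-, c, hb⟩
              · exact hgo (Or.inl hb)
              · by_cases hRb : R i b y
                · exact hgo (Or.inl hRb)
                · have hyal : y al = x0 al := att_frozen ih al hal
                  have hc : c ≠ y al := by
                    intro h
                    rw [h, update_eq_self] at hb
                    exact hRb hb
                  have hc' : c = !(x0 al) := by
                    rw [hyal] at hc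
                    exact C_x3 _ _ hc
                  have harc : Arc R (xor b (!(x0 al))) al i := by
                    refine ⟨y, b, ?_, ?_⟩
                    · rw [C_x2, Bool.not_not, ← hyal, update_eq_self]
                      exact hRb
                    · rw [C_x2, ← hc']
                      exact hb
                  have h6 := hcase _ harc y ih
                  have h7 : y i = b := by
                    have h8 := C_x3 _ _ h6
                    rw [h8]
                    cases b <;> cases x0 al <;> rfl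
                  rw [← h7, update_eq_self]
                  exact ih
            · exact hgo (hmove i hia b y hb)
          · exact absurd hi (Finset.notMem_empty i)
      exact hPT x1 (h5 x1 h4) hAx1

theorem LemII (R : Net V) (U : Finset V) (al be A B : V) (bA bB : Bool) (x0 : St V)
    (hG : Good R U) (hal : al ∉ U) (hbe : be ∉ U) (hab : al ≠ be) (hA : A ∉ U) (hB : B ∉ U)
    (h1 : ∀ x ∈ att R U x0, ¬ R A bA x) (h1' : ∀ x ∈ att R U x0, ¬ R B bB x)
    (h2 : ∃ x ∈ att R U x0, ∃ z, Rch R U {al} x z ∧ R A bA z)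
    (h3 : ∃ x ∈ att R U x0, ∃ z, Rch R U {be} x z ∧ R B bB z)
    (H1 : ∀ ν, SPath R U ν al B → xor bB ν = x0 al)
    (H2 : ∀ M1 M2 ν1 ν2, M1 ⊆ U → M2 ⊆ U → Disjoint M1 M2 → SPath R M1 ν1 al A →
      SPath R M2 ν2 be B → xor bA ν1 = !(x0 al) → xor bB ν2 = !(x0 be) → False) : False :=
  C_main _ R U rfl al be A B bA bB x0 hG hal hbe hab hA hB h1 h1' h2 h3 H1 H2

/-! ### D: consequences of minimality.  `x01`, `x11` = `wv x0 w v false true`, `wv x0 w v true true` -/

section Mins
variable {R : Net V} {U : Finset V} {w v p q : V} {x0 : St V}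

-- T2_MR_h60.lean
section
variable {V : Type} [Fintype V] [DecidableEq V]

/-- helper60: without an arc from `w` the rule of `i` does not depend on `w` -/
theorem MR_indep {R : Net V} {w i : V} (h : ∀ ν, ¬ Arc R ν w i) (b c : Bool) (x : St V)
    (hx : R i b x) : R i b (update x w c) := by
  by_contra hn
  apply h (xor b (x w))
  refine ⟨x, b, ?_, ?_⟩
  · have e : (!(xor b (xor b (x w)))) = c := by
      have hne : c ≠ x w := by
        rintro rfl
        exact hn (by rwa [update_eq_self])
      revert hne
      cases b <;> cases c <;> cases x w <;> simp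
    rw [e]
    exact hn
  · have e : xor b (xor b (x w)) = x w := by
      cases b <;> cases x w <;> rfl
    rw [e, update_eq_self]
    exact hx

theorem MR_rch {R : Net V} {U : Finset V} {w : V} (hw : w ∉ U)
    (h : ∀ i ∈ U, ∀ ν, ¬ Arc R ν w i) (c : Bool) {x y : St V} (hxy : Rch R U ∅ x y) :
    Rch R U ∅ (update x w c) (update y w c) := by
  induction hxy with
  | refl => exact Relation.ReflTransGen.refl
  | @tail a b' _ hs ih =>
    rcases hs with ⟨i, hi, b, hR, rfl⟩ | ⟨i, hi, _⟩
    · refine ih.tail (Or.inl ⟨i, hi, b, MR_indep (h i hi) b c a hR, ?_⟩)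
      have hne : i ≠ w := fun e => hw (e ▸ hi)
      rw [update_comm hne]
    · exact absurd hi (Finset.notMem_empty i)

section Mins
variable {R : Net V} {U : Finset V} {w v p q : V} {x0 : St V}

/-- (MR) there is a reader in `U` -/
theorem MR (h : D R U w v p q x0) (hmin : Min R U w) : ∃ a ∈ U, ∃ ν, Arc R ν w a := by
  by_contra hno
  push Not at hno
  obtain ⟨x, hx, hxq⟩ := h.c2
  have hxw : x w = false := by
    rw [att_frozen hx w h.hw]
    simp [wv, update_of_ne h.hwv]
  have hxv : x v = true := by
    rw [att_frozen hx v h.hv]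
    simp [wv]
  -- the state with `w` up is in `X_11`
  have hy : update x w true ∈ att R U (wv x0 w v true true) := by
    intro y hyU
    have h1 : ∀ j, j ∉ U → update y w false j = wv x0 w v false true j := by
      intro j hj
      by_cases hjw : j = w
      · subst hjw
        simp [wv, update_of_ne h.hwv]
      · rw [update_of_ne hjw, hyU j hj]
        by_cases hjv : j = v
        · subst hjv
          simp [wv]
        · simp [wv, update_of_ne hjv, update_of_ne hjw]
    have h2 := MR_rch h.hw hno true (hx _ h1)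
    have h3 : update (update y w false) w true = y := by
      rw [update_idem]
      have h4 : y w = true := by
        rw [hyU w h.hw]
        simp [wv, update_of_ne h.hwv]
      rw [← h4, update_eq_self]
    rwa [h3] at h2
  have hq := h.c3 _ hy
  have harc : Arc R false w q := by
    refine ⟨x, false, ?_, ?_⟩
    · simpa using hq
    · have e : update x w (xor false false) = x := by
        have : xor false false = x w := by rw [hxw]; rfl
        rw [this, update_eq_self]
      rw [e]
      exact hxq
  obtain ⟨x4, hx4, z, hz, hzp⟩ := h.c4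
  obtain ⟨z', h5, h6⟩ := rt1 R U v p h.hv true false
    (fun ν hν => (h.S3 ∅ U false ν (Finset.empty_subset _) (Finset.Subset.refl _)
      (Finset.disjoint_empty_left _) (SPath.arc harc) hν).symm) x4 z hz hzp
  have hx4v : x4 v = true := by
    rw [att_frozen hx4 v h.hv]
    simp [wv]
  have e : update x4 v (xor true false) = x4 := by
    have : xor true false = x4 v := by rw [hx4v]; rfl
    rw [this, update_eq_self]
  rw [e] at h5
  exact h.c1 z' (att_closed hx4 h5) h6

/-- (M0p) every reader has a path to `p`, hence all simple paths `a → p` have the sign of the arc -/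
theorem M0p (h : D R U w v p q x0) (hmin : Min R U w) (a : V) (ha : a ∈ U) (σ : Bool)
    (har : Arc R σ w a) : ∀ ν, SPath R (U.erase a) ν a p → ν = σ := by
  intro ν hν
  have h1 := h.S1 _ (SPath.cons har ha hν)
  revert h1
  cases ν <;> cases σ <;> simp

end Mins
end

-- T2_M0_h82.lean
section H82
variable {V : Type} [Fintype V] [DecidableEq V]

theorem h82_confluent {R : Net V} {U : Finset V} (hG : Good R U) (x y : St V)
    (h : ∀ j, j ∉ U → x j = y j) : ∃ z, Rch R U ∅ x z ∧ Rch R U ∅ y z :=
  common_net R U hG.neg hG.tot x y h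

theorem h82_ATT_eq {R : Net V} {U : Finset V} (hG : Good R U) {A : Set (St V)}
    (hA : ATT R U A) {a x : St V} (ha : a ∈ A) (hax : ∀ j, j ∉ U → a j = x j) :
    att R U x = A := by
  ext z
  constructor
  · intro hz
    exact hA.closed a ha z (hz a hax)
  · intro hz y hy
    exact (hA.reach' hG.neg hG.tot ha (x := y)
      (fun j hj => by rw [hy j hj, hax j hj])).trans (hA.conn a ha z hz)

theorem h82_ATT {R : Net V} {U : Finset V} (hG : Good R U) (x : St V) :
    ATT R U (att R U x) := by
  obtain ⟨A, hA, z, hz, hxz⟩ := exists_ATT R U x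
  rw [h82_ATT_eq hG hA hz (fun j hj => hxz.frozen j hj (by simp))]
  exact hA

theorem h82_att_nonempty {R : Net V} {U : Finset V} (hG : Good R U) (x : St V) :
    (att R U x).Nonempty := (h82_ATT hG x).ne

theorem h82_att_frozen {R : Net V} {U : Finset V} {x z : St V} (hz : z ∈ att R U x) (j : V)
    (hj : j ∉ U) : z j = x j := (hz x (fun _ _ => rfl)).frozen j hj (by simp)

theorem h82_wv_w {x0 : St V} {w v : V} (hwv : w ≠ v) (a b : Bool) : wv x0 w v a b w = a := by
  unfold wv
  rw [update_of_ne hwv, update_self]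

theorem h82_cut_good {R : Net V} {U : Finset V} (hG : Good R U) (a w : V) (e : Bool) :
    Good (cutN R a w e) U := ⟨cut_tot hG.tot, cut_nopos hG.neg⟩

theorem M0 {R : Net V} {U : Finset V} {w v p q : V} {x0 : St V}
    (h : D R U w v p q x0) (hmin : Min R U w) (a : V) (ha : a ∈ U) (σ : Bool)
    (har : Arc R σ w a) (hone : ¬ Arc R (!σ) w a) :
    ∃ y ∈ att R U (wv x0 w v true true), y a = !σ := by
  classical
  by_contra hcon
  push Not at hcon
  have hdown : ∀ y ∈ att R U (wv x0 w v true true), y a = σ := by
    intro y hy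
    have := hcon y hy
    revert this
    cases y a <;> cases σ <;> simp
  have hpa : p ≠ a := fun hh => h.hp (hh ▸ ha)
  have hqa : q ≠ a := fun hh => h.hq (hh ▸ ha)
  have A1 := h82_ATT h.good (wv x0 w v false true)
  have A2 := h82_ATT h.good (wv x0 w v true true)
  have hG' := h82_cut_good h.good a w false
  have w1 : ∀ x ∈ att R U (wv x0 w v false true), x w = false := by
    intro x hx
    rw [h82_att_frozen hx w h.hw, h82_wv_w h.hwv]
  have w2 : ∀ x ∈ att R U (wv x0 w v true true), x w = true := by
    intro x hx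
    rw [h82_att_frozen hx w h.hw, h82_wv_w h.hwv]
  have A1' : ATT (cutN R a w false) U (att R U (wv x0 w v false true)) :=
    A1.congr (fun z hz i _ b => (cut_eq (w1 z hz)).symm)
  have hno : ∀ y ∈ att R U (wv x0 w v true true), ¬ cutN R a w false a (!σ) y := by
    intro y hy hcy
    unfold cutN at hcy
    rw [if_pos rfl] at hcy
    by_cases hRy : R a (!σ) y
    · have := A2.closed y hy _ (Relation.ReflTransGen.single (Or.inl ⟨a, ha, !σ, hRy, rfl⟩))
      have h2 := hdown _ this
      rw [update_self] at h2
      revert h2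
      cases σ <;> simp
    · apply hone
      refine ⟨y, !σ, ?_, ?_⟩
      · have : (!(xor (!σ) (!σ))) = true := by cases σ <;> rfl
        rw [this, ← w2 y hy, update_eq_self]
        exact hRy
      · have : (xor (!σ) (!σ)) = false := by cases σ <;> rfl
        rw [this]
        exact hcy
  have A2' : ATT (cutN R a w false) U (att R U (wv x0 w v true true)) :=
    ((A2.erase_const a σ hdown).congr (R' := cutN R a w false)
      (fun z _ i hi b => (cut_ne (Finset.ne_of_mem_erase hi)).symm)).insert_const σ hdown hno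
  obtain ⟨z1, hz1⟩ := A1.ne
  obtain ⟨z2, hz2⟩ := A2.ne
  have E1 : att (cutN R a w false) U (wv x0 w v false true) = att R U (wv x0 w v false true) :=
    h82_ATT_eq hG' A1' hz1 (fun j hj => h82_att_frozen hz1 j hj)
  have E2 : att (cutN R a w false) U (wv x0 w v true true) = att R U (wv x0 w v true true) :=
    h82_ATT_eq hG' A2' hz2 (fun j hj => h82_att_frozen hz2 j hj)
  refine hmin (cutN R a w false) U w v p q x0 (Or.inr ⟨rfl, ?_⟩) ⟨hG', h.hw, h.hv, h.hp, h.hq, h.hwv,
    ?_, ?_, ?_, ?_, ?_, ?_, ?_⟩
  · unfold rd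
    apply Finset.card_lt_card
    rw [Finset.ssubset_iff_of_subset]
    · refine ⟨a, Finset.mem_filter.2 ⟨ha, σ, har⟩, ?_⟩
      intro hh
      obtain ⟨ν, hν⟩ := (Finset.mem_filter.1 hh).2
      exact (cut_arc hν).2 ⟨rfl, rfl⟩
    · intro k hk
      obtain ⟨hk1, ν, hν⟩ := Finset.mem_filter.1 hk
      exact Finset.mem_filter.2 ⟨hk1, ν, (cut_arc hν).1⟩
  · intro x hx hh
    rw [E1] at hx
    exact h.c1 x hx ((cut_ne hpa).1 hh)
  · obtain ⟨x, hx, hh⟩ := h.c2
    rw [E1]
    exact ⟨x, hx, (cut_ne hqa).2 hh⟩
  · intro y hy hh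
    rw [E2] at hy
    exact h.c3 y hy ((cut_ne hqa).1 hh)
  · obtain ⟨x, hx, z, hz, hh⟩ := h.c4
    rw [E1]
    refine ⟨x, hx, z, hz.congr (fun t => t w = false) ?_ ?_, (cut_ne hpa).2 hh⟩
    · intro t ht
      rw [ht.frozen w h.hw (by simpa using h.hwv)]
      exact w1 x hx
    · intro t ht i _ b hb
      exact (cut_eq ht).2 hb
  · intro ν hν
    exact h.S1 ν (cut_path hν)
  · intro ν hν
    exact h.S2 ν (cut_path hν)
  · intro M1 M2 ν1 ν2 h1 h2 h3 h4 h5
    exact h.S3 M1 M2 ν1 ν2 h1 h2 h3 (cut_path h4) (cut_path h5)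

end H82

-- T2_M00_h90.lean
section Mins00
variable {V : Type} [Fintype V] [DecidableEq V]
variable {R : Net V} {U : Finset V} {w v p q : V} {x0 : St V}

theorem m00_upd {x0 : St V} {w v a : V} (haw : a ≠ w) (hav : a ≠ v) (c b1 b2 : Bool) :
    wv (update x0 a c) w v b1 b2 = update (wv x0 w v b1 b2) a c := by
  funext j
  by_cases hja : j = a
  · subst hja
    simp [wv, haw, hav]
  · by_cases hjv : j = v
    · subst hjv
      simp [wv, hja]
    · by_cases hjw : j = w
      · subst hjw
        simp [wv, hja, hjv]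
      · simp [wv, hja, hjv, hjw]

/-- a run of `U` is a run of `U.erase a` with `a` free -/
theorem m00_free {R : Net V} {U F : Finset V} {a : V} {x y : St V} (h : Rch R U F x y) :
    Rch R (U.erase a) (insert a F) x y := by
  refine Rch.mono ?_ (Finset.subset_insert a F) ?_ (M := U) (F := F)
  · intro j hj
    by_cases hja : j = a
    · exact Finset.mem_union_right _ (Finset.mem_insert.2 (Or.inl hja))
    · exact Finset.mem_union_left _ (Finset.mem_erase.2 ⟨hja, hj⟩)
  · exact h

/-- (M00) no reader has arcs of both signs -/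
theorem M00 (h : D R U w v p q x0) (hmin : Min R U w) (a : V) (ha : a ∈ U) (σ : Bool)
    (har : Arc R σ w a) : ¬ Arc R (!σ) w a := by
  intro har'
  have haw : a ≠ w := fun e => h.hw (e ▸ ha)
  have hav : a ≠ v := fun e => h.hv (e ▸ ha)
  have hap : ∀ ν, ¬ SPath R (U.erase a) ν a p := by
    intro ν hν
    have h1 := h.S1 _ (SPath.cons har ha hν)
    have h2 := h.S1 _ (SPath.cons har' ha hν)
    revert h1 h2
    cases σ <;> cases ν <;> simp
  obtain ⟨y, hy⟩ := att_nonempty h.good (wv x0 w v true true)
  set c := y a with hc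
  have hGe : Good R (U.erase a) := h.good.mono (Finset.erase_subset a U)
  set x01 := wv x0 w v false true with hx01
  set x11 := wv x0 w v true true with hx11
  set X := att R (U.erase a) (update x01 a c) with hX
  -- states agreeing with x01 outside U
  have hagr : ∀ x : St V, (∀ j, j ∉ U → x j = x01 j) → x a = c →
      ∀ j, j ∉ U.erase a → x j = update x01 a c j := by
    intro x hx hxa j hj
    by_cases hja : j = a
    · subst hja
      simp [hxa]
    · have hjU : j ∉ U := fun hjU => hj (Finset.mem_erase.2 ⟨hja, hjU⟩)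
      rw [hx j hjU]
      simp [hja]
  have hXU : ∀ x ∈ X, ∀ j, j ∉ U → x j = x01 j := by
    intro x hx j hj
    have hja : j ≠ a := fun e => hj (e ▸ ha)
    have := att_frozen hx j (fun h' => hj (Finset.mem_of_mem_erase h'))
    rw [this]
    simp [hja]
  have hXa : ∀ x ∈ X, x a = c := by
    intro x hx
    have := att_frozen hx a (Finset.notMem_erase a U)
    rw [this]
    simp
  -- c1
  have c1' : ∀ x ∈ X, ¬ R p true x := by
    intro x hx hRx
    obtain ⟨z0, hz0⟩ := att_nonempty h.good x01
    have hz0U : ∀ j, j ∉ U → z0 j = x01 j := fun j hj => att_frozen hz0 j hj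
    have hrun : Rch R (U.erase a) {a} z0 x := by
      have h1 : Rch R (U.erase a) {a} z0 (update z0 a c) :=
        Relation.ReflTransGen.single (Or.inr ⟨a, Finset.mem_singleton_self a, c, rfl⟩)
      have h2 : Rch R (U.erase a) ∅ (update z0 a c) x := by
        apply hx
        apply hagr
        · intro j hj
          have hja : j ≠ a := fun e => hj (e ▸ ha)
          simp [hja, hz0U j hj]
        · simp
      exact h1.trans (Rch.mono Finset.subset_union_left (Finset.empty_subset _) h2)
    obtain ⟨z', hz', hRz'⟩ := rt1 R (U.erase a) a p (Finset.notMem_erase a U) true (!(z0 a))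
      (fun ν hν => absurd hν (hap ν)) z0 x hrun hRx
    have h3 : update z0 a (xor true (!(z0 a))) = z0 := by
      have : xor true (!(z0 a)) = z0 a := by cases z0 a <;> rfl
      rw [this, update_eq_self]
    rw [h3] at hz'
    have h4 : Rch R U ∅ z0 z' :=
      Rch.mono ((Finset.erase_subset a U).trans Finset.subset_union_left)
        (Finset.Subset.refl _) hz'
    exact h.c1 z' (att_closed hz0 h4) hRz'
  -- c4
  have c4' : ∃ x ∈ X, ∃ z, Rch R (U.erase a) {v} x z ∧ R p true z := by
    obtain ⟨x, hx⟩ := att_nonempty hGe (update x01 a c)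
    obtain ⟨x1, hx1, z, hz, hRz⟩ := h.c4
    have h1 : Rch R U ∅ x x1 := hx1 x (hXU x hx)
    have h2 : Rch R U {v} x z :=
      (Rch.mono Finset.subset_union_left (Finset.empty_subset _) h1).trans hz
    have h3 : Rch R (U.erase a) (insert a {v}) x z := m00_free h2
    obtain ⟨z', hz', hRz'⟩ := rt1F R (U.erase a) {v}
      (by
        rw [Finset.disjoint_singleton_right]
        exact fun h' => h.hv (Finset.mem_of_mem_erase h'))
      a p (Finset.notMem_erase a U) (by simpa using hav) true (!(x a))
      (fun ν hν => absurd hν (hap ν)) x z h3 hRz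
    have h4 : update x a (xor true (!(x a))) = x := by
      have : xor true (!(x a)) = x a := by cases x a <;> rfl
      rw [this, update_eq_self]
    rw [h4] at hz'
    exact ⟨x, hx, z', hz', hRz'⟩
  -- c3
  have c3' : ∀ x ∈ att R (U.erase a) (update x11 a c), ¬ R q false x := by
    have h1 : att R (U.erase a) (update x11 a c) = att R (U.erase a) y := by
      apply att_congr
      intro j hj
      by_cases hja : j = a
      · subst hja
        simp [hc]
      · have hjU : j ∉ U := fun hjU => hj (Finset.mem_erase.2 ⟨hja, hjU⟩)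
        rw [att_frozen hy j hjU]
        simp [hja]
    intro x hx
    rw [h1] at hx
    have h2 : att R U y = att R U x11 := att_congr _ _ _ _ (fun j hj => att_frozen hy j hj)
    have h3 := att_sub (Finset.erase_subset a U) hy hx
    exact h.c3 x h3
  -- S1, S2, S3
  have hpw : ∀ {M1 : Finset V} {ν1 : Bool} (τ : Bool), Arc R τ w a → M1 ⊆ U.erase a →
      SPath R M1 ν1 a q → SPath R (insert a M1) (xor τ ν1) w q := by
    intro M1 ν1 τ hτ hM1 hs
    have haM1 : a ∉ M1 := fun h' => (Finset.mem_erase.1 (hM1 h')).1 rfl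
    refine SPath.cons hτ (Finset.mem_insert_self a M1) ?_
    rwa [Finset.erase_insert haM1]
  -- c2
  have c2' : ∃ x ∈ X, R q false x := by
    by_contra hno
    push Not at hno
    refine LemII R (U.erase a) a v q p false true (update x01 a c) hGe (Finset.notMem_erase a U)
      (fun h' => h.hv (Finset.mem_of_mem_erase h')) hav
      (fun h' => h.hq (Finset.mem_of_mem_erase h')) (fun h' => h.hp (Finset.mem_of_mem_erase h'))
      hno c1' ?_ c4' (fun ν hν => absurd hν (hap ν)) ?_
    · obtain ⟨x, hx⟩ := att_nonempty hGe (update x01 a c)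
      obtain ⟨x2, hx2, hRx2⟩ := h.c2
      have h1 : Rch R U ∅ x x2 := hx2 x (hXU x hx)
      exact ⟨x, hx, x2, by simpa using m00_free (a := a) h1, hRx2⟩
    · intro M1 M2 ν1 ν2 hM1 hM2 hdis hs1 hs2 _ _
      have hM1' : insert a M1 ⊆ U := Finset.insert_subset ha (hM1.trans (Finset.erase_subset a U))
      have hM2' : M2 ⊆ U := hM2.trans (Finset.erase_subset a U)
      have hdis' : Disjoint (insert a M1) M2 := by
        rw [Finset.disjoint_insert_left]
        exact ⟨fun h' => (Finset.mem_erase.1 (hM2 h')).1 rfl, hdis⟩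
      have h1 := h.S3 _ _ _ _ hM1' hM2' hdis' (hpw σ har hM1 hs1) hs2
      have h2 := h.S3 _ _ _ _ hM1' hM2' hdis' (hpw (!σ) har' hM1 hs1) hs2
      revert h1 h2
      cases σ <;> cases ν1 <;> cases ν2 <;> simp
  refine hmin R (U.erase a) w v p q (update x0 a c) (Or.inl (Finset.card_erase_lt_of_mem ha)) ?_
  refine
    { good := hGe
      hw := fun h' => h.hw (Finset.mem_of_mem_erase h')
      hv := fun h' => h.hv (Finset.mem_of_mem_erase h')
      hp := fun h' => h.hp (Finset.mem_of_mem_erase h')
      hq := fun h' => h.hq (Finset.mem_of_mem_erase h')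
      hwv := h.hwv
      c1 := ?_
      c2 := ?_
      c3 := ?_
      c4 := ?_
      S1 := fun ν hν => h.S1 ν (SPath.mono' hν (Finset.erase_subset a U))
      S2 := fun ν hν => h.S2 ν (SPath.mono' hν (Finset.erase_subset a U))
      S3 := fun M1 M2 ν1 ν2 h1 h2 h3 h4 h5 => h.S3 M1 M2 ν1 ν2
        (h1.trans (Finset.erase_subset a U)) (h2.trans (Finset.erase_subset a U)) h3 h4 h5 }
  · rw [m00_upd haw hav]; exact c1'
  · rw [m00_upd haw hav]; exact c2'
  · rw [m00_upd haw hav]; exact c3'
  · rw [m00_upd haw hav]; exact c4'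

end Mins00



-- T2_M2_h82.lean
section H82b
variable {V : Type} [Fintype V] [DecidableEq V]

theorem h82_tie_upd {R : Net V} {a w : V} {c : Bool} (hwa : w ≠ a) {i : V} {b e : Bool}
    {x : St V} : tieN R a w c i b (update x a e) ↔ tieN R a w c i b x := by
  unfold tieN
  rw [update_idem, update_of_ne hwa]

theorem h82_tie_rch {R : Net V} {a w : V} {c : Bool} (hwa : w ≠ a) {M F : Finset V}
    (haM : a ∉ M) (haF : a ∉ F) {x y : St V} (h : Rch (tieN R a w c) M F x y) (e : Bool) :
    Rch (tieN R a w c) M F (update x a e) (update y a e) := by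
  induction h with
  | refl => exact .refl
  | @tail z y _ hs ih =>
    refine ih.tail ?_
    rcases hs with ⟨i, hi, b, hb, rfl⟩ | ⟨i, hi, b, rfl⟩
    · have hia : i ≠ a := fun hh => haM (hh ▸ hi)
      exact Or.inl ⟨i, hi, b, (h82_tie_upd hwa).2 hb, by rw [update_comm hia]⟩
    · have hia : i ≠ a := fun hh => haF (hh ▸ hi)
      exact Or.inr ⟨i, hi, b, by rw [update_comm hia]⟩

theorem h82_tie_to {R : Net V} {a w : V} {c : Bool} {M F : Finset V} (haM : a ∉ M) (haF : a ∉ F)
    (hwM : w ∉ M) (hwF : w ∉ F) {x y : St V} (hx : x a = xor (x w) c)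
    (h : Rch R M F x y) : Rch (tieN R a w c) M F x y :=
  h.congr (fun t => t a = xor (t w) c)
    (fun t ht => by rw [ht.frozen a haM haF, ht.frozen w hwM hwF]; exact hx)
    (fun t ht i _ b hb => (tie_eq ht).2 hb)

theorem h82_tie_from {R : Net V} {a w : V} {c : Bool} {M F : Finset V} (haM : a ∉ M)
    (haF : a ∉ F) (hwM : w ∉ M) (hwF : w ∉ F) {x y : St V} (hx : x a = xor (x w) c)
    (h : Rch (tieN R a w c) M F x y) : Rch R M F x y :=
  h.congr (fun t => t a = xor (t w) c)
    (fun t ht => by rw [ht.frozen a haM haF, ht.frozen w hwM hwF]; exact hx)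
    (fun t ht i _ b hb => (tie_eq ht).1 hb)

/-- (M2) with (M0), (M1) as hypotheses -/
theorem h82_M2 {R : Net V} {U : Finset V} {w v p q : V} {x0 : St V}
    (h : D R U w v p q x0) (hmin : Min R U w) (a : V) (ha : a ∈ U) (σ : Bool)
    (har : Arc R σ w a)
    (hup : ∃ y ∈ att R U (wv x0 w v true true), y a = !σ)
    (hdown : ∀ x ∈ att R U (wv x0 w v false true), x a = σ) :
    ∀ x ∈ att R U (wv x0 w v false true), ∀ z, Rch R (U.erase a) {v} x z → ¬ R p true z := by
  classical
  intro x₁ hx₁ z₁ hz₁ hpz
  have hwa : w ≠ a := fun hh => h.hw (hh ▸ ha)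
  have hva : v ≠ a := fun hh => h.hv (hh ▸ ha)
  have hpa : p ≠ a := fun hh => h.hp (hh ▸ ha)
  have hqa : q ≠ a := fun hh => h.hq (hh ▸ ha)
  have hsubU : U.erase a ⊆ U := Finset.erase_subset _ _
  have haE : a ∉ U.erase a := Finset.notMem_erase a U
  have hwE : w ∉ U.erase a := fun hh => h.hw (hsubU hh)
  have A1 := h82_ATT h.good (wv x0 w v false true)
  have A2 := h82_ATT h.good (wv x0 w v true true)
  have hGe : Good R (U.erase a) :=
    ⟨h.good.tot |> fun t i hi => t i (hsubU hi), fun D hD => h.good.neg D (hD.trans hsubU)⟩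
  have hG' : Good (tieN R a w σ) (U.erase a) := ⟨tie_tot hGe.tot, tie_nopos hwa hwE hGe.neg⟩
  have w1 : ∀ x ∈ att R U (wv x0 w v false true), x w = false := by
    intro x hx
    rw [h82_att_frozen hx w h.hw, h82_wv_w h.hwv]
  have w2 : ∀ x ∈ att R U (wv x0 w v true true), x w = true := by
    intro x hx
    rw [h82_att_frozen hx w h.hw, h82_wv_w h.hwv]
  have e1 : ∀ z ∈ att R U (wv x0 w v false true), z a = xor (z w) σ := by
    intro z hz
    rw [hdown z hz, w1 z hz]
    cases σ <;> rfl
  have wva : ∀ b, wv (update x0 a σ) w v b true = update (wv x0 w v b true) a σ := by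
    intro b
    unfold wv
    rw [update_comm hwa.symm, update_comm hva.symm]
  have A1' : ATT (tieN R a w σ) (U.erase a) (att R U (wv x0 w v false true)) :=
    (A1.erase_const a σ hdown).congr (fun z hz i _ b => (tie_eq (e1 z hz)).symm)
  obtain ⟨z1, hz1⟩ := A1.ne
  have E1 : att (tieN R a w σ) (U.erase a) (wv (update x0 a σ) w v false true) =
      att R U (wv x0 w v false true) := by
    refine h82_ATT_eq hG' A1' hz1 (fun j hj => ?_)
    rw [wva]
    by_cases hja : j = a
    · subst hja
      rw [update_self]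
      exact hdown z1 hz1
    · rw [update_of_ne hja]
      exact h82_att_frozen hz1 j (fun hh => hj (Finset.mem_erase.2 ⟨hja, hh⟩))
  obtain ⟨y0, hy0, hy0a⟩ := hup
  refine hmin (tieN R a w σ) (U.erase a) w v p q (update x0 a σ)
    (Or.inl (Finset.card_erase_lt_of_mem ha)) ⟨hG', hwE, fun hh => h.hv (hsubU hh),
    fun hh => h.hp (hsubU hh), fun hh => h.hq (hsubU hh), h.hwv, ?_, ?_, ?_, ?_, ?_, ?_, ?_⟩
  · intro x hx hh
    rw [E1] at hx
    exact h.c1 x hx ((tie_eq (e1 x hx)).1 hh)
  · obtain ⟨x, hx, hh⟩ := h.c2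
    rw [E1]
    exact ⟨x, hx, (tie_eq (e1 x hx)).2 hh⟩
  · -- c3
    intro x hx hh
    have hy0w := w2 y0 hy0
    have hy0t : y0 a = xor (y0 w) σ := by
      rw [hy0a, hy0w]; cases σ <;> rfl
    -- y0 with a down agrees with the base
    have hag : ∀ j, j ∉ U.erase a → update y0 a σ j = wv (update x0 a σ) w v true true j := by
      intro j hj
      rw [wva]
      by_cases hja : j = a
      · subst hja
        rw [update_self, update_self]
      · rw [update_of_ne hja, update_of_ne hja]
        exact h82_att_frozen hy0 j (fun hh => hj (Finset.mem_erase.2 ⟨hja, hh⟩))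
    have h1 := hx (update y0 a σ) hag
    have h2 := h82_tie_rch hwa haE (by simp) h1 (!σ)
    have e3 : update (update y0 a σ) a (!σ) = y0 := by
      rw [update_idem, ← hy0a, update_eq_self]
    rw [e3] at h2
    have h3 := h82_tie_from haE (by simp) hwE (by simp) hy0t h2
    have h4 : update x a (!σ) ∈ att R U (wv x0 w v true true) :=
      A2.closed y0 hy0 _ (Rch.mono (by simpa using hsubU) (by simp) h3)
    refine h.c3 _ h4 ?_
    have h5 := (h82_tie_upd (R := R) (c := σ) (e := !σ) hwa).2 hh
    refine (tie_eq ?_).1 h5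
    rw [update_self, update_of_ne hwa, h82_att_frozen hx w hwE, h82_wv_w h.hwv]
    cases σ <;> rfl
  · -- c4
    rw [E1]
    refine ⟨x₁, hx₁, z₁, h82_tie_to haE (by simpa using hva.symm) hwE (by simpa using h.hwv)
      (e1 x₁ hx₁) hz₁, (tie_eq ?_).2 hpz⟩
    rw [hz₁.frozen a haE (by simpa using hva.symm), hz₁.frozen w hwE (by simpa using h.hwv)]
    exact e1 x₁ hx₁
  · intro ν hν
    have := tie_path_w hwa har hν hwE haE
    rw [Finset.insert_erase ha] at this
    exact h.S1 ν this
  · intro ν hν
    have := (tie_path hwa hν hwE haE).1 (Ne.symm h.hwv)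
    exact h.S2 ν (RS.SPath.mono' this hsubU)
  · intro M1 M2 ν1 ν2 h1 h2 h3 h4 h5
    have h6 := tie_path_w hwa har h4 (fun hh => hwE (h1 hh)) (fun hh => haE (h1 hh))
    have h7 := (tie_path hwa h5 (fun hh => hwE (h2 hh)) (fun hh => haE (h2 hh))).1
      (Ne.symm h.hwv)
    refine h.S3 (insert a M1) M2 ν1 ν2 ?_ (h2.trans hsubU) ?_ h6 h7
    · intro k hk
      rcases Finset.mem_insert.1 hk with rfl | hk
      · exact ha
      · exact hsubU (h1 hk)
    · rw [Finset.disjoint_insert_left]
      exact ⟨fun hh => haE (h2 hh), h3⟩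

end H82b

-- T2_M3_h81.lean
/-- (M3) with `a` held up `p = 1` occurs at `w = 0`, `v = 1` -/
theorem M3 (h : D R U w v p q x0) (hmin : Min R U w) (a : V) (ha : a ∈ U) (σ : Bool)
    (har : Arc R σ w a) :
    ∃ x ∈ att R (U.erase a) (update (wv x0 w v false true) a (!σ)), R p true x := by
  by_contra hcon
  push Not at hcon
  have haw : a ≠ w := fun e => h.hw (e ▸ ha)
  have hav : a ≠ v := fun e => h.hv (e ▸ ha)
  have hEU : U.erase a ⊆ U := Finset.erase_subset a U
  have hvE : v ∉ U.erase a := fun h' => h.hv (hEU h')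
  have hGE : Good R (U.erase a) := h.good.mono hEU
  have hcomm : ∀ b : Bool, wv (update x0 a (!σ)) w v b true = update (wv x0 w v b true) a (!σ) := by
    intro b
    funext j
    by_cases h1 : j = a
    · subst h1
      rw [update_self, wv, update_of_ne hav, update_of_ne haw, update_self]
    · rw [update_of_ne h1, wv, wv]
      by_cases h2 : j = v
      · subst h2
        rw [update_self, update_self]
      · rw [update_of_ne h2, update_of_ne h2]
        by_cases h3 : j = w
        · subst h3
          rw [update_self, update_self]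
        · rw [update_of_ne h3, update_of_ne h3, update_of_ne h1]
  have hpath := M0p h hmin a ha σ har
  -- the states with `a` held up agree with `x01` off `U`
  have hoff : ∀ x ∈ att R (U.erase a) (update (wv x0 w v false true) a (!σ)),
      ∀ j, j ∉ U → x j = wv x0 w v false true j := by
    intro x hx j hj
    rw [att_frozen hx j fun h' => hj (hEU h'), update_of_ne]
    rintro rfl
    exact hj ha
  have hxa : ∀ x ∈ att R (U.erase a) (update (wv x0 w v false true) a (!σ)), x a = !σ := by
    intro x hx
    rw [att_frozen hx a (Finset.notMem_erase a U), update_self]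
  -- (iii) with `a` held up
  have h4 : ∀ x ∈ att R (U.erase a) (update (wv x0 w v false true) a (!σ)),
      ∃ z, Rch R (U.erase a) {v} x z ∧ R p true z := by
    intro x hx
    obtain ⟨x2, hx2, z, hz, hpz⟩ := h.c4
    have h5 : Rch R U {v} x z :=
      (Rch.mono Finset.subset_union_left (Finset.empty_subset _) (hx2 x (hoff x hx))).trans hz
    have h6 : Rch R (U.erase a) (insert a {v}) x z := by
      refine Rch.mono (fun j hj => ?_) (fun j hj => Finset.mem_insert_of_mem hj) h5
      by_cases hja : j = a
      · exact Finset.mem_union_right _ (Finset.mem_insert.2 (Or.inl hja))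
      · exact Finset.mem_union_left _ (Finset.mem_erase.2 ⟨hja, hj⟩)
    obtain ⟨z', h7, h8⟩ := rt1F R (U.erase a) {v} (Finset.disjoint_singleton_right.2 hvE) a p
      (Finset.notMem_erase a U) (fun h' => hav (Finset.mem_singleton.1 h')) true σ hpath x z h6 hpz
    refine ⟨z', ?_, h8⟩
    have h9 : update x a (xor true σ) = x := by
      rw [Bool.true_xor, ← hxa x hx]
      exact update_eq_self a x
    rwa [h9] at h7
  obtain ⟨x1, hx1⟩ := att_nonempty hGE (update (wv x0 w v false true) a (!σ))
  -- `q` takes `0` with `a` held up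
  have h2 : ∃ x ∈ att R (U.erase a) (update (wv x0 w v false true) a (!σ)), R q false x := by
    by_contra hq
    push Not at hq
    have hupa : update (wv x0 w v false true) a (!σ) a = !σ := update_self _ _ _
    have hupv : update (wv x0 w v false true) a (!σ) v = true := by
      rw [update_of_ne hav.symm, wv, update_self]
    refine LemII R (U.erase a) a v q p false true (update (wv x0 w v false true) a (!σ)) hGE
      (Finset.notMem_erase a U) hvE hav (fun h' => h.hq (hEU h')) (fun h' => h.hp (hEU h'))
      hq hcon ?_ ⟨x1, hx1, h4 x1 hx1⟩ ?_ ?_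
    · obtain ⟨x2, hx2, hq2⟩ := h.c2
      refine ⟨x1, hx1, x2, ?_, hq2⟩
      refine Rch.mono (fun j hj => ?_) (Finset.empty_subset _) (hx2 x1 (hoff x1 hx1))
      by_cases hja : j = a
      · exact Finset.mem_union_right _ (Finset.mem_singleton.2 hja)
      · exact Finset.mem_union_left _ (Finset.mem_erase.2 ⟨hja, hj⟩)
    · intro ν hν
      rw [hpath ν hν, hupa, Bool.true_xor]
    · intro M1 M2 ν1 ν2 hM1 hM2 hd hp1 hp2 he1 he2
      rw [hupa, Bool.false_xor, Bool.not_not] at he1
      rw [hupv, Bool.true_xor] at he2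
      have haM1 : a ∉ M1 := fun h' => Finset.notMem_erase a U (hM1 h')
      have haM2 : a ∉ M2 := fun h' => Finset.notMem_erase a U (hM2 h')
      have hp3 : SPath R (insert a M1) (xor σ ν1) w q := by
        refine SPath.cons har (Finset.mem_insert_self a M1) ?_
        rwa [Finset.erase_insert haM1]
      have h10 := h.S3 (insert a M1) M2 _ ν2
        (Finset.insert_subset ha (hM1.trans hEU)) (hM2.trans hEU)
        (Finset.disjoint_insert_left.2 ⟨haM2, hd⟩) hp3 hp2
      rw [he1, Bool.xor_self] at h10
      rw [← h10] at he2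
      exact absurd he2 (by decide)
  obtain ⟨y, hy, hya⟩ := M0 h hmin a ha σ har (M00 h hmin a ha σ har)
  have hc3 : att R (U.erase a) (update (wv x0 w v true true) a (!σ)) ⊆
      att R U (wv x0 w v true true) := by
    rw [← att_congr R (U.erase a) y (update (wv x0 w v true true) a (!σ))]
    · exact att_sub hEU hy
    · intro j hj
      by_cases hja : j = a
      · subst hja
        rw [update_self, hya]
      · rw [update_of_ne hja]
        exact att_frozen hy j fun h' => hj (Finset.mem_erase.2 ⟨hja, h'⟩)
  refine hmin R (U.erase a) w v p q (update x0 a (!σ))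
    (Or.inl (Finset.card_erase_lt_of_mem ha)) ?_
  exact
    { good := hGE
      hw := fun h' => h.hw (hEU h')
      hv := hvE
      hp := fun h' => h.hp (hEU h')
      hq := fun h' => h.hq (hEU h')
      hwv := h.hwv
      c1 := by rw [hcomm]; exact hcon
      c2 := by rw [hcomm]; exact h2
      c3 := by rw [hcomm]; exact fun x hx => h.c3 x (hc3 hx)
      c4 := by rw [hcomm]; exact ⟨x1, hx1, h4 x1 hx1⟩
      S1 := fun ν hν => h.S1 ν (SPath.mono' hν hEU)
      S2 := fun ν hν => h.S2 ν (SPath.mono' hν hEU)
      S3 := fun M1 M2 ν1 ν2 h1 h2 => h.S3 M1 M2 ν1 ν2 (h1.trans hEU) (h2.trans hEU) }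

/-- (M1) every reader is constantly down on `X_01` -/
theorem M1 (h : D R U w v p q x0) (hmin : Min R U w) (a : V) (ha : a ∈ U) (σ : Bool)
    (har : Arc R σ w a) : ∀ x ∈ att R U (wv x0 w v false true), x a = σ := by
  intro x hx
  by_contra hxa
  have hxa' : x a = !σ := by
    revert hxa
    cases x a <;> cases σ <;> simp
  obtain ⟨z, hz, hpz⟩ := M3 h hmin a ha σ har
  refine h.c1 z ?_ hpz
  have h1 : att R (U.erase a) (update (wv x0 w v false true) a (!σ)) = att R (U.erase a) x := by
    refine att_congr R (U.erase a) _ _ ?_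
    intro j hj
    by_cases hja : j = a
    · subst hja
      rw [update_self, hxa']
    · rw [update_of_ne hja]
      exact (att_frozen hx j fun h' => hj (Finset.mem_erase.2 ⟨hja, h'⟩)).symm
  rw [h1] at hz
  exact att_sub (Finset.erase_subset a U) hx hz

/-- (M2) `p = 1` is not reachable with `w = 0`, `v` free, `a` frozen down -/
theorem M2 (h : D R U w v p q x0) (hmin : Min R U w) (a : V) (ha : a ∈ U) (σ : Bool)
    (har : Arc R σ w a) : ∀ x ∈ att R U (wv x0 w v false true), ∀ z, Rch R (U.erase a) {v} x z →
      ¬ R p true z :=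
  h82_M2 h hmin a ha σ har (M0 h hmin a ha σ har (M00 h hmin a ha σ har)) (M1 h hmin a ha σ har)


/-! ### E: the maximal coherent set (helper4's RMAX, port `w`) -/

/-- `W` = the maximal set (subset of `U`), `Y` = the closed set of states (`v = 1`) -/
structure RM (R : Net V) (U : Finset V) (w v : V) (x0 : St V) (W : Finset V) (s : St V)
    (Y : Set (St V)) : Prop where
  sub : W ⊆ U
  s01 : s ∈ att R U (wv x0 w v false true)
  sY : s ∈ Y
  /-- every vertex of `W` is reached from `w` by a path inside `W`, coherent at `s` -/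
  coh : ∀ r ∈ W, SPath R (W.erase r) (s r) w r
  /-- the last arc of it -/
  coh' : ∀ r ∈ W, (∃ j ∈ W, Arc R (xor (s j) (s r)) j r) ∨ Arc R (s r) w r
  frz : ∀ x ∈ Y, ∀ j, j ∉ U → j ≠ w → x j = wv x0 w v false true j
  /-- closed under arbitrary changes of `W` and `w` -/
  clW : ∀ x ∈ Y, ∀ r b, (r ∈ W ∨ r = w) → update x r b ∈ Y
  /-- closed under legal moves outside `W` -/
  clU : ∀ x ∈ Y, ∀ i ∈ U, i ∉ W → ∀ b, R i b x → update x i b ∈ Y
  /-- outside `W` nothing depends on `W`, `w` -/
  ind : ∀ x ∈ Y, ∀ x' : St V, (∀ j, j ∉ W → j ≠ w → x' j = x j) → ∀ i ∈ U, i ∉ W →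
    ∀ b, b = !(x i) → (R i b x ↔ R i b x')
  /-- the vertices outside `W` that read `W` or `w` are constant on `Y` -/
  bd : ∀ i ∈ U, i ∉ W → ∀ j, (j ∈ W ∨ j = w) → ∀ ν, Arc R ν j i → ∀ x ∈ Y, x i = s i

-- T2_E1_h96.lean
section E96

/-- attractor of the moving set `U` -/
structure E96_ATT (R : Net V) (U : Finset V) (A : Set (V → Bool)) : Prop where
  ne : A.Nonempty
  closed : ∀ x ∈ A, ∀ y, Rch R U ∅ x y → y ∈ A

/-- a change of the legality of a move is caused by an arc -/
theorem E96_arc (R : Net V) (i : V) (b : Bool) (D : Finset V) (x x' : V → Bool)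
    (hD : ∀ j, j ∉ D → x j = x' j) (h0 : ¬ R i b x) (h1 : R i b x') :
    ∃ j ∈ D, x j ≠ x' j ∧ Arc R (xor b (x' j)) j i := by
  have e0 : ow x x' ∅ = x := by
    funext v
    simp [ow]
  have e1 : ow x x' D = x' := by
    funext v
    by_cases hv : v ∈ D
    · simp [ow, hv]
    · simp [ow, hv, hD v hv]
  obtain ⟨T, j, hj, hjT, h2, h3⟩ := T5_switch (D := D) (P := fun T => R i b (ow x x' T))
    (by rw [e0]; exact h0) (by rw [e1]; exact h1)
  have e3 : update (ow x x' T) j (x' j) = ow x x' (insert j T) := by
    funext v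
    by_cases hv : v = j
    · subst hv
      rw [update_self]
      simp [ow]
    · rw [update_of_ne hv]
      simp [ow, hv]
  have hne : x j ≠ x' j := by
    intro h
    apply h2
    have : ow x x' T = ow x x' (insert j T) := by
      rw [← e3]
      funext v
      by_cases hv : v = j
      · subst hv
        rw [update_self]
        simp [ow, hjT, h]
      · rw [update_of_ne hv]
    show R i b (ow x x' T)
    rw [this]
    exact h3
  have ex : xor b (xor b (x' j)) = x' j := by
    cases b <;> cases x' j <;> rfl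
  refine ⟨j, hj, hne, ow x x' T, b, ?_, ?_⟩
  · rw [ex]
    have e2 : update (ow x x' T) j (!(x' j)) = ow x x' T := by
      funext v
      by_cases hv : v = j
      · subst hv
        rw [update_self]
        simp only [ow, hjT, if_false]
        cases h5 : x v <;> cases h6 : x' v <;> simp_all
      · rw [update_of_ne hv]
    rw [e2]
    exact h2
  · rw [ex, e3]
    exact h3

theorem E96_trans_erase {r : V → V → Prop} {C : Finset V} {a z : V}
    (h : Relation.TransGen (fun j i => i ∈ C ∧ r j i) a z) (hz : z ≠ a) :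
    Relation.TransGen (fun j i => i ∈ C.erase a ∧ r j i) a z := by
  induction h with
  | single h => exact Relation.TransGen.single ⟨Finset.mem_erase.2 ⟨hz, h.1⟩, h.2⟩
  | @tail b c _ h ih =>
    by_cases hb : b = a
    · subst hb
      exact Relation.TransGen.single ⟨Finset.mem_erase.2 ⟨hz, h.1⟩, h.2⟩
    · exact (ih hb).tail ⟨Finset.mem_erase.2 ⟨hz, h.1⟩, h.2⟩

/-- a coherent walk contains a coherent simple path -/
theorem E96_spath (R : Net V) (s : V → Bool) :
    ∀ (n : ℕ) (C : Finset V) (u z : V), C.card = n → u ∉ C →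
      Relation.TransGen (fun j i => i ∈ C ∧ Arc R (xor (s j) (s i)) j i) u z →
      SPath R (C.erase z) (xor (s u) (s z)) u z := by
  intro n
  induction n with
  | zero =>
    intro C u z hC hu h
    have hC0 : C = ∅ := Finset.card_eq_zero.1 hC
    subst hC0
    exfalso
    cases h with
    | single h => exact absurd h.1 (Finset.notMem_empty _)
    | tail _ h => exact absurd h.1 (Finset.notMem_empty _)
  | succ n ih =>
    intro C u z hC hu h
    obtain ⟨a, ha, haz⟩ := Relation.TransGen.head'_iff.1 h
    rcases Relation.reflTransGen_iff_eq_or_transGen.1 haz with haz | haz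
    · subst haz
      exact SPath.arc ha.2
    · by_cases hza : z = a
      · subst hza
        exact SPath.arc ha.2
      · have h2 := ih (C.erase a) a z (by rw [Finset.card_erase_of_mem ha.1, hC]; rfl)
          (Finset.notMem_erase a C) (E96_trans_erase haz hza)
        rw [Finset.erase_right_comm] at h2
        have h3 := SPath.cons (M := C.erase z) ha.2 (Finset.mem_erase.2 ⟨Ne.symm hza, ha.1⟩) h2
        have e : xor (xor (s u) (s a)) (xor (s a) (s z)) = xor (s u) (s z) := by
          cases s u <;> cases s a <;> cases s z <;> rfl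
        rw [e] at h3
        exact h3

open Classical in
/-- coherent descendants of `w` at `s` -/
noncomputable def E96_CR (R : Net V) (U : Finset V) (w : V) (s : V → Bool) : Finset V :=
  U.filter fun z => Relation.TransGen (fun j i => i ∈ U ∧ Arc R (xor (s j) (s i)) j i) w z

open Classical in
theorem E96_mem_CR {R : Net V} {U : Finset V} {w : V} {s : V → Bool} {z : V} :
    z ∈ E96_CR R U w s ↔ z ∈ U ∧
      Relation.TransGen (fun j i => i ∈ U ∧ Arc R (xor (s j) (s i)) j i) w z := by
  unfold E96_CR
  exact Finset.mem_filter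

theorem E96_CR_sub (R : Net V) (U : Finset V) (w : V) (s : V → Bool) : E96_CR R U w s ⊆ U :=
  fun _ h => (E96_mem_CR.1 h).1

theorem E96_CR_step0 {R : Net V} {U : Finset V} {w : V} {s : V → Bool} {i : V} (hi : i ∈ U)
    (h : Arc R (xor (s w) (s i)) w i) : i ∈ E96_CR R U w s :=
  E96_mem_CR.2 ⟨hi, Relation.TransGen.single ⟨hi, h⟩⟩

theorem E96_CR_step {R : Net V} {U : Finset V} {w : V} {s : V → Bool} {i j : V} (hi : i ∈ U)
    (hj : j ∈ E96_CR R U w s) (h : Arc R (xor (s j) (s i)) j i) : i ∈ E96_CR R U w s :=
  E96_mem_CR.2 ⟨hi, (E96_mem_CR.1 hj).2.tail ⟨hi, h⟩⟩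

/-- the walks stay in `E96_CR` -/
theorem E96_CR_trans {R : Net V} {U : Finset V} {w : V} {s : V → Bool} {z : V}
    (h : Relation.TransGen (fun j i => i ∈ U ∧ Arc R (xor (s j) (s i)) j i) w z) :
    Relation.TransGen (fun j i => i ∈ E96_CR R U w s ∧ Arc R (xor (s j) (s i)) j i) w z := by
  induction h with
  | single h => exact Relation.TransGen.single ⟨E96_CR_step0 h.1 h.2, h.2⟩
  | @tail b c hb h ih =>
    exact ih.tail ⟨E96_mem_CR.2 ⟨h.1, hb.tail h⟩, h.2⟩

theorem E96_CR_mono {R : Net V} {U : Finset V} {w : V} {s s' : V → Bool} (hw : s' w = s w)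
    (h : ∀ j ∈ E96_CR R U w s, s' j = s j) : E96_CR R U w s ⊆ E96_CR R U w s' := by
  intro z hz
  have h1 := E96_CR_trans (E96_mem_CR.1 hz).2
  have h2 : Relation.TransGen (fun j i => i ∈ E96_CR R U w s ∧ Arc R (xor (s j) (s i)) j i) w z →
      z ∈ E96_CR R U w s' := by
    intro h3
    clear hz h1
    induction h3 with
    | single h3 =>
      refine E96_CR_step0 (E96_CR_sub _ _ _ _ h3.1) ?_
      rw [hw, h _ h3.1]
      exact h3.2
    | @tail b c hb h3 ih =>
      refine E96_CR_step (E96_CR_sub _ _ _ _ h3.1) ih ?_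
      have hbC : b ∈ E96_CR R U w s := by
        cases hb with
        | single h4 => exact h4.1
        | tail _ h4 => exact h4.1
      rw [h _ hbC, h _ h3.1]
      exact h3.2
  exact h2 h1

theorem E96_CR_spath {R : Net V} {U : Finset V} {w : V} {s : V → Bool} (hw : w ∉ U) {z : V}
    (hz : z ∈ E96_CR R U w s) : SPath R ((E96_CR R U w s).erase z) (xor (s w) (s z)) w z :=
  E96_spath R s _ _ w z rfl (fun h => hw (E96_CR_sub _ _ _ _ h)) (E96_CR_trans (E96_mem_CR.1 hz).2)


/-- data of a maximal `E96_CR` -/
structure E96_RM (R : Net V) (U : Finset V) (w : V) (A : Set (V → Bool)) (C : Finset V)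
    (s : V → Bool) : Prop where
  hs : s ∈ A
  hC : E96_CR R U w s = C
  max : ∀ x ∈ A, (E96_CR R U w x).card ≤ C.card

theorem E96_RM_exists (R : Net V) (U : Finset V) (w : V) (A : Set (V → Bool)) (hA : A.Nonempty) :
    ∃ C s, E96_RM R U w A C s := by
  obtain ⟨s, hs, h⟩ := Set.exists_max_image A (fun s => (E96_CR R U w s).card) (Set.toFinite A) hA
  exact ⟨_, s, hs, rfl, fun x hx => h x hx⟩

section
variable {R : Net V} {U : Finset V} {w : V} {A : Set (V → Bool)} {C : Finset V} {s : V → Bool}

theorem E96_RM.sub (h : E96_RM R U w A C s) : C ⊆ U := by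
  rw [← h.hC]
  exact E96_CR_sub _ _ _ _

theorem E96_RM.mem (h : E96_RM R U w A C s) (hA : E96_ATT R U A) {x : V → Bool}
    (hx : Rch R (U \ C) ∅ s x) : x ∈ A :=
  hA.closed s h.hs x (hx.mono (by intro j hj; simp [(Finset.mem_sdiff.1 hj).1])
    (Finset.Subset.refl _))

theorem E96_RM.CR_eq (h : E96_RM R U w A C s) (hA : E96_ATT R U A) (hw : w ∉ U) {x : V → Bool}
    (hx : Rch R (U \ C) ∅ s x) : E96_CR R U w x = C := by
  have h1 : E96_CR R U w s ⊆ E96_CR R U w x := by
    refine E96_CR_mono (hx.frozen w (by simp [hw]) (by simp)) ?_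
    intro j hj
    rw [h.hC] at hj
    exact hx.frozen j (by simp [hj]) (by simp)
  rw [h.hC] at h1
  exact (Finset.eq_of_subset_of_card_le h1 (h.max x (h.mem hA hx))).symm

/-- independence: outside `C` the moves do not depend on `C`, `w` -/
theorem E96_RM.ind (h : E96_RM R U w A C s) (hA : E96_ATT R U A) (hw : w ∉ U) {x x' : V → Bool}
    (hx : Rch R (U \ C) ∅ s x) (hxx : ∀ j, j ∉ insert w C → x j = x' j) {i : V} (hi : i ∈ U)
    (hiC : i ∉ C) {b : Bool} (hb : b ≠ x i) : R i b x ↔ R i b x' := by
  have hiw : i ≠ w := fun e => hw (e ▸ hi)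
  have hbx : x i = !b := by
    cases b <;> cases h5 : x i <;> simp_all
  constructor
  · intro h1
    by_contra h2
    obtain ⟨j, hj, _, harc⟩ := E96_arc R i b (insert w C) x' x (fun j hj => (hxx j hj).symm) h2 h1
    have hx2 : Rch R (U \ C) ∅ s (update x i b) :=
      hx.tail (Or.inl ⟨i, Finset.mem_sdiff.2 ⟨hi, hiC⟩, b, h1, rfl⟩)
    have hC2 := h.CR_eq hA hw hx2
    have hji : j ≠ i := by
      rintro rfl
      rcases Finset.mem_insert.1 hj with hj | hj
      · exact hiw hj
      · exact hiC hj
    have harc2 : Arc R (xor (update x i b j) (update x i b i)) j i := by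
      rw [update_self, update_of_ne hji, Bool.xor_comm]
      exact harc
    apply hiC
    rw [← hC2]
    rcases Finset.mem_insert.1 hj with hj | hj
    · subst hj
      exact E96_CR_step0 hi harc2
    · exact E96_CR_step hi (by rw [hC2]; exact hj) harc2
  · intro h1
    by_contra h2
    obtain ⟨j, hj, hne, harc⟩ := E96_arc R i b (insert w C) x x' hxx h2 h1
    have hC2 := h.CR_eq hA hw hx
    have harc2 : Arc R (xor (x j) (x i)) j i := by
      have e : xor (x j) (x i) = xor b (x' j) := by
        rw [hbx]
        cases b <;> cases h5 : x j <;> cases h6 : x' j <;> simp_all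
      rw [e]
      exact harc
    apply hiC
    rw [← hC2]
    rcases Finset.mem_insert.1 hj with hj | hj
    · subst hj
      exact E96_CR_step0 hi harc2
    · exact E96_CR_step hi (by rw [hC2]; exact hj) harc2

end

section
variable {R : Net V} {U : Finset V} {w v p q : V} {x0 : St V}

theorem exists_RM (h : D R U w v p q x0) : ∃ W s Y, RM R U w v x0 W s Y := by
  classical
  have hA : E96_ATT R U (att R U (wv x0 w v false true)) :=
    ⟨att_nonempty h.good _, fun x hx y hxy => att_closed hx hxy⟩
  obtain ⟨W, s, hW⟩ := E96_RM_exists R U w _ hA.ne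
  have hwU := h.hw
  have hsw : s w = false := by
    rw [att_frozen hW.hs w hwU]
    unfold wv
    rw [update_of_ne h.hwv, update_self]
  have hWU : W ⊆ U := hW.sub
  have hcr : ∀ r ∈ W, r ∈ E96_CR R U w s := fun r hr => by rw [hW.hC]; exact hr
  refine ⟨W, s, {x | ∃ z, Rch R (U \ W) ∅ s z ∧ ∀ j, j ∉ insert w W → z j = x j}, ?_⟩
  refine
    { sub := hWU
      s01 := hW.hs
      sY := ⟨s, Relation.ReflTransGen.refl, fun _ _ => rfl⟩
      coh := ?_
      coh' := ?_
      frz := ?_
      clW := ?_
      clU := ?_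
      ind := ?_
      bd := ?_ }
  · intro r hr
    have h1 := E96_CR_spath hwU (hcr r hr)
    rwa [hW.hC, hsw, Bool.false_xor] at h1
  · intro r hr
    obtain ⟨-, h2⟩ := E96_mem_CR.1 (hcr r hr)
    obtain ⟨b, hb, hbr, harc⟩ := Relation.TransGen.tail'_iff.1 h2
    rcases Relation.ReflTransGen.cases_tail hb with e | ⟨b', hb', hbb⟩
    · right
      subst e
      rwa [hsw, Bool.false_xor] at harc
    · left
      refine ⟨b, ?_, harc⟩
      rw [← hW.hC]
      exact E96_mem_CR.2 ⟨hbb.1, Relation.TransGen.tail' hb' hbb⟩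
  · rintro x ⟨z, hz, hzx⟩ j hj hjw
    have hjI : j ∉ insert w W := by
      rw [Finset.mem_insert]
      rintro (e | e)
      · exact hjw e
      · exact hj (hWU e)
    rw [← hzx j hjI, hz.frozen j (fun e => hj (Finset.mem_sdiff.1 e).1) (Finset.notMem_empty j)]
    exact att_frozen hW.hs j hj
  · rintro x ⟨z, hz, hzx⟩ r b hr
    refine ⟨z, hz, fun j hj => ?_⟩
    have hjr : j ≠ r := by
      rintro rfl
      apply hj
      rw [Finset.mem_insert]
      exact hr.symm
    rw [update_of_ne hjr]
    exact hzx j hj
  · rintro x ⟨z, hz, hzx⟩ i hi hiW b hb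
    have hiw : i ≠ w := fun e => hwU (e ▸ hi)
    by_cases hbz : b = z i
    · refine ⟨z, hz, fun j hj => ?_⟩
      by_cases hji : j = i
      · subst hji
        rw [update_self, hbz]
      · rw [update_of_ne hji]
        exact hzx j hj
    · refine ⟨update z i b, hz.tail (Or.inl ⟨i, Finset.mem_sdiff.2 ⟨hi, hiW⟩, b,
        (hW.ind hA hwU hz hzx hi hiW hbz).2 hb, rfl⟩), fun j hj => ?_⟩
      by_cases hji : j = i
      · subst hji
        rw [update_self, update_self]
      · rw [update_of_ne hji, update_of_ne hji]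
        exact hzx j hj
  · rintro x ⟨z, hz, hzx⟩ x' hx' i hi hiW b hb
    have hiw : i ≠ w := fun e => hwU (e ▸ hi)
    have hiI : i ∉ insert w W := by
      rw [Finset.mem_insert]
      rintro (e | e)
      · exact hiw e
      · exact hiW e
    have hbz : b ≠ z i := by
      rw [hzx i hiI, hb]
      cases x i <;> decide
    have hzx' : ∀ j, j ∉ insert w W → z j = x' j := by
      intro j hj
      rw [Finset.mem_insert, not_or] at hj
      rw [hx' j hj.2 hj.1]
      exact hzx j (by rw [Finset.mem_insert, not_or]; exact hj)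
    rw [← hW.ind hA hwU hz hzx hi hiW hbz, ← hW.ind hA hwU hz hzx' hi hiW hbz]
  · rintro i hi hiW j hj ν harc x ⟨z, hz, hzx⟩
    have hiw : i ≠ w := fun e => hwU (e ▸ hi)
    have hiI : i ∉ insert w W := by
      rw [Finset.mem_insert]
      rintro (e | e)
      · exact hiw e
      · exact hiW e
    rw [← hzx i hiI]
    have key : ∀ z', Rch R (U \ W) ∅ s z' → z' i = !(xor (s j) ν) := by
      intro z' hz'
      by_contra hne
      have hzj : z' j = s j := by
        apply hz'.frozen j _ (Finset.notMem_empty j)
        intro e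
        rw [Finset.mem_sdiff] at e
        rcases hj with hj | hj
        · exact e.2 hj
        · exact hwU (hj ▸ e.1)
      have harc2 : Arc R (xor (z' j) (z' i)) j i := by
        have e : xor (z' j) (z' i) = ν := by
          rw [hzj]
          revert hne
          cases s j <;> cases ν <;> cases z' i <;> decide
        rw [e]
        exact harc
      have hC2 := hW.CR_eq hA hwU hz'
      apply hiW
      rw [← hC2]
      rcases hj with hj | hj
      · exact E96_CR_step hi (by rw [hC2]; exact hj) harc2
      · subst hj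
        exact E96_CR_step0 hi harc2
    rw [key z hz, key s Relation.ReflTransGen.refl]

end

end E96

-- T2_A2_h82.lean
theorem att_in_Y {R : Net V} {U : Finset V} {w v p q : V} {x0 : St V} (h : D R U w v p q x0)
    {W : Finset V} {s : St V}
    {Y : Set (St V)} (hR : RM R U w v x0 W s Y) (U' : Finset V) (hU' : U' ⊆ U) (x : St V)
    (hx : x ∈ Y) (hUW : U \ W ⊆ U') : att R U' x ⊆ Y := by
  intro z hz
  have h1 := hz x (fun _ _ => rfl)
  clear hz
  induction h1 with
  | refl => exact hx
  | @tail z t _ hs ih =>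
    rcases hs with ⟨i, hi, b, hb, rfl⟩ | ⟨i, hi, b, rfl⟩
    · by_cases hiW : i ∈ W
      · exact hR.clW z ih i b (Or.inl hiW)
      · exact hR.clU z ih i (hU' hi) hiW b hb
    · simp at hi

theorem readers_in {R : Net V} {U : Finset V} {w v p q : V} {x0 : St V}
    (h : D R U w v p q x0) (hmin : Min R U w) {W : Finset V} {s : St V}
    {Y : Set (St V)} (hR : RM R U w v x0 W s Y) (a : V) (ha : a ∈ U) (ν : Bool)
    (har : Arc R ν w a) : a ∈ W := by
  by_contra haW
  obtain ⟨y, hy, hya⟩ := M0 h hmin a ha ν har (M00 h hmin a ha ν har)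
  have hsa := M1 h hmin a ha ν har s hR.s01
  have hY : y ∈ Y := by
    refine att_in_Y h hR U (Finset.Subset.refl _) (update s w true)
      (hR.clW s hR.sY w true (Or.inr rfl)) Finset.sdiff_subset ?_
    rw [att_congr R U (update s w true) (wv x0 w v true true)]
    · exact hy
    · intro j hj
      have h1 := att_frozen hR.s01 j hj
      by_cases hjw : j = w
      · subst hjw
        rw [update_self]
        unfold wv
        rw [update_of_ne h.hwv, update_self]
      · rw [update_of_ne hjw, h1]
        unfold wv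
        by_cases hjv : j = v
        · subst hjv
          rw [update_self, update_self]
        · rw [update_of_ne hjv, update_of_ne hjv, update_of_ne hjw, update_of_ne hjw]
  have h2 := hR.bd a ha haW w (Or.inr rfl) ν har y hY
  rw [hsa, hya] at h2
  revert h2
  cases ν <;> simp

theorem exists_source {R : Net V} {U : Finset V} {w v p q : V} {x0 : St V}
    (h : D R U w v p q x0) (hmin : Min R U w) {W : Finset V} {s : St V}
    {Y : Set (St V)} (hR : RM R U w v x0 W s Y) :
    ∃ a ∈ W, Arc R (s a) w a ∧ ∀ r ∈ W, ∀ ν, Arc R ν r a → ν = !(xor (s r) (s a)) := by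
  obtain ⟨a0, ha0, ν0, har0⟩ := MR h hmin
  have hne : W.Nonempty := ⟨a0, readers_in h hmin hR a0 ha0 ν0 har0⟩
  have h1 := h.good.neg W hR.sub hne s
  push Not at h1
  obtain ⟨a, ha, haj⟩ := h1
  refine ⟨a, ha, ?_, ?_⟩
  · rcases hR.coh' a ha with ⟨j, hj, hja⟩ | h2
    · exfalso
      refine haj j hj ?_
      rwa [Bool.xor_comm]
    · exact h2
  · intro r hr ν hν
    have h2 : ν ≠ xor (s a) (s r) := by
      rintro rfl
      exact haj r hr hν
    revert h2
    cases ν <;> cases s a <;> cases s r <;> simp



-- T2_step4a_h71.lean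
/-- a run inside a closed set on which the vertices of `M \ M2` are constant -/
theorem S4a_run (R : Net V) (M M2 : Finset V) (A : Set (St V)) (s : St V)
    (hcl : ∀ x ∈ A, ∀ i ∈ M, ∀ b, R i b x → update x i b ∈ A)
    (hc : ∀ i ∈ M, i ∉ M2 → ∀ x ∈ A, x i = s i) {x z : St V} (hx : x ∈ A)
    (h : Rch R M ∅ x z) : Rch R M2 ∅ x z ∧ z ∈ A := by
  induction h with
  | refl => exact ⟨Relation.ReflTransGen.refl, hx⟩
  | @tail y z _ hs ih =>
    rcases hs with ⟨i, hi, b, hb, rfl⟩ | ⟨i, hi, -⟩
    · have hA := hcl y ih.2 i hi b hb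
      refine ⟨?_, hA⟩
      by_cases hi2 : i ∈ M2
      · exact Relation.ReflTransGen.tail ih.1 (Or.inl ⟨i, hi2, b, hb, rfl⟩)
      · have h1 := hc i hi hi2 _ hA
        rw [update_self] at h1
        have h2 := hc i hi hi2 _ ih.2
        have : update y i b = y := by
          rw [h1, ← h2, update_eq_self]
        rw [this]
        exact ih.1
    · exact absurd hi (Finset.notMem_empty i)

/-- a path which starts in `W` or `w` and does not use the vertices outside `W` that read `W`, `w`
stays inside `W` -/
theorem S4a_stay (R : Net V) (W : Finset V) (w : V) {M : Finset V} {ν : Bool} {j y : V}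
    (h : SPath R M ν j y) (hj : j ∈ W ∨ j = w)
    (hM : ∀ i ∈ M, i ∉ W → ∀ j, (j ∈ W ∨ j = w) → ∀ ν, ¬ Arc R ν j i) :
    SPath R (M ∩ W) ν j y := by
  induction h with
  | arc h => exact SPath.arc h
  | @cons M ν ν' u b y h hb _ ih =>
    have hbW : b ∈ W := by
      by_contra hbW
      exact hM b hb hbW u hj ν h
    refine SPath.cons h (Finset.mem_inter.2 ⟨hb, hbW⟩) ?_
    have h1 := ih (Or.inl hbW) (fun i hi => hM i (Finset.mem_of_mem_erase hi))
    have h2 : M.erase b ∩ W = (M ∩ W).erase b := by
      ext k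
      simp only [Finset.mem_inter, Finset.mem_erase]
      tauto
    rw [← h2]
    exact h1

variable {R : Net V} {U : Finset V} {w v p q : V} {x0 : St V}

theorem step4a (h : D R U w v p q x0) (hmin : Min R U w) {W : Finset V} {s : St V}
    {Y : Set (St V)} (hR : RM R U w v x0 W s Y) (a : V) (ha : a ∈ W) (har : Arc R (s a) w a) :
    ¬ SPath R (U \ W) (!(s a)) v a := by
  classical
  intro hQ
  have haU : a ∈ U := hR.sub ha
  have haw : a ≠ w := fun e => h.hw (e ▸ haU)
  have hav : a ≠ v := fun e => h.hv (e ▸ haU)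
  have hap : a ≠ p := fun e => h.hp (e ▸ haU)
  have haq : a ≠ q := fun e => h.hq (e ▸ haU)
  set x01 := wv x0 w v false true with hx01
  set x11 := wv x0 w v true true with hx11
  -- values of s outside U
  have hsfr : ∀ j, j ∉ U → s j = x01 j := fun j hj => att_frozen hR.s01 j hj
  have hsw : s w = false := by
    rw [hsfr w h.hw, hx01, wv, update_of_ne h.hwv, update_self]
  set bdv : Finset V := U.filter (fun i => i ∉ W ∧ ∃ j, (j ∈ W ∨ j = w) ∧ ∃ ν, Arc R ν j i)
    with hbdv
  set U2 : Finset V := (U \ bdv).erase a with hU2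
  have hU2U : U2 ⊆ U := fun i hi => (Finset.mem_sdiff.1 (Finset.mem_of_mem_erase hi)).1
  have haU2 : a ∉ U2 := Finset.notMem_erase a _
  have hU2W : ∀ i ∈ U2, i ∉ W → ∀ j, (j ∈ W ∨ j = w) → ∀ ν, ¬ Arc R ν j i := by
    intro i hi hiW j hj ν hν
    have h1 := Finset.mem_sdiff.1 (Finset.mem_of_mem_erase hi)
    exact h1.2 (Finset.mem_filter.2 ⟨h1.1, hiW, j, hj, ν, hν⟩)
  have hout : ∀ i ∈ U, i ∉ U2 → i = a ∨ i ∈ bdv := by
    intro i hi hi2
    by_contra hc
    rw [not_or] at hc
    exact hi2 (Finset.mem_erase.2 ⟨hc.1, Finset.mem_sdiff.2 ⟨hi, hc.2⟩⟩)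
  have hbdY : ∀ i ∈ bdv, ∀ x ∈ Y, x i = s i := by
    intro i hi x hx
    obtain ⟨h1, h2, j, h3, ν, h4⟩ := Finset.mem_filter.1 hi
    exact hR.bd i h1 h2 j h3 ν h4 x hx
  have hYcl : ∀ x ∈ Y, ∀ i ∈ U, ∀ b, R i b x → update x i b ∈ Y := by
    intro x hx i hi b hb
    by_cases hiW : i ∈ W
    · exact hR.clW x hx i b (Or.inl hiW)
    · exact hR.clU x hx i hi hiW b hb
  -- the attractors
  have e01 : att R U s = att R U x01 := att_congr R U s x01 hsfr
  have hX01Y : att R U x01 ⊆ Y := by
    rw [← e01]
    exact att_in_Y h hR U (Finset.Subset.refl _) s hR.sY Finset.sdiff_subset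
  have hswY : update s w true ∈ Y := hR.clW s hR.sY w true (Or.inr rfl)
  have e11' : ∀ j, j ∉ U → update s w true j = x11 j := by
    intro j hj
    by_cases hjw : j = w
    · subst hjw
      rw [update_self, hx11, wv, update_of_ne h.hwv, update_self]
    · rw [update_of_ne hjw, hsfr j hj, hx01, hx11, wv, wv]
      by_cases hjv : j = v
      · subst hjv
        rw [update_self, update_self]
      · rw [update_of_ne hjv, update_of_ne hjv, update_of_ne hjw, update_of_ne hjw]
  have e11 : att R U (update s w true) = att R U x11 := att_congr R U _ _ e11'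
  have hX11Y : att R U x11 ⊆ Y := by
    rw [← e11]
    exact att_in_Y h hR U (Finset.Subset.refl _) _ hswY Finset.sdiff_subset
  have hM1 : ∀ x ∈ att R U x01, x a = s a := M1 h hmin a haU (s a) har
  have hG2 : Good R U2 := h.good.mono hU2U
  obtain ⟨t, ht⟩ := att_nonempty hG2 s
  have ht01 : t ∈ att R U x01 := att_sub hU2U hR.s01 ht
  -- X01 = att R U2 s
  have hX2 : ∀ z ∈ att R U x01, z ∈ att R U2 s := by
    intro z hz y hy
    have h1 : Rch R U2 ∅ y t := ht y hy
    have h2 : Rch R U ∅ t z := hz t (fun j hj => by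
      rw [att_frozen ht01 j hj])
    have h3 := S4a_run R U U2 (att R U x01) s
      (fun x hx i hi b hb => att_closed hx
        (Relation.ReflTransGen.single (Or.inl ⟨i, hi, b, hb, rfl⟩)))
      (fun i hi hi2 x hx => by
        rcases hout i hi hi2 with rfl | hib
        · exact hM1 x hx
        · exact hbdY i hib x (hX01Y hx)) ht01 h2
    exact Relation.ReflTransGen.trans h1 h3.1
  -- the sign of a → q
  have haq2 : ∀ μ, SPath R U2 μ a q → μ = !(s a) := by
    intro μ hμ
    have h1 : SPath R (U2 ∩ W) μ a q := S4a_stay R W w hμ (Or.inl ha) hU2W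
    have h2 := SPath.append' hQ h1 (fun e => (Finset.mem_sdiff.1 e).2 ha)
      (fun e => haU2 (Finset.mem_inter.1 e).1) (by
        rw [Finset.disjoint_left]
        intro i hi hi'
        exact (Finset.mem_sdiff.1 hi').2 (Finset.mem_inter.1 hi).2)
    have h3 := h.S2 _ (SPath.mono' h2 (by
      intro i hi
      rw [Finset.mem_insert, Finset.mem_union, Finset.mem_sdiff, Finset.mem_inter] at hi
      rcases hi with rfl | hi | hi
      · exact haU
      · exact hi.1
      · exact hU2U hi.1))
    revert h3
    cases μ <;> cases s a <;> simp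
  -- the switched network
  set σ : St V := fun j => if j = a then !(s a) else false with hσ
  have hσa : σ a = !(s a) := by simp [hσ]
  have hσn : ∀ j, j ≠ a → σ j = false := fun j hj => by simp [hσ, hj]
  set τ : St V → St V := fun x j => xor (x j) (σ j) with hτ
  have hττ : ∀ x, τ (τ x) = x := by
    intro x
    funext j
    simp [hτ]
  have eb01 : τ (wv (τ s) w a false true) = s := by
    funext j
    by_cases hja : j = a
    · subst hja
      show xor (wv (τ s) w j false true j) (σ j) = s j
      rw [wv, update_self, hσa]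
      cases s j <;> rfl
    · show xor (wv (τ s) w a false true j) (σ j) = s j
      rw [wv, update_of_ne hja, hσn j hja]
      by_cases hjw : j = w
      · subst hjw
        rw [update_self, hsw]
        rfl
      · rw [update_of_ne hjw]
        show xor (xor (s j) (σ j)) false = s j
        rw [hσn j hja]
        cases s j <;> rfl
  have eb11 : τ (wv (τ s) w a true true) = update s w true := by
    funext j
    by_cases hja : j = a
    · subst hja
      show xor (wv (τ s) w j true true j) (σ j) = update s w true j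
      rw [wv, update_self, hσa, update_of_ne haw]
      cases s j <;> rfl
    · show xor (wv (τ s) w a true true j) (σ j) = update s w true j
      rw [wv, update_of_ne hja, hσn j hja]
      by_cases hjw : j = w
      · subst hjw
        rw [update_self, update_self]
        rfl
      · rw [update_of_ne hjw, update_of_ne hjw]
        show xor (xor (s j) (σ j)) false = s j
        rw [hσn j hja]
        cases s j <;> rfl
  have hRp : ∀ x, sw σ R p true x ↔ R p true (τ x) := by
    intro x
    show R p (xor true (σ p)) (τ x) ↔ _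
    rw [hσn p hap.symm]
    rfl
  have hRq : ∀ x, sw σ R q false x ↔ R q false (τ x) := by
    intro x
    show R q (xor false (σ q)) (τ x) ↔ _
    rw [hσn q haq.symm]
    rfl
  refine hmin (sw σ R) U2 w a p q (τ s) (Or.inl ?_) ?_
  · exact Finset.card_lt_card ⟨hU2U, fun hh => haU2 (hh haU)⟩
  refine
    { good := Good_sw σ hG2
      hw := fun e => h.hw (hU2U e)
      hv := haU2
      hp := fun e => h.hp (hU2U e)
      hq := fun e => h.hq (hU2U e)
      hwv := haw.symm
      c1 := ?_
      c2 := ?_
      c3 := ?_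
      c4 := ?_
      S1 := ?_
      S2 := ?_
      S3 := ?_ }
  · intro x hx hp
    rw [att_sw] at hx
    rw [hRp] at hp
    have hx' : τ x ∈ att R U2 s := by
      rw [← eb01]
      exact hx
    exact h.c1 _ (att_sub hU2U hR.s01 hx') hp
  · obtain ⟨x, hx, hq⟩ := h.c2
    refine ⟨τ x, ?_, ?_⟩
    · rw [att_sw]
      show τ (τ x) ∈ att R U2 (τ (wv (τ s) w a false true))
      rw [hττ, eb01]
      exact hX2 x hx
    · rw [hRq, hττ]
      exact hq
  · intro x hx hq
    rw [att_sw] at hx
    rw [hRq] at hq
    have hx' : τ x ∈ att R U2 (update s w true) := by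
      rw [← eb11]
      exact hx
    obtain ⟨y, hy, hya⟩ := M0 h hmin a haU (s a) har (M00 h hmin a haU (s a) har)
    have h1 : Rch R U2 {a} y (update y a (s a)) :=
      Relation.ReflTransGen.single (Or.inr ⟨a, Finset.mem_singleton_self a, s a, rfl⟩)
    have h2 : Rch R U2 ∅ (update y a (s a)) (τ x) := by
      apply hx'
      intro j hj
      by_cases hja : j = a
      · subst hja
        rw [update_self, update_of_ne haw]
      · rw [update_of_ne hja]
        by_cases hjU : j ∈ U
        · rcases hout j hjU hj with e | hjb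
          · exact absurd e hja
          · rw [hbdY j hjb y (hX11Y hy), hbdY j hjb _ hswY]
        · rw [att_frozen hy j hjU, e11' j hjU]
    have h3 : Rch R U2 {a} y (τ x) := Relation.ReflTransGen.trans h1
      (h2.mono (Finset.subset_union_left) (Finset.empty_subset _))
    obtain ⟨z', h4, h5⟩ := rt1 R U2 a q haU2 false (!(s a)) haq2 y (τ x) h3 hq
    have h6 : update y a (xor false (!(s a))) = y := by
      rw [Bool.false_xor, ← hya, update_eq_self]
    rw [h6] at h4
    exact h.c3 z' (att_closed hy (h4.mono (by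
      intro i hi
      exact Finset.mem_union_left _ (hU2U hi)) (Finset.Subset.refl _))) h5
  · obtain ⟨x3, hx3, hp3⟩ := M3 h hmin a haU (s a) har
    have ht2 : t ∈ att R U2 s := ht
    refine ⟨τ t, ?_, τ x3, ?_, ?_⟩
    · rw [att_sw]
      show τ (τ t) ∈ att R U2 (τ (wv (τ s) w a false true))
      rw [hττ, eb01]
      exact ht2
    · rw [Rch_sw]
      show Rch R U2 {a} (τ (τ t)) (τ (τ x3))
      rw [hττ, hττ]
      have h1 : Rch R U2 {a} t (update t a (!(s a))) :=
        Relation.ReflTransGen.single (Or.inr ⟨a, Finset.mem_singleton_self a, _, rfl⟩)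
      have htY : update t a (!(s a)) ∈ Y := hR.clW t (hX01Y ht01) a _ (Or.inl ha)
      have h2 : Rch R (U.erase a) ∅ (update t a (!(s a))) x3 := by
        apply hx3
        intro j hj
        by_cases hja : j = a
        · subst hja
          rw [update_self, update_self]
        · rw [update_of_ne hja, update_of_ne hja]
          exact att_frozen ht01 j (fun e => hj (Finset.mem_erase.2 ⟨hja, e⟩))
      have h3 := S4a_run R (U.erase a) U2 Y s
        (fun x hx i hi b hb => hYcl x hx i (Finset.mem_of_mem_erase hi) b hb)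
        (fun i hi hi2 x hx => by
          rcases hout i (Finset.mem_of_mem_erase hi) hi2 with e | hib
          · exact absurd e (Finset.ne_of_mem_erase hi)
          · exact hbdY i hib x hx) htY h2
      exact Relation.ReflTransGen.trans h1
        (h3.1.mono (Finset.subset_union_left) (Finset.empty_subset _))
    · rw [hRp, hττ]
      exact hp3
  · intro ν hν
    rw [SPath_sw, hσn p hap.symm, hσn w haw.symm] at hν
    have h1 := h.S1 _ (SPath.mono' hν hU2U)
    revert h1
    cases ν <;> simp
  · intro ν hν
    rw [SPath_sw, hσn q haq.symm, hσa] at hν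
    have h1 := haq2 _ hν
    revert h1
    cases ν <;> cases s a <;> simp
  · intro N1 N2 ν1 ν2 hN1 hN2 hd h1 h2
    rw [SPath_sw, hσn q haq.symm, hσn w haw.symm] at h1
    rw [SPath_sw, hσn p hap.symm, hσa] at h2
    have h1' := S4a_stay R W w h1 (Or.inr rfl) (fun i hi => hU2W i (hN1 hi))
    have h2' := S4a_stay R W w h2 (Or.inl ha) (fun i hi => hU2W i (hN2 hi))
    have h3 := SPath.append' hQ h2' (fun e => (Finset.mem_sdiff.1 e).2 ha)
      (fun e => haU2 (hN2 (Finset.mem_inter.1 e).1)) (by
        rw [Finset.disjoint_left]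
        intro i hi hi'
        exact (Finset.mem_sdiff.1 hi').2 (Finset.mem_inter.1 hi).2)
    have h4 := h.S3 (N1 ∩ W) (insert a ((U \ W) ∪ (N2 ∩ W))) _ _
      (fun i hi => hU2U (hN1 (Finset.mem_inter.1 hi).1)) (by
        intro i hi
        rw [Finset.mem_insert, Finset.mem_union, Finset.mem_sdiff, Finset.mem_inter] at hi
        rcases hi with rfl | hi | hi
        · exact haU
        · exact hi.1
        · exact hU2U (hN2 hi.1)) (by
        rw [Finset.disjoint_left]
        intro i hi hi'
        obtain ⟨hi1, hiW⟩ := Finset.mem_inter.1 hi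
        rw [Finset.mem_insert, Finset.mem_union, Finset.mem_sdiff, Finset.mem_inter] at hi'
        rcases hi' with rfl | hi' | hi'
        · exact haU2 (hN1 hi1)
        · exact hi'.2 hiW
        · exact Finset.disjoint_left.1 hd hi1 hi'.1) h1' h3
    revert h4
    cases ν1 <;> cases ν2 <;> cases s a <;> simp

-- T2_step4b_h79.lean
section
variable {V : Type} [Fintype V] [DecidableEq V]

open Classical in
/-- the vertices outside `W` see `W` free -/
def S4_net (R : Net V) (W : Finset V) : Net V := fun i b x =>
  if i ∈ W then R i b x else ∃ c : V → Bool, R i b (ow x c W)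

theorem S4_in {R : Net V} {W : Finset V} {i : V} {b : Bool} {x : V → Bool} (hi : i ∈ W) :
    S4_net R W i b x ↔ R i b x := by
  unfold S4_net
  rw [if_pos hi]

theorem S4_out {R : Net V} {W : Finset V} {i : V} {b : Bool} {x : V → Bool} (hi : i ∉ W) :
    S4_net R W i b x ↔ ∃ c : V → Bool, R i b (ow x c W) := by
  unfold S4_net
  rw [if_neg hi]

theorem S4_ow_self (x : V → Bool) (W : Finset V) : ow x x W = x := by
  funext j
  unfold ow
  split_ifs <;> rfl

theorem S4_ow_mem {x c : V → Bool} {W : Finset V} {j : V} {t : Bool} (hj : j ∈ W) :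
    ow (update x j t) c W = ow x c W := by
  funext k
  unfold ow
  split_ifs with h
  · rfl
  · rw [update_of_ne]
    rintro rfl
    exact h hj

theorem S4_ow_notMem {x c : V → Bool} {W : Finset V} {j : V} {t : Bool} (hj : j ∉ W) :
    ow (update x j t) c W = update (ow x c W) j t := by
  funext k
  by_cases hk : k = j
  · subst hk
    rw [update_self]
    unfold ow
    rw [if_neg hj, update_self]
  · rw [update_of_ne hk]
    unfold ow
    rw [update_of_ne hk]

theorem S4_arc {R : Net V} {W : Finset V} {ν : Bool} {j i : V} (h : Arc (S4_net R W) ν j i) :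
    Arc R ν j i ∧ (i ∉ W → j ∉ W) := by
  obtain ⟨x, b, h1, h2⟩ := h
  by_cases hi : i ∈ W
  · rw [S4_in hi] at h1 h2
    exact ⟨⟨x, b, h1, h2⟩, fun h => absurd hi h⟩
  · rw [S4_out hi] at h1 h2
    obtain ⟨c, hc⟩ := h2
    by_cases hj : j ∈ W
    · exfalso
      apply h1
      refine ⟨c, ?_⟩
      rw [S4_ow_mem hj] at hc ⊢
      exact hc
    · refine ⟨⟨ow x c W, b, ?_, ?_⟩, fun _ => hj⟩
      · intro h3
        apply h1
        refine ⟨c, ?_⟩
        rw [S4_ow_notMem hj]
        exact h3
      · rw [S4_ow_notMem hj] at hc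
        exact hc

theorem S4_path {R : Net V} {W M : Finset V} {ν : Bool} {u y : V}
    (h : SPath (S4_net R W) M ν u y) : SPath R M ν u y := by
  induction h with
  | arc h => exact SPath.arc (S4_arc h).1
  | cons h ha _ ih => exact SPath.cons (S4_arc h).1 ha ih

section Mins
variable {R : Net V} {U : Finset V} {w v p q : V} {x0 : St V}

theorem step4b (h : D R U w v p q x0) (hmin : Min R U w) {W : Finset V} {s : St V}
    {Y : Set (St V)} (hR : RM R U w v x0 W s Y) (a : V) (ha : a ∈ W) (har : Arc R (s a) w a)
    (hsrc : ∀ r ∈ W, ∀ ν, Arc R ν r a → ν = !(xor (s r) (s a)))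
    (hv : ∀ ν, SPath R (U \ W) ν v a → ν = s a) :
    ∀ z, Rch R (U.erase a) {v} s z → ¬ R a (!(s a)) z := by
  intro z hz hza
  have hsv : s v = true := by
    rw [hR.frz s hR.sY v h.hv h.hwv.symm]
    unfold wv
    rw [update_self]
  have hvW : v ∉ W := fun hvW => h.hv (hR.sub hvW)
  -- the run in the new network
  have hrun : Rch (S4_net R W) (U \ W) (insert v (W.erase a)) s z := by
    refine Relation.ReflTransGen.mono ?_ _ _ hz
    rintro x y (⟨i, hi, b, hRi, rfl⟩ | ⟨i, hi, b, rfl⟩)
    · rw [Finset.mem_erase] at hi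
      by_cases hiW : i ∈ W
      · exact Or.inr ⟨i, Finset.mem_insert_of_mem (Finset.mem_erase.2 ⟨hi.1, hiW⟩), b, rfl⟩
      · refine Or.inl ⟨i, Finset.mem_sdiff.2 ⟨hi.2, hiW⟩, b, ?_, rfl⟩
        rw [S4_out hiW]
        refine ⟨x, ?_⟩
        rw [S4_ow_self]
        exact hRi
    · rw [Finset.mem_singleton] at hi
      subst hi
      exact Or.inr ⟨i, Finset.mem_insert_self _ _, b, rfl⟩
  have hdis : Disjoint (U \ W) (insert v (W.erase a)) := by
    rw [Finset.disjoint_left]
    intro i hi hi2
    rw [Finset.mem_sdiff] at hi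
    rw [Finset.mem_insert, Finset.mem_erase] at hi2
    rcases hi2 with rfl | hi2
    · exact h.hv hi.1
    · exact hi.2 hi2.2
  obtain ⟨z', hz', hgoal⟩ := rtmF (S4_net R W) (U \ W) (insert v (W.erase a)) hdis a (!(s a)) s z
    (by
      intro e he ν hp
      rw [Finset.mem_insert] at he
      rcases he with rfl | he
      · rw [hv ν (S4_path hp), hsv]
        cases s a <;> rfl
      · rw [Finset.mem_erase] at he
        cases hp with
        | arc h1 =>
          rw [hsrc e he.2 ν (S4_arc h1).1]
          cases s a <;> cases s e <;> rfl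
        | cons h1 hb _ =>
          exact absurd he.2 ((S4_arc h1).2 (Finset.mem_sdiff.1 hb).2))
    hrun ((S4_in ha).2 hza)
  -- the new run is honest
  have key : ∀ y, Rch (S4_net R W) (U \ W) ∅ s y → Rch R (U \ W) ∅ s y ∧ y ∈ Y := by
    intro y hy
    induction hy with
    | refl => exact ⟨Relation.ReflTransGen.refl, hR.sY⟩
    | @tail x y _ hst ih =>
      obtain ⟨ih1, ih2⟩ := ih
      rcases hst with ⟨i, hi, b, hRi, rfl⟩ | ⟨i, hi, _⟩
      · rw [Finset.mem_sdiff] at hi
        by_cases hb : b = x i
        · rw [hb, update_eq_self]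
          exact ⟨ih1, ih2⟩
        · have hb' : b = !(x i) := by
            cases h1 : b <;> cases h2 : x i <;> simp_all
          rw [S4_out hi.2] at hRi
          obtain ⟨c, hc⟩ := hRi
          have hRx : R i b x := by
            refine (hR.ind x ih2 (ow x c W) ?_ i hi.1 hi.2 b hb').2 hc
            intro j hj _
            unfold ow
            rw [if_neg hj]
          refine ⟨ih1.tail (Or.inl ⟨i, Finset.mem_sdiff.2 hi, b, hRx, rfl⟩), ?_⟩
          exact hR.clU x ih2 i hi.1 hi.2 b hRx
      · exact absurd hi (Finset.notMem_empty i)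
  obtain ⟨hz1, hzY⟩ := key z' hz'
  have haU : a ∈ U := hR.sub ha
  have hz2 : z' ∈ att R U (wv x0 w v false true) := by
    refine att_closed hR.s01 (Rch.mono ?_ (Finset.Subset.refl _) hz1)
    rw [Finset.union_empty]
    exact Finset.sdiff_subset
  have hz3 : update z' a (!(s a)) ∈ att R U (wv x0 w v false true) :=
    att_closed hz2 (Relation.ReflTransGen.single (Or.inl ⟨a, haU, _, (S4_in ha).1 hgoal, rfl⟩))
  have h4 := M1 h hmin a haU (s a) har _ hz3
  rw [update_self] at h4
  cases h5 : s a <;> rw [h5] at h4 <;> exact absurd h4 (by decide)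

end Mins

end

end Mins

/-! ### F: the theorem -/
-- T2_F_h55.lean
section FF
variable {V : Type} [Fintype V] [DecidableEq V]

/-- the first time `a` may change -/
theorem F_first {R : Net V} {U F : Finset V} {a : V} (haF : a ∉ F) {x z : St V}
    (h : Rch R U F x z) :
    (Rch R (U.erase a) F x z) ∨
      ∃ z0, Rch R (U.erase a) F x z0 ∧ R a (!(x a)) z0 := by
  induction h with
  | refl => exact Or.inl Relation.ReflTransGen.refl
  | @tail b c _ hs ih =>
    rcases ih with ih | ih
    · have hba : b a = x a := ih.frozen a (Finset.notMem_erase a U) haF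
      rcases hs with ⟨i, hi, e, hR, rfl⟩ | ⟨i, hi, e, rfl⟩
      · by_cases hia : i = a
        · subst hia
          by_cases hc : e = x i
          · left
            have h2 : update b i e = b := by
              rw [hc, ← hba]
              exact update_eq_self i b
            rw [h2]
            exact ih
          · right
            refine ⟨b, ih, ?_⟩
            have h3 : (!(x i)) = e := by
              revert hc
              cases e <;> cases x i <;> simp
            rw [h3]
            exact hR
        · left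
          exact ih.tail (Or.inl ⟨i, Finset.mem_erase.2 ⟨hia, hi⟩, e, hR, rfl⟩)
      · left
        exact ih.tail (Or.inr ⟨i, hi, e, rfl⟩)
    · exact Or.inr ih

theorem F_min (R : Net V) (U : Finset V) (w v p q : V) (x0 : St V) (h : D R U w v p q x0)
    (hmin : Min R U w) : False := by
  obtain ⟨W, s, Y, hR⟩ := exists_RM h
  obtain ⟨a, haW, har, hsrc⟩ := exists_source h hmin hR
  have haU : a ∈ U := hR.sub haW
  have h4a := step4a h hmin hR a haW har
  have hv : ∀ ν, SPath R (U \ W) ν v a → ν = s a := by
    intro ν hν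
    by_contra hne
    have e : ν = !(s a) := by
      revert hne
      cases ν <;> cases s a <;> simp
    exact h4a (e ▸ hν)
  have h4b := step4b h hmin hR a haW har hsrc hv
  obtain ⟨x, hx, z, hxz, hz⟩ := h.c4
  have hsx : Rch R U ∅ s x := hx s fun j hj => att_frozen hR.s01 j hj
  have hsz : Rch R U {v} s z := (hsx.mono Finset.subset_union_left (Finset.empty_subset _)).trans hxz
  have hav : a ∉ ({v} : Finset V) := by
    rw [Finset.mem_singleton]
    rintro rfl
    exact h.hv haU
  rcases F_first hav hsz with h1 | ⟨z0, h1, h2⟩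
  · exact M2 h hmin a haU (s a) har s hR.s01 z h1 hz
  · exact h4b z0 h1 h2

theorem F_all (n : ℕ) : ∀ (R : Net V) (U : Finset V) (w v p q : V) (x0 : St V),
    U.card * (Fintype.card V + 1) + rd R U w = n → ¬ D R U w v p q x0 := by
  induction n using Nat.strong_induction_on with
  | _ n ih =>
    intro R U w v p q x0 hn h
    refine F_min R U w v p q x0 h ?_
    intro R' U' w' v' p' q' x' hlt
    refine ih (U'.card * (Fintype.card V + 1) + rd R' U' w') ?_ R' U' w' v' p' q' x' rfl
    have hrd : ∀ (R1 : Net V) (U1 : Finset V) (w1 : V), rd R1 U1 w1 ≤ Fintype.card V := by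
      intro R1 U1 w1
      unfold rd
      exact Finset.card_le_univ _
    have h1 := hrd R' U' w'
    rw [← hn]
    rcases hlt with hlt | ⟨he, hlt⟩
    · have h2 : (U'.card + 1) * (Fintype.card V + 1) ≤ U.card * (Fintype.card V + 1) :=
        Nat.mul_le_mul_right _ hlt
      rw [Nat.add_mul] at h2
      omega
    · rw [he]
      omega

/-! ### F: the theorem -/
theorem TCp (R : Net V) (U : Finset V) (w v p q : V) (x0 : St V) : ¬ D R U w v p q x0 :=
  F_all _ R U w v p q x0 rfl

end FF

end

end Pool.Agent.Lib.MP_8a6e71_co.T2
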