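import Pool.Agent.Lib.MP_8a6e71_co.T2All

set_option autoImplicit false
set_option linter.unusedSectionVars false

/-! TwoLatches in strong components (helper64). -/

namespace Pool.Agent.Lib.MP_8a6e71_co.T2

open Function Pool.Agent.Lib.MP_8a6e71_co.RS

section TwoNet
variable {V : Type} [Fintype V] [DecidableEq V]

/-- attractor of the moves of `S` -/
structure AttN (R : Net V) (S : Finset V) (A : Set (V → Bool)) : Prop where
  ne : A.Nonempty
  closed : ∀ x ∈ A, ∀ y, Rch R S ∅ x y → y ∈ A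
  conn : ∀ x ∈ A, ∀ y ∈ A, Rch R S ∅ x y

theorem first_exitN (R : Net V) (S K : Finset V) (x y : V → Bool) (h : Rch R S ∅ x y) :
    Rch R (S \ K) ∅ x y ∨ ∃ z, ∃ k ∈ K, Rch R (S \ K) ∅ x z ∧ R k (!(x k)) z := by
  induction h with
  | refl => exact Or.inl Relation.ReflTransGen.refl
  | @tail a b _ hs ih =>
    rcases ih with ih | ih
    · rcases hs with ⟨i, hi, c, hR, rfl⟩ | ⟨i, hi, _⟩
      · by_cases hiK : i ∈ K
        · by_cases hc : c = x i
          · left
            have h1 : a i = x i := ih.frozen i (by simp [hiK]) (by simp)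
            have h2 : update a i c = a := by rw [hc, ← h1]; exact update_eq_self i a
            rw [h2]
            exact ih
          · right
            refine ⟨a, i, hiK, ih, ?_⟩
            have : (!(x i)) = c := by
              revert hc; cases c <;> cases x i <;> simp
            rw [this]
            exact hR
        · left
          exact ih.tail (Or.inl ⟨i, Finset.mem_sdiff.2 ⟨hi, hiK⟩, c, hR, rfl⟩)
      · exact absurd hi (Finset.notMem_empty i)
    · exact Or.inr ih

theorem AttN.step {R : Net V} {S : Finset V} {A : Set (V → Bool)} (hA : AttN R S A)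
    {x : V → Bool} (hx : x ∈ A) {i : V} (hi : i ∈ S) {b : Bool} (h : R i b x) :
    update x i b ∈ A :=
  hA.closed x hx _ (Relation.ReflTransGen.single (Or.inl ⟨i, hi, b, h, rfl⟩))

/-- the TC data from three corners, `B` at the corner `(true, true)` -/
theorem three_corners
    (hTC : ∀ (R : Net V) (U : Finset V) (w v p q : V) (x0 : V → Bool), ¬ D R U w v p q x0)
    (R : Net V) (S : Finset V) (w v : V) (hw : w ∈ S) (hv : v ∈ S) (hwv : w ≠ v)
    (hG : Good R (S \ {w, v}))
    (S1 : ∀ ν, SPath R (S \ {w, v}) ν w w → ν = false)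
    (S2 : ∀ ν, SPath R (S \ {w, v}) ν v v → ν = false)
    (S3 : ∀ M1 M2 ν1 ν2, M1 ⊆ S \ {w, v} → M2 ⊆ S \ {w, v} → Disjoint M1 M2 →
      SPath R M1 ν1 w v → SPath R M2 ν2 v w → ν1 = ν2)
    (A B : Set (V → Bool)) (hA : AttN R S A) (hB : AttN R S B)
    (hAB : ∀ x ∈ A, ∀ y ∈ B, ∀ j, j ∉ S → x j = y j)
    (hB11 : ∃ y ∈ B, y w = true ∧ y v = true)
    (hA11 : ∀ x ∈ A, ¬ (x w = true ∧ x v = true))
    (hB10 : ∀ y ∈ B, ¬ (y w = true ∧ y v = false))
    (hA01 : ∃ x ∈ A, x w = false ∧ x v = true)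
    (hA10 : ∃ x ∈ A, x w = true ∧ x v = false) : False := by
  classical
  obtain ⟨a, ha, haw, hav⟩ := hA01
  obtain ⟨b, hb, hbw, hbv⟩ := hB11
  obtain ⟨t, ht, htw, htv⟩ := hA10
  have hUS : S \ {w, v} ⊆ S := Finset.sdiff_subset
  have hwU : w ∉ S \ {w, v} := by simp
  have hvU : v ∉ S \ {w, v} := by simp
  have e01 : wv a w v false true = a := by
    unfold wv
    funext j
    by_cases h1 : j = v
    · subst h1; simp [hav]
    · rw [update_of_ne h1]
      by_cases h2 : j = w
      · subst h2; simp [haw]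
      · rw [update_of_ne h2]
  have attA : ∀ x ∈ att R (S \ {w, v}) (wv a w v false true), x ∈ A ∧ x w = false ∧ x v = true := by
    intro x hx
    have h1 : Rch R (S \ {w, v}) ∅ a x := hx a (fun j _ => by rw [e01])
    refine ⟨hA.closed a ha x (h1.mono (by simpa using hUS) (by simp)), ?_, ?_⟩
    · rw [h1.frozen w hwU (by simp)]; exact haw
    · rw [h1.frozen v hvU (by simp)]; exact hav
  have attB : ∀ x ∈ att R (S \ {w, v}) (wv a w v true true), x ∈ B ∧ x w = true ∧ x v = true := by
    intro x hx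
    have h1 : Rch R (S \ {w, v}) ∅ b x := by
      apply hx b
      intro j hj
      unfold wv
      by_cases h1 : j = v
      · subst h1; simp [hbv]
      · rw [update_of_ne h1]
        by_cases h2 : j = w
        · subst h2; simp [hbw]
        · rw [update_of_ne h2]
          exact (hAB a ha b hb j (fun hjS => hj (by simp [hjS, h1, h2]))).symm
    refine ⟨hB.closed b hb x (h1.mono (by simpa using hUS) (by simp)), ?_, ?_⟩
    · rw [h1.frozen w hwU (by simp)]; exact hbw
    · rw [h1.frozen v hvU (by simp)]; exact hbv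
  obtain ⟨z, hz⟩ := att_nonempty hG (wv a w v false true)
  obtain ⟨hzA, hzw, hzv⟩ := attA z hz
  have noW : ∀ x ∈ A, x v = true → ¬ R w true x := by
    intro x hx hxv hR
    refine hA11 _ (hA.step hx hw hR) ⟨by simp, ?_⟩
    rw [update_of_ne (Ne.symm hwv)]
    exact hxv
  refine hTC R (S \ {w, v}) w v w v a ⟨hG, hwU, hvU, hwU, hvU, hwv, ?_, ?_, ?_, ?_, S1, S2, S3⟩
  · intro x hx
    obtain ⟨h1, _, h3⟩ := attA x hx
    exact noW x h1 h3
  · rcases first_exitN R S {w, v} z t (hA.conn z hzA t ht) with h | ⟨z', k, hk, hz', hR⟩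
    · exfalso
      have h1 := h.frozen w hwU (by simp)
      rw [htw, hzw] at h1
      exact absurd h1 (by decide)
    · have hz'att : z' ∈ att R (S \ {w, v}) (wv a w v false true) :=
        fun y hy => (hz y hy).trans hz'
      obtain ⟨h1, h2, h3⟩ := attA z' hz'att
      rcases Finset.mem_insert.1 hk with rfl | hk
      · exfalso
        rw [hzw] at hR
        exact noW z' h1 h3 hR
      · rw [Finset.mem_singleton] at hk
        subst hk
        rw [hzv] at hR
        exact ⟨z', hz'att, hR⟩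
  · intro x hx hR
    obtain ⟨h1, h2, h3⟩ := attB x hx
    refine hB10 _ (hB.step h1 hv hR) ⟨?_, by simp⟩
    rw [update_of_ne hwv]
    exact h2
  · rcases first_exitN R S {w} z t (hA.conn z hzA t ht) with h | ⟨z', k, hk, hz', hR⟩
    · exfalso
      have h1 := h.frozen w (by simp) (by simp)
      rw [htw, hzw] at h1
      exact absurd h1 (by decide)
    · rw [Finset.mem_singleton] at hk
      subst hk
      rw [hzw] at hR
      refine ⟨z, hz, z', hz'.mono ?_ (by simp), hR⟩
      intro j hj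
      simp only [Finset.mem_sdiff, Finset.mem_singleton, Finset.mem_union, Finset.mem_insert] at hj ⊢
      tauto

/-- the same for `B` at the corner `(α, β)` -/
theorem three_corners'
    (hTC : ∀ (R : Net V) (U : Finset V) (w v p q : V) (x0 : V → Bool), ¬ D R U w v p q x0)
    (R : Net V) (S : Finset V) (w v : V) (hw : w ∈ S) (hv : v ∈ S) (hwv : w ≠ v)
    (hG : Good R (S \ {w, v}))
    (S1 : ∀ ν, SPath R (S \ {w, v}) ν w w → ν = false)
    (S2 : ∀ ν, SPath R (S \ {w, v}) ν v v → ν = false)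
    (S3 : ∀ M1 M2 ν1 ν2, M1 ⊆ S \ {w, v} → M2 ⊆ S \ {w, v} → Disjoint M1 M2 →
      SPath R M1 ν1 w v → SPath R M2 ν2 v w → ν1 = ν2)
    (A B : Set (V → Bool)) (hA : AttN R S A) (hB : AttN R S B)
    (hAB : ∀ x ∈ A, ∀ y ∈ B, ∀ j, j ∉ S → x j = y j) (α β : Bool)
    (hB11 : ∃ y ∈ B, y w = α ∧ y v = β)
    (hA11 : ∀ x ∈ A, ¬ (x w = α ∧ x v = β))
    (hB10 : ∀ y ∈ B, ¬ (y w = α ∧ y v = !β))
    (hA01 : ∃ x ∈ A, x w = !α ∧ x v = β)
    (hA10 : ∃ x ∈ A, x w = α ∧ x v = !β) : False := by
  classical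
  obtain ⟨σ, hσ⟩ : ∃ σ : V → Bool, σ = fun j => if j = w then !α else if j = v then !β else false :=
    ⟨_, rfl⟩
  have hσw : σ w = !α := by rw [hσ]; simp
  have hσv : σ v = !β := by rw [hσ]; simp [Ne.symm hwv]
  have hinv : ∀ x : V → Bool, (fun j => xor ((fun j => xor (x j) (σ j)) j) (σ j)) = x := by
    intro x
    funext j
    simp
  have key : ∀ C : Set (V → Bool), AttN R S C →
      AttN (sw σ R) S {x | (fun j => xor (x j) (σ j)) ∈ C} := by
    intro C hC
    refine ⟨?_, ?_, ?_⟩
    · obtain ⟨x, hx⟩ := hC.ne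
      refine ⟨fun j => xor (x j) (σ j), ?_⟩
      change (fun j => xor ((fun j => xor (x j) (σ j)) j) (σ j)) ∈ C
      rw [hinv]
      exact hx
    · intro x hx y hxy
      exact hC.closed _ hx _ ((Rch_sw σ R S ∅ x y).1 hxy)
    · intro x hx y hy
      exact (Rch_sw σ R S ∅ x y).2 (hC.conn _ hx _ hy)
  have tr : ∀ (C : Set (V → Bool)) (a b : Bool), (∃ y ∈ C, y w = a ∧ y v = b) →
      ∃ y ∈ {x : V → Bool | (fun j => xor (x j) (σ j)) ∈ C},
        y w = xor a (σ w) ∧ y v = xor b (σ v) := by
    rintro C a b ⟨y, hy, h1, h2⟩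
    refine ⟨fun j => xor (y j) (σ j), ?_, ?_, ?_⟩
    · change (fun j => xor ((fun j => xor (y j) (σ j)) j) (σ j)) ∈ C
      rw [hinv]
      exact hy
    · simp [h1]
    · simp [h2]
  have nt : ∀ (C : Set (V → Bool)) (a b a' b' : Bool), (∀ y ∈ C, ¬ (y w = a ∧ y v = b)) →
      xor a' (σ w) = a → xor b' (σ v) = b →
      ∀ y ∈ {x : V → Bool | (fun j => xor (x j) (σ j)) ∈ C}, ¬ (y w = a' ∧ y v = b') := by
    rintro C a b a' b' h ha hb y hy ⟨h1, h2⟩
    refine h _ hy ⟨?_, ?_⟩
    · change xor (y w) (σ w) = a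
      rw [h1, ha]
    · change xor (y v) (σ v) = b
      rw [h2, hb]
  refine three_corners hTC (sw σ R) S w v hw hv hwv (Good_sw σ hG) ?_ ?_ ?_ _ _ (key A hA) (key B hB)
    ?_ ?_ ?_ ?_ ?_ ?_
  · intro ν h
    have := S1 _ ((SPath_sw σ R _ ν w w).1 h)
    simpa using this
  · intro ν h
    have := S2 _ ((SPath_sw σ R _ ν v v).1 h)
    simpa using this
  · intro M1 M2 ν1 ν2 h1 h2 h3 p1 p2
    have := S3 M1 M2 _ _ h1 h2 h3 ((SPath_sw σ R M1 ν1 w v).1 p1) ((SPath_sw σ R M2 ν2 v w).1 p2)
    rw [Bool.xor_comm (σ v) (σ w)] at this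
    exact Bool.xor_left_inj.1 this
  · intro x hx y hy j hj
    have := hAB _ hx _ hy j hj
    exact Bool.xor_left_inj.1 this
  · obtain ⟨y, hy, h1, h2⟩ := tr B α β hB11
    refine ⟨y, hy, ?_, ?_⟩
    · rw [h1, hσw]; cases α <;> rfl
    · rw [h2, hσv]; cases β <;> rfl
  · exact nt A α β true true hA11 (by rw [hσw]; cases α <;> rfl) (by rw [hσv]; cases β <;> rfl)
  · exact nt B α (!β) true false hB10 (by rw [hσw]; cases α <;> rfl) (by rw [hσv]; cases β <;> rfl)
  · obtain ⟨y, hy, h1, h2⟩ := tr A (!α) β hA01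
    refine ⟨y, hy, ?_, ?_⟩
    · rw [h1, hσw]; cases α <;> rfl
    · rw [h2, hσv]; cases β <;> rfl
  · obtain ⟨y, hy, h1, h2⟩ := tr A α (!β) hA10
    refine ⟨y, hy, ?_, ?_⟩
    · rw [h1, hσw]; cases α <;> rfl
    · rw [h2, hσv]; cases β <;> rfl

/-- theorem T for two latches, interval networks with moving set `S` -/
theorem two_net
    (hTC : ∀ (R : Net V) (U : Finset V) (w v p q : V) (x0 : V → Bool), ¬ D R U w v p q x0)
    (R : Net V) (S : Finset V) (w v : V) (hw : w ∈ S) (hv : v ∈ S) (hwv : w ≠ v)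
    (hG : Good R (S \ {w, v}))
    (S1 : ∀ ν, SPath R (S \ {w, v}) ν w w → ν = false)
    (S2 : ∀ ν, SPath R (S \ {w, v}) ν v v → ν = false)
    (S3 : ∀ M1 M2 ν1 ν2, M1 ⊆ S \ {w, v} → M2 ⊆ S \ {w, v} → Disjoint M1 M2 →
      SPath R M1 ν1 w v → SPath R M2 ν2 v w → ν1 = ν2)
    (A B : Set (V → Bool)) (hA : AttN R S A) (hB : AttN R S B)
    (hAB : ∀ x ∈ A, ∀ y ∈ B, ∀ j, j ∉ S → x j = y j) (hdis : ∀ x ∈ A, x ∉ B)
    (hhw : ∃ x ∈ A, ∃ y ∈ B, x w = y w) (hhv : ∃ x ∈ A, ∃ y ∈ B, x v = y v) : False := by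
  classical
  have hUS : S \ {w, v} ⊆ S := Finset.sdiff_subset
  have hcor : ∀ x ∈ A, ∀ y ∈ B, x w = y w → x v = y v → False := by
    intro x hx y hy h1 h2
    obtain ⟨z, hz1, hz2⟩ := confluent hG x y (by
      intro j hj
      by_cases hjS : j ∈ S
      · have : j = w ∨ j = v := by
          by_contra hcon
          push Not at hcon
          exact hj (by simp [hjS, hcon.1, hcon.2])
        rcases this with rfl | rfl
        · exact h1
        · exact h2
      · exact hAB x hx y hy j hjS)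
    exact hdis z (hA.closed x hx z (hz1.mono (by simpa using hUS) (by simp)))
      (hB.closed y hy z (hz2.mono (by simpa using hUS) (by simp)))
  have nb : ∀ p q : Bool, p ≠ q → p = !q := by decide
  obtain ⟨x1, hx1, y1, hy1, e1⟩ := hhw
  obtain ⟨x2, hx2, y2, hy2, e2⟩ := hhv
  have n1 : x1 v ≠ y1 v := fun h => hcor x1 hx1 y1 hy1 e1 h
  have n2 : x2 w ≠ y2 w := fun h => hcor x2 hx2 y2 hy2 h e2
  by_cases hc : x2 w = x1 w
  · -- `A` sits at the corner `(x1 w, x1 v)`
    have hd : x2 v = x1 v := by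
      by_contra hd
      have h3 : x2 v = y1 v := by rw [nb _ _ hd, nb _ _ n1]; simp
      exact hcor x2 hx2 y1 hy1 (hc.trans e1) h3
    refine three_corners' hTC R S w v hw hv hwv hG S1 S2 S3 B A hB hA
      (fun x hx y hy j hj => (hAB y hy x hx j hj).symm) (x1 w) (x1 v) ⟨x1, hx1, rfl, rfl⟩ ?_ ?_ ?_ ?_
    · rintro y hy ⟨h1, h2⟩
      exact hcor x1 hx1 y hy h1.symm h2.symm
    · rintro x hx ⟨h1, h2⟩
      refine hcor x hx y1 hy1 (h1.trans e1) ?_
      rw [h2, nb _ _ n1]; simp
    · refine ⟨y2, hy2, ?_, ?_⟩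
      · rw [← hc, nb _ _ n2]; simp
      · rw [← e2, hd]
    · refine ⟨y1, hy1, e1.symm, ?_⟩
      rw [nb _ _ n1]; simp
  · -- `B` sits at the corner `(x1 w, y1 v)`
    have hc' := nb _ _ hc
    have h4 : y2 w = x1 w := by
      have := nb _ _ n2
      rw [hc'] at this
      revert this
      cases x1 w <;> cases y2 w <;> simp
    have hd : x2 v = y1 v := by
      by_contra hd
      have h3 : x1 v = y2 v := by rw [← e2, nb _ _ hd, nb _ _ n1]
      exact hcor x1 hx1 y2 hy2 h4.symm h3
    refine three_corners' hTC R S w v hw hv hwv hG S1 S2 S3 A B hA hB hAB (x1 w) (y1 v)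
      ⟨y1, hy1, e1.symm, rfl⟩ ?_ ?_ ?_ ?_
    · rintro x hx ⟨h1, h2⟩
      exact hcor x hx y1 hy1 (h1.trans e1) h2
    · rintro y hy ⟨h1, h2⟩
      refine hcor x1 hx1 y hy h1.symm ?_
      rw [h2, nb _ _ n1]
    · exact ⟨x2, hx2, hc', hd⟩
    · exact ⟨x1, hx1, rfl, nb _ _ n1⟩

/-! ### the environment -/

/-- the network seen below the closed set `X`, the `X`-part being any of those of `A` -/
def envNet (f : (V → Bool) → (V → Bool)) (A : Set (V → Bool)) (X : Finset V) : Net V :=
  fun i b x => ∃ e : V → Bool, (∀ k, k ∉ X → e k = x k) ∧ (∃ a ∈ A, ∀ k ∈ X, e k = a k) ∧ f e i = b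

theorem env_arc {f : (V → Bool) → (V → Bool)} {A : Set (V → Bool)} {X : Finset V} {ν : Bool}
    {j i : V} (h : Arc (envNet f A X) ν j i) : Arc (net f) ν j i := by
  obtain ⟨x, b, hn, e, he1, he2, he3⟩ := h
  by_cases hj : j ∈ X
  · exfalso
    apply hn
    refine ⟨e, fun k hk => ?_, he2, he3⟩
    have hkj : k ≠ j := fun h => hk (h ▸ hj)
    rw [he1 k hk, update_of_ne hkj, update_of_ne hkj]
  · refine ⟨e, b, ?_, ?_⟩
    · intro h
      apply hn
      refine ⟨update e j (!(xor b ν)), fun k hk => ?_, ?_, h⟩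
      · by_cases hkj : k = j
        · subst hkj; simp
        · rw [update_of_ne hkj, update_of_ne hkj, he1 k hk, update_of_ne hkj]
      · obtain ⟨a, ha, h2⟩ := he2
        refine ⟨a, ha, fun k hk => ?_⟩
        have hkj : k ≠ j := fun h => hj (h ▸ hk)
        rw [update_of_ne hkj]
        exact h2 k hk
    · have h1 : e j = xor b ν := by
        rw [he1 j hj]; simp
      have h2 : update e j (xor b ν) = e := by
        rw [← h1]; exact update_eq_self j e
      rw [h2]
      exact he3

theorem env_path {f : (V → Bool) → (V → Bool)} {A : Set (V → Bool)} {X M : Finset V} {ν : Bool}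
    {u w : V} (h : SPath (envNet f A X) M ν u w) : SPath (net f) M ν u w := by
  induction h with
  | arc h => exact SPath.arc (env_arc h)
  | cons h ha _ ih => exact SPath.cons (env_arc h) ha ih

theorem lift_mem {f : (V → Bool) → (V → Bool)} {A : Set (V → Bool)} (hA : Attr f A)
    {X : Finset V} (hX : Up f X) {x e : V → Bool} (hx : x ∈ A) (h1 : ∀ k, k ∉ X → e k = x k)
    (h2 : ∃ a ∈ A, ∀ k ∈ X, e k = a k) : e ∈ A := by
  obtain ⟨a, ha, hea⟩ := h2
  obtain ⟨y', h3, h4⟩ := mimic f X hX Finset.univ x a x (hA.conn x hx a ha) (fun _ _ => rfl)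
  have : y' = e := by
    funext k
    by_cases hk : k ∈ X
    · rw [← h4 k hk, hea k hk]
    · rw [h3.frozen k (by simp [hk]) (by simp), h1 k hk]
  rw [← this]
  exact T9_closed f A hA _ x y' hx h3

/-- projection of a set of states to `S` -/
def prS (C : Set (V → Bool)) (S : Finset V) (c : V → Bool) : Set (V → Bool) :=
  {z | (∀ j, j ∉ S → z j = c j) ∧ ∃ x ∈ C, ∀ j ∈ S, z j = x j}

theorem prS_att {f : (V → Bool) → (V → Bool)} {A C : Set (V → Bool)} (hC : Attr f C)
    {X S : Finset V} (hd : Disjoint X S) (hX : Up f X) (hXS : Up f (X ∪ S)) (c : V → Bool)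
    (hCA : ∀ x ∈ C, ∃ a ∈ A, ∀ k ∈ X, x k = a k) (hAC : ∀ a ∈ A, ∃ x ∈ C, ∀ k ∈ X, a k = x k) :
    AttN (envNet f A X) S (prS C S c) := by
  classical
  have hnX : ∀ k ∈ S, k ∉ X := fun k hk hkX => (Finset.disjoint_left.1 hd) hkX hk
  refine ⟨?_, ?_, ?_⟩
  · obtain ⟨x, hx⟩ := hC.ne
    refine ⟨ow c x S, fun j hj => by simp [ow, hj], x, hx, fun j hj => by simp [ow, hj]⟩
  · intro z hz y hzy
    induction hzy with
    | refl => exact hz
    | @tail z1 z2 _ hmv ih =>
      obtain ⟨h1, x, hx, h2⟩ := ih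
      rcases hmv with ⟨i, hi, b, ⟨e, he1, ⟨a, ha, hea⟩, he3⟩, rfl⟩ | ⟨i, hi, -⟩
      · obtain ⟨a', ha', haa'⟩ := hAC a ha
        obtain ⟨e', he'⟩ : ∃ e' : V → Bool, e' = fun k => if k ∈ X then e k else x k := ⟨_, rfl⟩
        have hX' : ∀ k ∈ X, e' k = e k := fun k hk => by rw [he']; simp [hk]
        have hN' : ∀ k, k ∉ X → e' k = x k := fun k hk => by rw [he']; simp [hk]
        have he'C : e' ∈ C := lift_mem hC hX hx hN'
          ⟨a', ha', fun k hk => by rw [hX' k hk, hea k hk, haa' k hk]⟩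
        have hfe : f e' i = b := by
          rw [← he3]
          apply Up.eq_of_eqOn f (X ∪ S) hXS e' e _ i (Finset.mem_union_right _ hi)
          intro k hk
          rcases Finset.mem_union.1 hk with hk | hk
          · exact hX' k hk
          · rw [hN' k (hnX k hk), he1 k (hnX k hk), h2 k hk]
        refine ⟨fun j hj => ?_, update e' i b, ?_, fun j hj => ?_⟩
        · have hji : j ≠ i := fun h => hj (h ▸ hi)
          rw [update_of_ne hji]
          exact h1 j hj
        · exact T9_closed f C hC Finset.univ e' _ he'C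
            (Relation.ReflTransGen.single (Or.inl ⟨i, Finset.mem_univ _, b, hfe, rfl⟩))
        · by_cases hji : j = i
          · subst hji; simp
          · rw [update_of_ne hji, update_of_ne hji, hN' j (hnX j hj)]
            exact h2 j hj
      · exact absurd hi (Finset.notMem_empty i)
  · rintro z ⟨hz1, x, hx, hz2⟩ z' ⟨hz'1, x', hx', hz'2⟩
    have key : ∀ x', Rch (net f) Finset.univ ∅ x x' → x' ∈ C ∧ ∃ z'', Rch (envNet f A X) S ∅ z z'' ∧
        (∀ j ∈ S, z'' j = x' j) ∧ ∀ j, j ∉ S → z'' j = z j := by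
      intro x' h
      induction h with
      | refl => exact ⟨hx, z, Relation.ReflTransGen.refl, hz2, fun _ _ => rfl⟩
      | @tail x1 x2 _ hmv ih =>
        obtain ⟨hx1, z1, h1, h2, h3⟩ := ih
        rcases hmv with ⟨i, hi, b, hb, rfl⟩ | ⟨i, hi, -⟩
        · have hmem : update x1 i b ∈ C := T9_closed f C hC Finset.univ x1 _ hx1
            (Relation.ReflTransGen.single (Or.inl ⟨i, hi, b, hb, rfl⟩))
          refine ⟨hmem, ?_⟩
          by_cases hiS : i ∈ S
          · refine ⟨update z1 i b, h1.tail (Or.inl ⟨i, hiS, b, ?_, rfl⟩), fun j hj => ?_,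
              fun j hj => ?_⟩
            · obtain ⟨a, ha, hxa⟩ := hCA x1 hx1
              refine ⟨fun k => if k ∈ X then x1 k else z1 k, fun k hk => by simp [hk],
                ⟨a, ha, fun k hk => by simp [hk, hxa k hk]⟩, ?_⟩
              have hb' : f x1 i = b := hb
              rw [← hb']
              apply Up.eq_of_eqOn f (X ∪ S) hXS _ x1 _ i (Finset.mem_union_right _ hiS)
              intro k hk
              rcases Finset.mem_union.1 hk with hk | hk
              · simp [hk]
              · simp [hnX k hk, h2 k hk]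
            · by_cases hji : j = i
              · subst hji; simp
              · rw [update_of_ne hji, update_of_ne hji]
                exact h2 j hj
            · have hji : j ≠ i := fun h => hj (h ▸ hiS)
              rw [update_of_ne hji]
              exact h3 j hj
          · refine ⟨z1, h1, fun j hj => ?_, h3⟩
            have hji : j ≠ i := fun h => hiS (h ▸ hj)
            rw [update_of_ne hji]
            exact h2 j hj
        · exact absurd hi (Finset.notMem_empty i)
    obtain ⟨_, z'', h1, h2, h3⟩ := key x' (hC.conn x hx x' hx')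
    have : z'' = z' := by
      funext j
      by_cases hj : j ∈ S
      · rw [h2 j hj, hz'2 j hj]
      · rw [h3 j hj, hz1 j hj, hz'1 j hj]
    rw [← this]
    exact h1

/-- the step for a component with two latches -/
theorem step_two
    (hTC : ∀ (R : Net V) (U : Finset V) (w v p q : V) (x0 : V → Bool), ¬ D R U w v p q x0)
    (f : (V → Bool) → (V → Bool)) (A B : Set (V → Bool)) (hA : Attr f A) (hB : Attr f B)
    (X S : Finset V) (w v : V) (hw : w ∈ S) (hv : v ∈ S) (hwv : w ≠ v)
    (hd : Disjoint X S) (hX : Up f X) (hXS : Up f (X ∪ S))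
    (hcyc : ∀ D ⊆ S \ {w, v}, ¬ CohSet f D)
    (S1 : ∀ ν, SPath (net f) (S \ {w, v}) ν w w → ν = false)
    (S2 : ∀ ν, SPath (net f) (S \ {w, v}) ν v v → ν = false)
    (S3 : ∀ M1 M2 ν1 ν2, M1 ⊆ S \ {w, v} → M2 ⊆ S \ {w, v} → Disjoint M1 M2 →
      SPath (net f) M1 ν1 w v → SPath (net f) M2 ν2 v w → ν1 = ν2)
    (hhull : ∀ u : V, ∃ x ∈ A, ∃ y ∈ B, x u = y u)
    (hag : ∃ x ∈ A, ∃ y ∈ B, ∀ j ∈ X, x j = y j) :
    ∃ x ∈ A, ∃ y ∈ B, ∀ j ∈ X ∪ S, x j = y j := by
  classical
  by_contra hcon
  push Not at hcon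
  have hBX : ∀ y ∈ B, ∃ a ∈ A, ∀ k ∈ X, y k = a k := by
    intro y hy
    obtain ⟨x1, hx1, y1, hy1, h1⟩ := hag
    obtain ⟨a, ha, h2⟩ := T9_X f B A hB hA X hX ⟨y1, hy1, x1, hx1, fun j hj => (h1 j hj).symm⟩ y hy
    exact ⟨a, ha, fun k hk => (h2 k hk).symm⟩
  have hAX : ∀ a ∈ A, ∃ y ∈ B, ∀ k ∈ X, a k = y k := by
    intro a ha
    obtain ⟨y, hy, h2⟩ := T9_X f A B hA hB X hX hag a ha
    exact ⟨y, hy, fun k hk => (h2 k hk).symm⟩
  have hG : Good (envNet f A X) (S \ {w, v}) := by
    refine ⟨fun i _ x => ?_, fun D hD hne s h => ?_⟩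
    · obtain ⟨a, ha⟩ := hA.ne
      have key : envNet f A X i (f (fun k => if k ∈ X then a k else x k) i) x :=
        ⟨fun k => if k ∈ X then a k else x k, fun k hk => by simp [hk],
          ⟨a, ha, fun k hk => by simp [hk]⟩, rfl⟩
      cases hf : f (fun k => if k ∈ X then a k else x k) i
      · right; rw [hf] at key; exact key
      · left; rw [hf] at key; exact key
    · refine hcyc D hD ⟨hne, s, fun i hi => ?_⟩
      obtain ⟨j, hj, hji⟩ := h i hi
      exact ⟨j, hj, env_arc hji⟩
  obtain ⟨c, hc⟩ : ∃ c : V → Bool, c = fun _ => false := ⟨_, rfl⟩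
  refine two_net hTC (envNet f A X) S w v hw hv hwv hG (fun ν h => S1 ν (env_path h))
    (fun ν h => S2 ν (env_path h))
    (fun M1 M2 ν1 ν2 h1 h2 h3 p1 p2 => S3 M1 M2 ν1 ν2 h1 h2 h3 (env_path p1) (env_path p2))
    (prS A S c) (prS B S c)
    (prS_att hA hd hX hXS c (fun x hx => ⟨x, hx, fun _ _ => rfl⟩) (fun x hx => ⟨x, hx, fun _ _ => rfl⟩))
    (prS_att hB hd hX hXS c hBX hAX) ?_ ?_ ?_ ?_
  · rintro x ⟨h1, _⟩ y ⟨h2, _⟩ j hj
    rw [h1 j hj, h2 j hj]
  · rintro z ⟨_, x, hx, h1⟩ ⟨_, y, hy, h2⟩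
    have he : (fun k => if k ∈ X then x k else y k) ∈ B := by
      obtain ⟨y', hy', h3⟩ := hAX x hx
      exact lift_mem hB hX hy (fun k hk => by simp [hk]) ⟨y', hy', fun k hk => by simp [hk, h3 k hk]⟩
    obtain ⟨j, hj, hne⟩ := hcon x hx _ he
    apply hne
    by_cases hjX : j ∈ X
    · simp [hjX]
    · rcases Finset.mem_union.1 hj with h | h
      · exact absurd h hjX
      · simp only [hjX, if_false]
        rw [← h1 j h, ← h2 j h]
  · obtain ⟨x, hx, y, hy, h⟩ := hhull w
    refine ⟨ow c x S, ⟨fun j hj => by simp [ow, hj], x, hx, fun j hj => by simp [ow, hj]⟩,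
      ow c y S, ⟨fun j hj => by simp [ow, hj], y, hy, fun j hj => by simp [ow, hj]⟩, ?_⟩
    simp [ow, hw, h]
  · obtain ⟨x, hx, y, hy, h⟩ := hhull v
    refine ⟨ow c x S, ⟨fun j hj => by simp [ow, hj], x, hx, fun j hj => by simp [ow, hj]⟩,
      ow c y S, ⟨fun j hj => by simp [ow, hj], y, hy, fun j hj => by simp [ow, hj]⟩, ?_⟩
    simp [ow, hv, h]

/-- theorem T, at most two latches in every strong component -/
theorem P2
    (hTC : ∀ (R : Net V) (U : Finset V) (w v p q : V) (x0 : V → Bool), ¬ D R U w v p q x0)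
    (f : (V → Bool) → (V → Bool)) (W : Finset V)
    (hcyc : ∀ D : Finset V, Disjoint D W → ¬ CohSet f D)
    (hcl : ∀ u ∈ W, ∀ M ν, u ∉ M → SPath (net f) M ν u u → ν = false)
    (htwo : ∀ a ∈ W, ∀ b ∈ W, ∀ c ∈ W, a ≠ b → a ≠ c → b ≠ c → Goes f a b → Goes f b a →
      Goes f a c → Goes f c a → False)
    (A B : Set (V → Bool)) (hA : Attr f A) (hB : Attr f B)
    (hhull : ∀ v : V, ∃ x ∈ A, ∃ y ∈ B, x v = y v) : A = B := by
  classical
  -- a maximal `Up` set on which the attractors agree
  obtain ⟨X, hXmem, hXmax⟩ := Finset.exists_max_image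
    ((Finset.univ : Finset V).powerset.filter (fun X => Up f X ∧ ∃ x ∈ A, ∃ y ∈ B, ∀ j ∈ X, x j = y j))
    Finset.card (by
      refine ⟨∅, ?_⟩
      rw [Finset.mem_filter]
      refine ⟨by simp, ?_, ?_⟩
      · intro i hi; simp at hi
      · obtain ⟨x, hx⟩ := hA.ne
        obtain ⟨y, hy⟩ := hB.ne
        exact ⟨x, hx, y, hy, by simp⟩)
  rw [Finset.mem_filter] at hXmem
  obtain ⟨-, hX, hag⟩ := hXmem
  by_cases hXu : X = Finset.univ
  · obtain ⟨x, hxA, y, hyB, hxy⟩ := hag
    have hxy' : x = y := funext fun j => hxy j (by rw [hXu]; exact Finset.mem_univ j)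
    subst hxy'
    apply Set.Subset.antisymm
    · intro z hz
      exact hB.closed x hyB z (hA.conn x hxA z hz)
    · intro z hz
      exact hA.closed x hxA z (hB.conn x hyB z hz)
  · exfalso
    -- choose `v`
    let T : V → Finset V := fun v => Finset.univ.filter (fun u => u ∉ X ∧ Goes f u v)
    have hne : (Finset.univ.filter (fun v => v ∉ X)).Nonempty := by
      by_contra hcon
      rw [Finset.not_nonempty_iff_eq_empty] at hcon
      apply hXu
      ext j
      simp only [Finset.mem_univ, iff_true]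
      by_contra hj
      have : j ∈ Finset.univ.filter (fun v => v ∉ X) := by simp [hj]
      rw [hcon] at this
      simp at this
    obtain ⟨v, hv, hvmin⟩ := Finset.exists_min_image (Finset.univ.filter (fun v => v ∉ X))
      (fun v => (T v).card) hne
    rw [Finset.mem_filter] at hv
    have hvX : v ∉ X := hv.2
    have memT : ∀ u w, u ∈ T w ↔ (u ∉ X ∧ Goes f u w) := by
      intro u w; simp [T]
    have hback : ∀ u ∈ T v, Goes f v u := by
      intro u hu
      have hu' := (memT u v).1 hu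
      have hsub : T u ⊆ T v := by
        intro a ha
        have ha' := (memT a u).1 ha
        exact (memT a v).2 ⟨ha'.1, ha'.2.trans hu'.2⟩
      have hle : (T v).card ≤ (T u).card := hvmin u (by
        rw [Finset.mem_filter]; exact ⟨Finset.mem_univ _, hu'.1⟩)
      have heq : T u = T v := Finset.eq_of_subset_of_card_le hsub hle
      have : v ∈ T u := by
        rw [heq]
        exact (memT v v).2 ⟨hvX, Relation.ReflTransGen.refl⟩
      exact ((memT v u).1 this).2
    have hXS : Up f (X ∪ T v) := by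
      intro i hi j ν hij
      rw [Finset.mem_union] at hi ⊢
      rcases hi with hi | hi
      · exact Or.inl (hX i hi j ν hij)
      · by_cases hj : j ∈ X
        · exact Or.inl hj
        · right
          exact (memT j v).2 ⟨hj, Relation.ReflTransGen.head ⟨ν, hij⟩ ((memT i v).1 hi).2⟩
    have hdisj : Disjoint X (T v) := by
      rw [Finset.disjoint_left]
      intro a ha ha'
      exact ((memT a v).1 ha').1 ha
    have hcyc' : ∀ D ⊆ T v \ (W ∩ T v), ¬ CohSet f D := by
      intro D hD
      apply hcyc D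
      rw [Finset.disjoint_left]
      intro a ha haW
      have h1 := hD ha
      rw [Finset.mem_sdiff, Finset.mem_inter] at h1
      exact h1.2 ⟨haW, h1.1⟩
    have hgo : ∀ a ∈ W ∩ T v, ∀ b ∈ W ∩ T v, Goes f a b := by
      intro a ha b hb
      rw [Finset.mem_inter] at ha hb
      exact ((memT a v).1 ha.2).2.trans (hback b hb.2)
    have hres : ∃ x ∈ A, ∃ y ∈ B, ∀ j ∈ X ∪ T v, x j = y j := by
      by_cases h2 : ∃ a ∈ W ∩ T v, ∃ b ∈ W ∩ T v, a ≠ b
      · obtain ⟨a, ha, b, hb, hab⟩ := h2
        have hWab : W ∩ T v = {a, b} := by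
          ext c
          simp only [Finset.mem_insert, Finset.mem_singleton]
          constructor
          · intro hc
            by_contra hcon
            push Not at hcon
            exact htwo a (Finset.mem_inter.1 ha).1 b (Finset.mem_inter.1 hb).1 c
              (Finset.mem_inter.1 hc).1 hab (Ne.symm hcon.1) (Ne.symm hcon.2) (hgo a ha b hb)
              (hgo b hb a ha) (hgo a ha c hc) (hgo c hc a ha)
          · rintro (rfl | rfl)
            · exact ha
            · exact hb
        have haW := (Finset.mem_inter.1 ha).1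
        have hbW := (Finset.mem_inter.1 hb).1
        rw [hWab] at hcyc'
        refine step_two hTC f A B hA hB X (T v) a b (Finset.mem_inter.1 ha).2
          (Finset.mem_inter.1 hb).2 hab hdisj hX hXS hcyc' ?_ ?_ ?_ hhull hag
        · exact fun ν h => hcl a haW _ ν (by simp) h
        · exact fun ν h => hcl b hbW _ ν (by simp) h
        · intro M1 M2 ν1 ν2 h1 h2 h3 p1 p2
          have ha1 : a ∉ M1 := fun h => by simpa using h1 h
          have hb1 : b ∉ M1 := fun h => by simpa using h1 h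
          have ha2 : a ∉ M2 := fun h => by simpa using h2 h
          have hb2 : b ∉ M2 := fun h => by simpa using h2 h
          have h4 := hcl a haW (insert b (M1 ∪ M2)) (xor ν1 ν2)
            (by simp [hab, ha1, ha2]) (SPath.append' p1 p2 hb1 hb2 h3.symm)
          revert h4
          cases ν1 <;> cases ν2 <;> simp
      · push Not at h2
        refine step_agree f A B hA hB X (T v) (W ∩ T v) hdisj hX hXS Finset.inter_subset_right
          (fun _ => false) ?_ hcyc' hhull hag
        intro e he w hw hew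
        exact absurd (h2 e he w hw) hew
    have hmax := hXmax (X ∪ T v) (by
      rw [Finset.mem_filter]
      exact ⟨by simp, hXS, hres⟩)
    have hlt : X.card < (X ∪ T v).card := by
      apply Finset.card_lt_card
      rw [Finset.ssubset_iff_of_subset Finset.subset_union_left]
      refine ⟨v, ?_, hvX⟩
      rw [Finset.mem_union]
      exact Or.inr ((memT v v).2 ⟨hvX, Relation.ReflTransGen.refl⟩)
    omega

end TwoNet

section Wrap64
variable {n : ℕ} {f : Conf n → Conf n}

/-- vertex sequence of a simple path -/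
theorem TC_seq {M : Finset (Fin n)} {ν : Bool} {a w : Fin n} (h : SPath (net f) M ν a w)
    (ha : a ∉ M) : ∃ (m : ℕ) (g : ℕ → Fin n) (t : ℕ → Bool), g 0 = a ∧
      (∀ i, i ≤ m → ∀ j, j ≤ m → g i = g j → i = j) ∧
      (∀ i, 0 < i → i ≤ m → g i ∈ M) ∧
      (∀ i, i < m → Arc (net f) (t i) (g i) (g (i + 1))) ∧
      Arc (net f) (t m) (g m) w ∧
      ∏ i ∈ Finset.range (m + 1), T11_sg (t i) = T11_sg ν := by
  induction h with
  | @arc M ν u w h =>
    refine ⟨0, fun _ => u, fun _ => ν, rfl, ?_, ?_, ?_, h, by simp⟩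
    · intro i hi j hj _
      omega
    · intro i h1 h2
      omega
    · intro i hi
      omega
  | @cons M ν ν' u b w h hb hp ih =>
    obtain ⟨m, g, t, g0, ginj, gmem, garc, glast, gprod⟩ := ih (Finset.notMem_erase b M)
    have gM : ∀ i, i ≤ m → g i ∈ M := by
      intro i hi
      rcases Nat.eq_zero_or_pos i with h0 | h0
      · rw [h0, g0]
        exact hb
      · exact Finset.mem_of_mem_erase (gmem i h0 hi)
    refine ⟨m + 1, fun i => if i = 0 then u else g (i - 1), fun i => if i = 0 then ν else t (i - 1),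
      by simp, ?_, ?_, ?_, ?_, ?_⟩
    · intro i hi j hj hij
      rcases Nat.eq_zero_or_pos i with h0 | h0 <;> rcases Nat.eq_zero_or_pos j with h1 | h1
      · rw [h0, h1]
      · exfalso
        rw [h0] at hij
        simp only [if_true, if_neg (Nat.pos_iff_ne_zero.1 h1)] at hij
        exact ha (hij ▸ gM (j - 1) (by omega))
      · exfalso
        rw [h1] at hij
        simp only [if_true, if_neg (Nat.pos_iff_ne_zero.1 h0)] at hij
        exact ha (hij ▸ gM (i - 1) (by omega))
      · simp only [if_neg (Nat.pos_iff_ne_zero.1 h0), if_neg (Nat.pos_iff_ne_zero.1 h1)] at hij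
        have := ginj (i - 1) (by omega) (j - 1) (by omega) hij
        omega
    · intro i h0 hi
      simp only [if_neg (Nat.pos_iff_ne_zero.1 h0)]
      exact gM (i - 1) (by omega)
    · intro i hi
      rcases Nat.eq_zero_or_pos i with h0 | h0
      · rw [h0]
        simp only [if_true, zero_add, one_ne_zero, if_false, Nat.sub_self]
        rw [g0]
        exact h
      · simp only [if_neg (Nat.pos_iff_ne_zero.1 h0), if_neg (Nat.succ_ne_zero i)]
        have h2 := garc (i - 1) (by omega)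
        have h3 : i - 1 + 1 = i + 1 - 1 := by omega
        rw [h3] at h2
        exact h2
    · simp only [if_neg (Nat.succ_ne_zero m), Nat.add_sub_cancel]
      exact glast
    · rw [Finset.prod_range_succ']
      simp only [if_neg (Nat.succ_ne_zero _), Nat.add_sub_cancel, if_true]
      rw [gprod, T11_sg_xor, mul_comm]

theorem TC_cyc_of_closed {M : Finset (Fin n)} {ν : Bool} {u : Fin n} (hu : u ∉ M)
    (h : SPath (net f) M ν u u) :
    ∃ C : SignedCycle (interactionGraph f), C.sign = T11_sg ν ∧ ∃ k, C.vert k = u := by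
  obtain ⟨m, g, t, g0, ginj, gmem, garc, glast, gprod⟩ := TC_seq h hu
  refine ⟨⟨m, fun k => g k.val, fun k => T11_sg (t k.val), ?_, ?_⟩, ?_, ⟨0, g0⟩⟩
  · intro i j hij
    exact Fin.ext (ginj i.val (by omega) j.val (by omega) hij)
  · intro k
    have hk : Arc (net f) (t k.val) (g k.val) (g (k + 1).val) := by
      rcases Nat.lt_or_ge k.val m with h1 | h1
      · have h2 : (k + 1).val = k.val + 1 := by
          rw [Fin.val_add_one]
          rw [if_neg]
          intro h3
          rw [h3] at h1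
          simp at h1
        rw [h2]
        exact garc k.val h1
      · have h2 : k = Fin.last m := Fin.ext (by simp; omega)
        rw [h2]
        simp only [Fin.last_add_one, Fin.val_zero, Fin.val_last]
        rw [g0]
        exact glast
    rcases T11_arc hk with h1 | h1
    · exact Or.inl h1
    · exact Or.inr h1
  · unfold SignedCycle.sign
    rw [← gprod, Finset.prod_range]

end Wrap64


/-- final form: at most two latches in every strong component -/
theorem comp_final
    (hTC : ∀ (V : Type) [Fintype V] [DecidableEq V] (R : Net V) (U : Finset V) (w v p q : V)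
      (x0 : V → Bool), ¬ D R U w v p q x0)
    {n : ℕ} (f : Conf n → Conf n) (W : Finset (Fin n))
    (hneg : ∀ C : SignedCycle (interactionGraph f), (∃ k, C.vert k ∈ W) → C.sign = 1)
    (hpos : ∀ C : SignedCycle (interactionGraph f), C.sign = 1 → ∃ k, C.vert k ∈ W)
    (htwo : ∀ a ∈ W, ∀ b ∈ W, ∀ c ∈ W, a ≠ b → a ≠ c → b ≠ c →
      Reaches (interactionGraph f) a b → Reaches (interactionGraph f) b a →
      Reaches (interactionGraph f) a c → Reaches (interactionGraph f) c a → False) :
    Separating f := by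
  classical
  intro A B hA hB hne
  by_contra hcon
  rw [← Ne, ← Set.nonempty_iff_ne_empty] at hcon
  apply hne
  refine P2 (hTC (Fin n)) f W ?_ ?_ ?_ A B (attr_of_isAttractor f A hA)
    (attr_of_isAttractor f B hB) (common_of_hull A B hA.1 hB.1 hcon)
  · intro D hD hco
    obtain ⟨C, hC, hk⟩ := cycle_of_coh f D hco
    obtain ⟨k, hkW⟩ := hpos C hC
    exact Finset.disjoint_left.1 hD (hk k) hkW
  · intro u hu M ν hM hp
    obtain ⟨C, hC, k, hk⟩ := TC_cyc_of_closed hM hp
    have h1 := hneg C ⟨k, by rw [hk]; exact hu⟩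
    rw [hC] at h1
    cases ν
    · rfl
    · exact absurd h1 (by decide)
  · intro a ha b hb c hc h1 h2 h3 g1 g2 g3 g4
    exact htwo a ha b hb c hc h1 h2 h3 (T11_goes g1) (T11_goes g2) (T11_goes g3) (T11_goes g4)

end Pool.Agent.Lib.MP_8a6e71_co.T2
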