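import Pool.Agent.Lib.MP_8a6e71_co.RSAll

set_option autoImplicit false
set_option linter.unusedSectionVars false

namespace Pool.Agent.Lib.MP_8a6e71_co.RS

open Function

section TAtt
variable {V : Type} [Fintype V] [DecidableEq V]

/-- no positive cycle inside `U` -/
def NoPos (R : Net V) (U : Finset V) : Prop :=
  ∀ D ⊆ U, D.Nonempty → ∀ s : V → Bool, ¬ ∀ i ∈ D, ∃ j ∈ D, Arc R (xor (s i) (s j)) j i

def Tot (R : Net V) (U : Finset V) : Prop := ∀ i ∈ U, ∀ x, R i true x ∨ R i false x

/-- attractor of the moves of `U` -/
structure ATT (R : Net V) (U : Finset V) (A : Set (V → Bool)) : Prop where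
  ne : A.Nonempty
  closed : ∀ x ∈ A, ∀ y, Rch R U ∅ x y → y ∈ A
  conn : ∀ x ∈ A, ∀ y ∈ A, Rch R U ∅ x y

/-- between a state `p` with `¬ R i b p` and a state `q` with `R i b q` some differing vertex has a
coherent arc to `i` -/
theorem arc_between (R : Net V) (i : V) (b : Bool) (p q : V → Bool) (hp : ¬ R i b p)
    (hq : R i b q) : ∃ j, p j ≠ q j ∧ Arc R (xor b (q j)) j i := by
  classical
  have key : ∀ (m : ℕ) (p : V → Bool), (Finset.univ.filter (fun j => p j ≠ q j)).card = m →
      ¬ R i b p → ∃ j, p j ≠ q j ∧ Arc R (xor b (q j)) j i := by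
    intro m
    induction m with
    | zero =>
      intro p hm hp
      exfalso
      apply hp
      have : p = q := by
        funext j
        by_contra hj
        have h1 := Finset.card_eq_zero.1 hm
        have h2 : j ∈ (Finset.univ.filter (fun j => p j ≠ q j)) := by simp [hj]
        rw [h1] at h2
        simp at h2
      rw [this]
      exact hq
    | succ m ih =>
      intro p hm hp
      obtain ⟨j, hj⟩ : (Finset.univ.filter (fun j => p j ≠ q j)).Nonempty := by
        rw [← Finset.card_pos]; omega
      have hj' : p j ≠ q j := by simpa using hj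
      by_cases h : R i b (update p j (q j))
      · refine ⟨j, hj', p, b, ?_, ?_⟩
        · have : (!(xor b (xor b (q j)))) = p j := by
            revert hj'
            cases b <;> cases q j <;> cases p j <;> simp
          rw [this, update_eq_self]
          exact hp
        · have : (xor b (xor b (q j))) = q j := by
            cases b <;> cases q j <;> rfl
          rw [this]
          exact h
      · have hset : (Finset.univ.filter (fun k => update p j (q j) k ≠ q k)) =
            (Finset.univ.filter (fun k => p k ≠ q k)).erase j := by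
          ext k
          by_cases hk : k = j
          · subst hk; simp
          · simp [hk]
        obtain ⟨k, hk, hk'⟩ := ih (update p j (q j)) (by
          rw [hset, Finset.card_erase_of_mem hj, hm]; rfl) h
        have hkj : k ≠ j := by
          rintro rfl
          simp at hk
        exact ⟨k, by simpa [hkj] using hk, hk'⟩
  exact key _ p rfl hp

/-- two states which agree outside `U` reach a common state -/
theorem common_net (R : Net V) (U : Finset V) (hcyc : NoPos R U) (htot : Tot R U)
    (x y : V → Bool) (hxy : ∀ j, j ∉ U → x j = y j) :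
    ∃ z, Rch R U ∅ x z ∧ Rch R U ∅ y z := by
  classical
  have key : ∀ (m : ℕ) (p q : V → Bool), (Finset.univ.filter (fun j => p j ≠ q j)).card = m →
      Rch R U ∅ x p → Rch R U ∅ y q → ∃ z, Rch R U ∅ x z ∧ Rch R U ∅ y z := by
    intro m
    induction m using Nat.strong_induction_on with
    | _ m ih =>
      intro p q hm hp hq
      by_cases h0 : (Finset.univ.filter (fun j => p j ≠ q j)).Nonempty
      · have hDU : ∀ j ∈ (Finset.univ.filter (fun j => p j ≠ q j)), j ∈ U := by
          intro j hj
          by_contra hjU
          have h1 := hp.frozen j hjU (by simp)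
          have h2 := hq.frozen j hjU (by simp)
          have h3 : p j ≠ q j := by simpa using hj
          exact h3 (by rw [h1, h2, hxy j hjU])
        have hlt : ∀ j, p j ≠ q j → ∀ p' q' : V → Bool,
            (∀ k, k ≠ j → (p' k ≠ q' k → p k ≠ q k)) → p' j = q' j →
            (Finset.univ.filter (fun k => p' k ≠ q' k)).card < m := by
          intro j hj p' q' h1 h2
          rw [← hm]
          apply Finset.card_lt_card
          rw [Finset.ssubset_iff_of_subset]
          · exact ⟨j, by simp [hj], by simp [h2]⟩
          · intro k hk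
            have hk' : p' k ≠ q' k := by simpa using hk
            have hkj : k ≠ j := by
              rintro rfl
              exact hk' h2
            simpa using h1 k hkj hk'
        by_cases hp1 : ∃ i, p i ≠ q i ∧ R i (q i) p
        · obtain ⟨i, hi, hR⟩ := hp1
          have hiU := hDU i (by simp [hi])
          refine ih _ (hlt i hi (update p i (q i)) q ?_ (by simp)) (update p i (q i)) q rfl
            (hp.tail (Or.inl ⟨i, hiU, q i, hR, rfl⟩)) hq
          intro k hk h
          simpa [hk] using h
        by_cases hq1 : ∃ i, p i ≠ q i ∧ R i (p i) q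
        · obtain ⟨i, hi, hR⟩ := hq1
          have hiU := hDU i (by simp [hi])
          refine ih _ (hlt i hi p (update q i (p i)) ?_ (by simp)) p (update q i (p i)) rfl hp
            (hq.tail (Or.inl ⟨i, hiU, p i, hR, rfl⟩))
          intro k hk h
          simpa [hk] using h
        exfalso
        push Not at hp1 hq1
        refine hcyc _ hDU h0 q ?_
        intro i hi
        have hi' : p i ≠ q i := by simpa using hi
        have hRq : R i (q i) q := by
          have h1 := htot i (hDU i hi) q
          have h2 := hq1 i hi'
          revert h1 h2 hi'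
          cases p i <;> cases q i <;> simp <;> tauto
        obtain ⟨j, hj, hj'⟩ := arc_between R i (q i) p q (hp1 i hi') hRq
        exact ⟨j, by simp [hj], hj'⟩
      · have : p = q := by
          funext j
          by_contra hj
          exact h0 ⟨j, by simp [hj]⟩
        subst this
        exact ⟨p, hp, hq⟩
  exact key _ x y rfl .refl .refl

/-- from every state an attractor can be reached -/
theorem exists_ATT (R : Net V) (U : Finset V) (x : V → Bool) :
    ∃ A, ATT R U A ∧ ∃ z ∈ A, Rch R U ∅ x z := by
  classical
  have key : ∀ (m : ℕ) (z : V → Bool), (Finset.univ.filter (fun y => Rch R U ∅ z y)).card ≤ m →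
      Rch R U ∅ x z → ∃ A, ATT R U A ∧ ∃ z ∈ A, Rch R U ∅ x z := by
    intro m
    induction m with
    | zero =>
      intro z hz _
      exfalso
      have : z ∈ (Finset.univ.filter (fun y => Rch R U ∅ z y)) := by
        simp only [Finset.mem_filter, Finset.mem_univ, true_and]
        exact Relation.ReflTransGen.refl
      have := Finset.card_pos.2 ⟨z, this⟩
      omega
    | succ m ih =>
      intro z hz hxz
      by_cases h : ∀ y, Rch R U ∅ z y → Rch R U ∅ y z
      · refine ⟨{y | Rch R U ∅ z y}, ⟨⟨z, Relation.ReflTransGen.refl⟩, ?_, ?_⟩, z,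
          Relation.ReflTransGen.refl, hxz⟩
        · intro a ha b hb
          exact Relation.ReflTransGen.trans ha hb
        · intro a ha b hb
          exact Relation.ReflTransGen.trans (h a ha) hb
      · push Not at h
        obtain ⟨y, hy, hyz⟩ := h
        refine ih y ?_ (hxz.trans hy)
        have : (Finset.univ.filter (fun w => Rch R U ∅ y w)).card <
            (Finset.univ.filter (fun w => Rch R U ∅ z w)).card := by
          apply Finset.card_lt_card
          rw [Finset.ssubset_iff_of_subset]
          · refine ⟨z, ?_, ?_⟩
            · simp only [Finset.mem_filter, Finset.mem_univ, true_and]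
              exact Relation.ReflTransGen.refl
            · simpa using hyz
          · intro w hw
            simp only [Finset.mem_filter, Finset.mem_univ, true_and] at hw ⊢
            exact hy.trans hw
        omega
  exact key _ x le_rfl .refl

/-- an attractor is reached from every state which agrees with it outside `U` -/
theorem ATT.reach {R : Net V} {U : Finset V} {A : Set (V → Bool)} (hA : ATT R U A)
    (hcyc : NoPos R U) (htot : Tot R U) {a x : V → Bool} (ha : a ∈ A)
    (hxy : ∀ j, j ∉ U → x j = a j) : ∃ z ∈ A, Rch R U ∅ x z := by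
  obtain ⟨z, h1, h2⟩ := common_net R U hcyc htot x a hxy
  exact ⟨z, hA.closed a ha z h2, h1⟩

theorem ATT.reach' {R : Net V} {U : Finset V} {A : Set (V → Bool)} (hA : ATT R U A)
    (hcyc : NoPos R U) (htot : Tot R U) {a x : V → Bool} (ha : a ∈ A)
    (hxy : ∀ j, j ∉ U → x j = a j) : Rch R U ∅ x a := by
  obtain ⟨z, h1, h2⟩ := hA.reach hcyc htot ha hxy
  exact h2.trans (hA.conn z h1 a ha)

/-- uniqueness -/
theorem ATT.unique {R : Net V} {U : Finset V} {A B : Set (V → Bool)} (hA : ATT R U A)
    (hB : ATT R U B) (hcyc : NoPos R U) (htot : Tot R U) {a b : V → Bool} (ha : a ∈ A)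
    (hb : b ∈ B) (hxy : ∀ j, j ∉ U → a j = b j) : A = B := by
  have h1 : ∀ c ∈ A, c ∈ B := by
    intro c hc
    have hca : ∀ j, j ∉ U → c j = a j := fun j hj =>
      (hA.conn a ha c hc).frozen j hj (by simp)
    obtain ⟨z, hz, hcz⟩ := hB.reach hcyc htot hb (x := c) (fun j hj => by rw [hca j hj, hxy j hj])
    have hza := hA.conn z (hA.closed c hc z hcz) c hc
    exact hB.closed z hz c hza
  have h2 : ∀ c ∈ B, c ∈ A := by
    intro c hc
    have hca : ∀ j, j ∉ U → c j = b j := fun j hj =>
      (hB.conn b hb c hc).frozen j hj (by simp)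
    obtain ⟨z, hz, hcz⟩ := hA.reach hcyc htot ha (x := c)
      (fun j hj => by rw [hca j hj, hxy j hj])
    have hza := hB.conn z (hB.closed c hc z hcz) c hc
    exact hA.closed z hz c hza
  exact Set.ext fun c => ⟨h1 c, h2 c⟩

theorem NoPos.mono {R : Net V} {U U' : Finset V} (h : NoPos R U) (hU : U' ⊆ U) : NoPos R U' :=
  fun D hD => h D (hD.trans hU)

theorem Tot.mono {R : Net V} {U U' : Finset V} (h : Tot R U) (hU : U' ⊆ U) : Tot R U' :=
  fun i hi => h i (hU hi)

/-- attractor with fewer moving vertices inside a given one -/
theorem ATT.sub {R : Net V} {U U' : Finset V} {A : Set (V → Bool)} (hA : ATT R U A)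
    (hU : U' ⊆ U) {a : V → Bool} (ha : a ∈ A) :
    ∃ A', ATT R U' A' ∧ A' ⊆ A ∧ ∃ z ∈ A', Rch R U' ∅ a z := by
  obtain ⟨A', hA', z, hz, haz⟩ := exists_ATT R U' a
  refine ⟨A', hA', ?_, z, hz, haz⟩
  intro y hy
  have h1 : Rch R U' ∅ a y := haz.trans (hA'.conn z hz y hy)
  exact hA.closed a ha y (Rch.mono (by simpa using hU) (by simp) h1)

end TAtt

end Pool.Agent.Lib.MP_8a6e71_co.RS
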